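import Pool.Agent.Helper490.SH.Defs

set_option autoImplicit false

open MeasureTheory Set Metric Real MvPolynomial

namespace Pool.Helper490.SH

noncomputable section


/-- Euler operator -/
def Eu (P : MvPolynomial (Fin 3) ℝ) : MvPolynomial (Fin 3) ℝ :=
  X 0 * pderiv 0 P + X 1 * pderiv 1 P + X 2 * pderiv 2 P

/-- flat Laplacian -/
def La (P : MvPolynomial (Fin 3) ℝ) : MvPolynomial (Fin 3) ℝ :=
  pderiv 0 (pderiv 0 P) + pderiv 1 (pderiv 1 P) + pderiv 2 (pderiv 2 P)

theorem pd_comm (i j : Fin 3) (P : MvPolynomial (Fin 3) ℝ) :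
    pderiv i (pderiv j P) = pderiv j (pderiv i P) := by
  ext d
  rw [coeff_pderiv, coeff_pderiv, coeff_pderiv, coeff_pderiv]
  by_cases h : i = j
  · subst h; rfl
  · rw [add_right_comm]
    simp only [Finsupp.add_apply]
    rw [Finsupp.single_eq_of_ne (Ne.symm h), Finsupp.single_eq_of_ne h]
    push_cast
    ring

theorem Lam_eq (P : MvPolynomial (Fin 3) ℝ) :
    Lam P = Eu (Eu P) + Eu P - (X 0 ^ 2 + X 1 ^ 2 + X 2 ^ 2) * La P := by
  unfold Lam LP Eu La
  have h01 := pd_comm 0 1 P
  have h02 := pd_comm 0 2 P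
  have h12 := pd_comm 1 2 P
  simp only [map_add, map_sub, pderiv_mul, pderiv_X_self]
  rw [pderiv_X_of_ne (i := (0 : Fin 3)) (j := 1) (by decide),
    pderiv_X_of_ne (i := (0 : Fin 3)) (j := 2) (by decide),
    pderiv_X_of_ne (i := (1 : Fin 3)) (j := 0) (by decide),
    pderiv_X_of_ne (i := (1 : Fin 3)) (j := 2) (by decide),
    pderiv_X_of_ne (i := (2 : Fin 3)) (j := 0) (by decide),
    pderiv_X_of_ne (i := (2 : Fin 3)) (j := 1) (by decide)]
  rw [h01, h02, h12]
  ring

theorem coeff_X_pderiv (i : Fin 3) (P : MvPolynomial (Fin 3) ℝ) (d : Fin 3 →₀ ℕ) :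
    coeff d (X i * pderiv i P) = (d i : ℝ) * coeff d P := by
  rw [coeff_X_mul']
  split_ifs with h
  · rw [coeff_pderiv]
    have h1 : d - Finsupp.single i 1 + Finsupp.single i 1 = d := by
      have : Finsupp.single i 1 ≤ d := by
        rw [Finsupp.single_le_iff]
        rw [Finsupp.mem_support_iff] at h
        omega
      exact tsub_add_cancel_of_le this
    rw [h1]
    have h2 : ((d - Finsupp.single i 1 : Fin 3 →₀ ℕ) i : ℝ) + 1 = d i := by
      rw [Finsupp.mem_support_iff] at h
      rw [Finsupp.tsub_apply, Finsupp.single_eq_same]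
      rw [Nat.cast_sub (by omega)]
      push_cast; ring
    rw [h2]; ring
  · rw [Finsupp.mem_support_iff, not_not] at h
    rw [h]; simp

theorem coeff_Eu (P : MvPolynomial (Fin 3) ℝ) (d : Fin 3 →₀ ℕ) :
    coeff d (Eu P) = (d.degree : ℝ) * coeff d P := by
  unfold Eu
  rw [coeff_add, coeff_add, coeff_X_pderiv, coeff_X_pderiv, coeff_X_pderiv,
    Finsupp.degree_eq_sum, Fin.sum_univ_three]
  push_cast
  ring

theorem coeff_zero_of_deg (P : MvPolynomial (Fin 3) ℝ) (l : ℕ) (hP : P.totalDegree ≤ l)
    (d : Fin 3 →₀ ℕ) (hd : l < d.degree) : coeff d P = 0 := by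
  refine coeff_eq_zero_of_totalDegree_lt ?_
  rw [Finsupp.degree_apply] at hd
  exact lt_of_le_of_lt hP hd

/-- On the sphere, `Lam` acts on polynomials of degree at most `l` as `l (l + 1)` modulo lower degree. -/
theorem Lam_mod (P : MvPolynomial (Fin 3) ℝ) (l : ℕ) (hP : P.totalDegree ≤ l) :
    ∃ R : MvPolynomial (Fin 3) ℝ, (R = 0 ∨ R.totalDegree < l) ∧
      ∀ w : S2, ev (Lam P) (w : E) = (l : ℝ) * (l + 1) * ev P (w : E) + ev R (w : E) := by
  refine ⟨Eu (Eu P) + Eu P - C ((l : ℝ) * (l + 1)) * P - La P, ?_, ?_⟩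
  · set R := Eu (Eu P) + Eu P - C ((l : ℝ) * (l + 1)) * P - La P with hR
    by_cases h0 : R = 0
    · exact Or.inl h0
    right
    by_contra hcon
    push Not at hcon
    obtain ⟨d, hd, hdeg⟩ : ∃ d ∈ R.support, R.totalDegree = d.degree := by
      obtain ⟨d, hd, h⟩ := Finset.exists_mem_eq_sup R.support
        (by rwa [Finset.nonempty_iff_ne_empty, Ne, MvPolynomial.support_eq_empty])
        (fun s => s.sum fun _ e => e)
      refine ⟨d, hd, ?_⟩
      rw [Finsupp.degree_apply]
      exact h
    rw [hdeg] at hcon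
    rw [MvPolynomial.mem_support_iff] at hd
    apply hd
    rw [hR, coeff_sub, coeff_sub, coeff_add, coeff_Eu, coeff_Eu, coeff_C_mul]
    have hL : coeff d (La P) = 0 := by
      unfold La
      have : ∀ i : Fin 3, coeff d (pderiv i (pderiv i P)) = 0 := by
        intro i
        rw [coeff_pderiv, coeff_pderiv, coeff_zero_of_deg P l hP]
        · simp
        · simp only [map_add, Finsupp.degree_single]
          omega
      rw [coeff_add, coeff_add, this, this, this]
      simp
    rw [hL]
    rcases hcon.eq_or_lt with h | h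
    · rw [← h]; ring
    · rw [coeff_zero_of_deg P l hP d h]; ring
  · intro w
    have hw : (w : E) 0 ^ 2 + (w : E) 1 ^ 2 + (w : E) 2 ^ 2 = 1 := by
      have h1 : ‖(w : E)‖ = 1 := by
        have := w.2
        simpa using this
      have h2 := EuclideanSpace.norm_sq_eq (w : E)
      rw [h1, Fin.sum_univ_three] at h2
      simp only [Real.norm_eq_abs, sq_abs, one_pow] at h2
      linarith
    rw [Lam_eq]
    unfold ev
    simp only [map_add, map_sub, map_mul, map_pow, eval_X, eval_C]
    rw [hw]
    ring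

/-- `LP` does not raise the degree. -/
theorem LP_totalDegree (a b : Fin 3) (P : MvPolynomial (Fin 3) ℝ) :
    (LP a b P).totalDegree ≤ P.totalDegree := by
  have key : ∀ i j : Fin 3, (X i * pderiv j P).totalDegree ≤ P.totalDegree := by
    intro i j
    rw [MvPolynomial.totalDegree]
    refine Finset.sup_le fun d hd => ?_
    rw [MvPolynomial.mem_support_iff, coeff_X_mul'] at hd
    split_ifs at hd with h
    · rw [coeff_pderiv] at hd
      have h1 : coeff (d - Finsupp.single i 1 + Finsupp.single j 1) P ≠ 0 := by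
        intro h0
        rw [h0] at hd
        simp at hd
      have h2 := le_totalDegree (mem_support_iff.2 h1)
      have h3 : ((d - Finsupp.single i 1 + Finsupp.single j 1).sum fun _ e => e) =
          (d.sum fun _ e => e) := by
        have e : ∀ d : Fin 3 →₀ ℕ, (d.sum fun _ e => e) = d.degree := fun d => by
          rw [Finsupp.degree_apply]; rfl
        rw [e, e]
        have h4 : Finsupp.single i 1 ≤ d := by
          rw [Finsupp.single_le_iff]
          rw [Finsupp.mem_support_iff] at h
          omega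
        have h5 : d - Finsupp.single i 1 + Finsupp.single i 1 = d := tsub_add_cancel_of_le h4
        conv_rhs => rw [← h5]
        simp only [map_add, Finsupp.degree_single]
      rw [h3] at h2
      exact h2
    · exact absurd rfl hd
  unfold LP
  exact (totalDegree_sub _ _).trans (max_le (key a b) (key b a))

/-- The derivative of the evaluation. -/
theorem hasFDerivAt_ev (P : MvPolynomial (Fin 3) ℝ) (x : E) :
    HasFDerivAt (ev P) (∑ i : Fin 3, ev (pderiv i P) x • (EuclideanSpace.proj i : E →L[ℝ] ℝ)) x := by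
  induction P using MvPolynomial.induction_on with
  | C a =>
    have h : ev (C a) = fun _ => a := by
      funext y; simp [ev]
    rw [h]
    simp only [pderiv_C]
    have : (∑ i : Fin 3, ev 0 x • (EuclideanSpace.proj i : E →L[ℝ] ℝ)) = 0 := by
      simp [ev]
    rw [this]
    exact hasFDerivAt_const a x
  | add P Q hP hQ =>
    have h : ev (P + Q) = fun y => ev P y + ev Q y := by
      funext y; simp [ev]
    rw [h]
    have h2 := hP.add hQ
    have e : (∑ i : Fin 3, ev (pderiv i (P + Q)) x • (EuclideanSpace.proj i : E →L[ℝ] ℝ)) =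
        (∑ i : Fin 3, ev (pderiv i P) x • (EuclideanSpace.proj i : E →L[ℝ] ℝ)) +
        (∑ i : Fin 3, ev (pderiv i Q) x • (EuclideanSpace.proj i : E →L[ℝ] ℝ)) := by
      rw [← Finset.sum_add_distrib]
      refine Finset.sum_congr rfl fun i _ => ?_
      rw [← add_smul]
      simp [ev]
    rw [e]
    exact h2
  | mul_X P j hP =>
    have h : ev (P * X j) = fun y => ev P y * (EuclideanSpace.proj j : E →L[ℝ] ℝ) y := by
      funext y; simp [ev]
    rw [h]
    have h2 := hP.mul (EuclideanSpace.proj j : E →L[ℝ] ℝ).hasFDerivAt (x := x)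
    have h3 : ∀ i : Fin 3, ev (pderiv i (P * X j)) x • (EuclideanSpace.proj i : E →L[ℝ] ℝ) =
        (if i = j then ev P x • (EuclideanSpace.proj j : E →L[ℝ] ℝ) else 0) +
          (EuclideanSpace.proj j : E →L[ℝ] ℝ) x • ev (pderiv i P) x • (EuclideanSpace.proj i : E →L[ℝ] ℝ) := by
      intro i
      rw [pderiv_mul]
      by_cases hij : i = j
      · subst hij
        rw [if_pos rfl, pderiv_X_self]
        rw [smul_smul, ← add_smul]
        simp [ev]
        congr 1
        ring
      · rw [if_neg hij, pderiv_X_of_ne (Ne.symm hij)]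
        rw [smul_smul]
        simp [ev]
        congr 1
        ring
    have e : (∑ i : Fin 3, ev (pderiv i (P * X j)) x • (EuclideanSpace.proj i : E →L[ℝ] ℝ)) =
        ev P x • (EuclideanSpace.proj j : E →L[ℝ] ℝ) + (EuclideanSpace.proj j : E →L[ℝ] ℝ) x •
        (∑ i : Fin 3, ev (pderiv i P) x • (EuclideanSpace.proj i : E →L[ℝ] ℝ)) := by
      rw [Finset.sum_congr rfl fun i _ => h3 i, Finset.sum_add_distrib, Finset.sum_ite_eq',
        Finset.smul_sum]
      simp
    rw [e]
    exact h2

/-- The polynomial and the functional rotation generator agree. -/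
theorem LF_ev (a b : Fin 3) (P : MvPolynomial (Fin 3) ℝ) (x : E) :
    LF a b (ev P) x = ev (LP a b P) x := by
  have h1 : ∀ i : Fin 3, fderiv ℝ (ev P) x (EuclideanSpace.single i 1) = ev (pderiv i P) x := by
    intro i
    rw [(hasFDerivAt_ev P x).fderiv]
    simp only [ContinuousLinearMap.sum_apply, ContinuousLinearMap.smul_apply, smul_eq_mul]
    rw [Finset.sum_eq_single i]
    · simp
    · intro j _ hj
      simp [hj]
    · intro h; exact absurd (Finset.mem_univ i) h
  unfold LF LP
  rw [h1, h1]
  simp [ev]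

theorem contDiff_ev (P : MvPolynomial (Fin 3) ℝ) : ContDiff ℝ (⊤ : ℕ∞) (ev P) := by
  induction P using MvPolynomial.induction_on with
  | C a =>
    have h : ev (C a) = fun _ => a := by
      funext y; simp [ev]
    rw [h]
    exact contDiff_const
  | add P Q hP hQ =>
    have h : ev (P + Q) = fun y => ev P y + ev Q y := by
      funext y; simp [ev]
    rw [h]
    exact hP.add hQ
  | mul_X P j hP =>
    have h : ev (P * X j) = fun y => ev P y * (EuclideanSpace.proj j : E →L[ℝ] ℝ) y := by
      funext y; simp [ev]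
    rw [h]
    exact hP.mul (EuclideanSpace.proj j : E →L[ℝ] ℝ).contDiff

end

end Pool.Helper490.SH
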