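import Pool.Agent.Helper490.SH.Defs

set_option autoImplicit false

open MeasureTheory Set Metric Real MvPolynomial

namespace Pool.Helper490.SH

noncomputable section


/-- the map induced by an isometry on the sphere -/
def sphMap (R : E ≃ₗᵢ[ℝ] E) (w : S2) : S2 :=
  ⟨R (w : E), by
    have hw : ‖(w : E)‖ = 1 := mem_sphere_zero_iff_norm.1 w.2
    rw [mem_sphere_zero_iff_norm, R.norm_map, hw]⟩

theorem sphMap_continuous (R : E ≃ₗᵢ[ℝ] E) : Continuous (sphMap R) :=
  Continuous.subtype_mk (R.continuous.comp continuous_subtype_val) _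

open scoped Pointwise in
theorem sphMap_map (R : E ≃ₗᵢ[ℝ] E) : Measure.map (sphMap R) sig = sig := by
  ext s hs
  rw [Measure.map_apply (sphMap_continuous R).measurable hs]
  unfold sig
  rw [Measure.toSphere_apply' _ hs,
    Measure.toSphere_apply' _ ((sphMap_continuous R).measurable hs)]
  congr 1
  have hset : (Ioo (0 : ℝ) 1 • (Subtype.val '' (sphMap R ⁻¹' s)) : Set E) =
      R ⁻¹' (Ioo (0 : ℝ) 1 • (Subtype.val '' s) : Set E) := by
    ext x
    constructor
    · rintro ⟨r, hr, _, ⟨w, hw, rfl⟩, rfl⟩
      refine ⟨r, hr, R (w : E), ⟨sphMap R w, hw, rfl⟩, ?_⟩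
      show r • R (w : E) = R (r • (w : E))
      rw [map_smul]
    · rintro ⟨r, hr, _, ⟨w, hw, rfl⟩, hx⟩
      have hx' : r • (w : E) = R x := hx
      have hwn : ‖(w : E)‖ = 1 := mem_sphere_zero_iff_norm.1 w.2
      have hm : R.symm (w : E) ∈ sphere (0 : E) 1 := by
        rw [mem_sphere_zero_iff_norm, R.symm.norm_map, hwn]
      refine ⟨r, hr, R.symm (w : E), ⟨⟨R.symm (w : E), hm⟩, ?_, rfl⟩, ?_⟩
      · show sphMap R ⟨R.symm (w : E), hm⟩ ∈ s
        have : sphMap R ⟨R.symm (w : E), hm⟩ = w := by
          apply Subtype.ext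
          show R (R.symm (w : E)) = (w : E)
          exact R.apply_symm_apply _
        rw [this]
        exact hw
      · show r • R.symm (w : E) = x
        rw [← map_smul, hx', R.symm_apply_apply]
  rw [hset]
  exact (R.measurePreserving).measure_preimage_equiv (f := R.toMeasurableEquiv) _

theorem integral_sphMap (R : E ≃ₗᵢ[ℝ] E) (g : S2 → ℝ) (hg : Continuous g) :
    ∫ w, g (sphMap R w) ∂sig = ∫ w, g w ∂sig := by
  conv_rhs => rw [← sphMap_map R]
  rw [integral_map (sphMap_continuous R).measurable.aemeasurable]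
  exact hg.aestronglyMeasurable

/-- the rotation as a function -/
def rotF (a b : Fin 3) (t : ℝ) (x : E) : E := WithLp.toLp 2 (fun i =>
  if i = a then Real.cos t * x a - Real.sin t * x b else
  if i = b then Real.sin t * x a + Real.cos t * x b else x i)

theorem rotF_norm (a b : Fin 3) (hab : a ≠ b) (t : ℝ) (x : E) : ‖rotF a b t x‖ = ‖x‖ := by
  have h : ‖rotF a b t x‖ ^ 2 = ‖x‖ ^ 2 := by
    rw [EuclideanSpace.real_norm_sq_eq, EuclideanSpace.real_norm_sq_eq, Fin.sum_univ_three,
      Fin.sum_univ_three]
    have hcs := Real.sin_sq_add_cos_sq t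
    fin_cases a <;> fin_cases b <;> first | exact absurd rfl hab | skip
    all_goals
      simp [rotF]
      nlinarith [hcs]
  have h1 := norm_nonneg (rotF a b t x)
  have h2 := norm_nonneg x
  nlinarith [sq_nonneg (‖rotF a b t x‖ - ‖x‖)]

/-- the rotation -/
def rotI (a b : Fin 3) (hab : a ≠ b) (t : ℝ) : E ≃ₗᵢ[ℝ] E :=
  LinearIsometry.toLinearIsometryEquiv
    { toFun := rotF a b t
      map_add' := by
        intro x y
        ext i
        simp only [rotF, PiLp.add_apply]
        split_ifs <;> ring
      map_smul' := by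
        intro c x
        ext i
        simp only [rotF, PiLp.smul_apply, smul_eq_mul, RingHom.id_apply]
        split_ifs <;> ring
      norm_map' := fun x => rotF_norm a b hab t x } rfl

theorem rotI_apply (a b : Fin 3) (hab : a ≠ b) (t : ℝ) (x : E) : rotI a b hab t x = rotF a b t x :=
  rfl

theorem rotF_zero (a b : Fin 3) (x : E) : rotF a b 0 x = x := by
  ext i
  simp only [rotF, Real.cos_zero, Real.sin_zero]
  split_ifs with h1 h2
  · subst h1; ring
  · subst h2; ring
  · rfl

theorem rotF_eq (a b : Fin 3) (hab : a ≠ b) (s : ℝ) (x : E) :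
    rotF a b s x = (x - (x a • EuclideanSpace.single a (1 : ℝ) +
      x b • EuclideanSpace.single b (1 : ℝ))) +
      Real.cos s • (x a • EuclideanSpace.single a (1 : ℝ) +
        x b • EuclideanSpace.single b (1 : ℝ)) +
      Real.sin s • (x a • EuclideanSpace.single b (1 : ℝ) -
        x b • EuclideanSpace.single a (1 : ℝ)) := by
  ext i
  by_cases h1 : i = a
  · subst h1
    simp [rotF, hab]
    ring
  · by_cases h2 : i = b
    · subst h2
      simp [rotF, h1]
      ring
    · simp [rotF, h1, h2]

theorem rotF_hasDerivAt (a b : Fin 3) (hab : a ≠ b) (t : ℝ) (x : E) :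
    HasDerivAt (fun s => rotF a b s x)
      ((rotF a b t x) a • (EuclideanSpace.single b (1 : ℝ)) -
        (rotF a b t x) b • (EuclideanSpace.single a (1 : ℝ))) t := by
  have e1 : (fun s => rotF a b s x) = fun s => (x - (x a • EuclideanSpace.single a (1 : ℝ) +
      x b • EuclideanSpace.single b (1 : ℝ))) +
      Real.cos s • (x a • EuclideanSpace.single a (1 : ℝ) +
        x b • EuclideanSpace.single b (1 : ℝ)) +
      Real.sin s • (x a • EuclideanSpace.single b (1 : ℝ) -
        x b • EuclideanSpace.single a (1 : ℝ)) := by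
    funext s
    exact rotF_eq a b hab s x
  have e2 : ((rotF a b t x) a • (EuclideanSpace.single b (1 : ℝ)) -
        (rotF a b t x) b • (EuclideanSpace.single a (1 : ℝ)) : E) =
      0 + (-Real.sin t) • (x a • EuclideanSpace.single a (1 : ℝ) +
        x b • EuclideanSpace.single b (1 : ℝ)) +
      Real.cos t • (x a • EuclideanSpace.single b (1 : ℝ) -
        x b • EuclideanSpace.single a (1 : ℝ)) := by
    ext i
    by_cases h1 : i = a
    · subst h1
      simp [rotF, hab, Ne.symm hab]
      ring
    · by_cases h2 : i = b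
      · subst h2
        simp [rotF, h1]
        ring
      · have ea : (EuclideanSpace.single a (1 : ℝ) : E) i = 0 := by simp [h1]
        have eb : (EuclideanSpace.single b (1 : ℝ) : E) i = 0 := by simp [h2]
        simp only [PiLp.sub_apply, PiLp.add_apply, PiLp.smul_apply, ea, eb, smul_eq_mul]
        simp
  rw [e1, e2]
  exact ((hasDerivAt_const t _).add ((Real.hasDerivAt_cos t).smul_const _)).add
    ((Real.hasDerivAt_sin t).smul_const _)

theorem comp_rot_hasDerivAt (a b : Fin 3) (hab : a ≠ b) (f : E → ℝ) (hf : ContDiff ℝ 1 f)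
    (t : ℝ) (x : E) : HasDerivAt (fun s => f (rotF a b s x)) (LF a b f (rotF a b t x)) t := by
  have h1 : HasFDerivAt f (fderiv ℝ f (rotF a b t x)) (rotF a b t x) :=
    (hf.differentiable (by norm_num)).differentiableAt.hasFDerivAt
  have h2 := h1.comp_hasDerivAt t (rotF_hasDerivAt a b hab t x)
  have e : fderiv ℝ f (rotF a b t x) ((rotF a b t x) a • (EuclideanSpace.single b (1 : ℝ)) -
        (rotF a b t x) b • (EuclideanSpace.single a (1 : ℝ))) = LF a b f (rotF a b t x) := by
    rw [map_sub, map_smul, map_smul]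
    rfl
  rw [e] at h2
  exact h2

theorem LF_continuous (a b : Fin 3) (f : E → ℝ) (hf : ContDiff ℝ 1 f) : Continuous (LF a b f) := by
  have h1 : Continuous (fderiv ℝ f) := hf.continuous_fderiv (by norm_num)
  unfold LF
  fun_prop

/-- Integrals over the sphere are invariant under rotations, infinitesimally. -/
theorem LF_integral (a b : Fin 3) (f : E → ℝ) (hf : ContDiff ℝ 1 f) :
    ∫ w : S2, LF a b f (w : E) ∂sig = 0 := by
  by_cases hab : a = b
  · subst hab
    have : ∀ w : S2, LF a a f (w : E) = 0 := fun w => by unfold LF; ring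
    simp [this]
  · have hLc := LF_continuous a b f hf
    obtain ⟨C, hC⟩ := (isCompact_sphere (0 : E) 1).exists_bound_of_continuousOn hLc.continuousOn
    obtain ⟨C', hC'⟩ := (isCompact_sphere (0 : E) 1).exists_bound_of_continuousOn
      hf.continuous.continuousOn
    have hmem : ∀ (t : ℝ) (w : S2), rotF a b t (w : E) ∈ sphere (0 : E) 1 := by
      intro t w
      rw [mem_sphere_zero_iff_norm, rotF_norm a b hab]
      exact mem_sphere_zero_iff_norm.1 w.2
    have hrc : ∀ t, Continuous (fun w : S2 => rotF a b t (w : E)) := fun t =>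
      (rotI a b hab t).continuous.comp continuous_subtype_val
    have hd := hasDerivAt_integral_of_dominated_loc_of_deriv_le (μ := sig) (𝕜 := ℝ)
      (F := fun t (w : S2) => f (rotF a b t (w : E)))
      (F' := fun t (w : S2) => LF a b f (rotF a b t (w : E))) (x₀ := 0) (s := Set.univ)
      (bound := fun _ => C) Filter.univ_mem
      (Filter.Eventually.of_forall fun t =>
        (hf.continuous.comp (hrc t)).aestronglyMeasurable)
      (Integrable.of_bound ((hf.continuous.comp (hrc 0)).aestronglyMeasurable) C'
        (Filter.Eventually.of_forall fun w => hC' _ (hmem 0 w)))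
      ((hLc.comp (hrc 0)).aestronglyMeasurable)
      (Filter.Eventually.of_forall fun w t _ => hC _ (hmem t w))
      (integrable_const C)
      (Filter.Eventually.of_forall fun w t _ => comp_rot_hasDerivAt a b hab f hf t (w : E))
    have hconst : (fun t => ∫ w : S2, f (rotF a b t (w : E)) ∂sig) =
        fun _ => ∫ w : S2, f (w : E) ∂sig := by
      funext t
      have := integral_sphMap (rotI a b hab t) (fun w => f (w : E))
        (hf.continuous.comp continuous_subtype_val)
      exact this
    have h1 := hd.2
    rw [hconst] at h1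
    have h2 := h1.unique (hasDerivAt_const (0 : ℝ) _)
    simp only [rotF_zero] at h2
    exact h2

end

end Pool.Helper490.SH
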