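import Mathlib

set_option autoImplicit false

namespace Pool.Helper490.SH




/-- Maximal negative subspace: its orthogonal complement is nonnegative. -/
theorem exists_max_negative {C : Type*} [AddCommGroup C] [Module ℝ C] [FiniteDimensional ℝ C]
    (B : C →ₗ[ℝ] C →ₗ[ℝ] ℝ) (hB : ∀ x y, B x y = B y x) :
    ∃ M : Submodule ℝ C, (∀ m ∈ M, m ≠ 0 → B m m < 0) ∧
      ∀ x, (∀ m ∈ M, B m x = 0) → 0 ≤ B x x := by
  have hwf : WellFounded (fun a b : Submodule ℝ C => a > b) := wellFounded_gt
  obtain ⟨M, hM, hmax⟩ := hwf.has_min {M : Submodule ℝ C | ∀ m ∈ M, m ≠ 0 → B m m < 0}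
    ⟨⊥, fun m hm hm0 => absurd ((Submodule.mem_bot ℝ).1 hm) hm0⟩
  have hM' : ∀ m ∈ M, m ≠ 0 → B m m < 0 := hM
  refine ⟨M, hM', ?_⟩
  intro x hx
  by_contra hneg
  push Not at hneg
  have hxM : x ∉ M := by
    intro hxM
    have := hx x hxM
    linarith
  have hlt : M < M ⊔ Submodule.span ℝ {x} := by
    refine lt_of_le_of_ne le_sup_left ?_
    intro heq
    apply hxM
    rw [heq]
    exact Submodule.mem_sup_right (Submodule.mem_span_singleton_self x)
  refine hmax (M ⊔ Submodule.span ℝ {x}) ?_ hlt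
  intro y hy hy0
  obtain ⟨m, hm, z, hz, rfl⟩ := Submodule.mem_sup.1 hy
  obtain ⟨t, rfl⟩ := Submodule.mem_span_singleton.1 hz
  have h1 : B (m + t • x) (m + t • x) = B m m + t ^ 2 * B x x := by
    have h2 : B m x = 0 := hx m hm
    have h3 : B x m = 0 := by rw [hB]; exact h2
    simp only [map_add, LinearMap.add_apply, map_smul, LinearMap.smul_apply, smul_eq_mul, h2, h3]
    ring
  rw [h1]
  by_cases hm0 : m = 0
  · subst hm0
    have ht : t ≠ 0 := by
      intro ht
      apply hy0
      rw [ht]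
      simp
    have h4 : 0 < t ^ 2 := by positivity
    have h5 : B (0 : C) (0 : C) = 0 := by simp
    rw [h5]
    nlinarith
  · have h6 := hM' m hm hm0
    have h7 : 0 ≤ t ^ 2 := sq_nonneg t
    nlinarith




/-- If there are fewer conditions than dimensions, there is a nonzero solution. -/
theorem exists_common_orthogonal {C : Type*} [AddCommGroup C] [Module ℝ C] [FiniteDimensional ℝ C]
    {I : Type*} (K : Finset I) (d : I → ℕ) (n : ℕ)
    (B : ℕ → C →ₗ[ℝ] C →ₗ[ℝ] ℝ) (M : ℕ → Submodule ℝ C) (G : I → (Fin n → ℝ) →ₗ[ℝ] C)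
    (hn : ∑ i ∈ K, Module.finrank ℝ (M (d i)) < n) :
    ∃ c : Fin n → ℝ, c ≠ 0 ∧ ∀ i ∈ K, ∀ m ∈ M (d i), B (d i) m (G i c) = 0 := by
  let Φ : (Fin n → ℝ) →ₗ[ℝ] ((i : K) → Module.Dual ℝ (M (d i))) :=
    LinearMap.pi (fun i : K => (LinearMap.lcomp ℝ ℝ (M (d i)).subtype) ∘ₗ (B (d i)).flip ∘ₗ G i)
  have hΦ : ∀ c (i : K) (m : M (d i)), Φ c i m = B (d i) m (G i c) := fun c i m => rfl
  have hdim : Module.finrank ℝ ((i : K) → Module.Dual ℝ (M (d i)))
      < Module.finrank ℝ (Fin n → ℝ) := by
    rw [Module.finrank_pi_fintype, Module.finrank_fin_fun]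
    simp only [Subspace.dual_finrank_eq]
    rw [Finset.sum_coe_sort K (fun i => Module.finrank ℝ (M (d i)))]
    exact hn
  have hker := LinearMap.ker_ne_bot_of_finrank_lt (f := Φ) hdim
  obtain ⟨c, hc, hc0⟩ := Submodule.exists_mem_ne_zero_of_ne_bot hker
  refine ⟨c, hc0, fun i hi m hm => ?_⟩
  have h1 : Φ c = 0 := hc
  have h2 := hΦ c ⟨i, hi⟩ ⟨m, hm⟩
  rw [h1] at h2
  exact h2.symm

/-- The counting of the partial waves. `nn l` is the number of bound states with angular momentum `l`;
`lmax m` the largest angular momentum with more than `m` bound states. -/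
theorem counting {I : Type*} (d : I → ℕ) (hfin : ∀ L, {i | d i ≤ L}.Finite)
    (hcard : ∀ L, {i | d i ≤ L}.ncard ≤ (L + 1) ^ 2) (L : ℕ) (nn : ℕ → ℕ) :
    ∃ (J : Finset ℕ) (lmax : ℕ → ℕ), (∀ m ∈ J, lmax m ≤ L ∧ m < nn (lmax m)) ∧
      ∑ i ∈ (hfin L).toFinset, nn (d i) ≤ ∑ m ∈ J, (lmax m + 1) ^ 2 := by
  classical
  set N : ℕ := (Finset.range (L + 1)).sup nn with hN
  refine ⟨(Finset.range N).filter (fun m => ∃ l, l ≤ L ∧ m < nn l),
    fun m => Nat.findGreatest (fun l => m < nn l) L, ?_, ?_⟩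
  · intro m hm
    obtain ⟨-, l, hl, hml⟩ := Finset.mem_filter.mp hm
    exact ⟨Nat.findGreatest_le L, Nat.findGreatest_spec (P := fun l => m < nn l) hl hml⟩
  · have h1 : ∀ i ∈ (hfin L).toFinset, nn (d i)
        = ∑ m ∈ Finset.range N, if m < nn (d i) then 1 else 0 := by
      intro i hi
      have hdi : d i ≤ L := by simpa using hi
      have hle : nn (d i) ≤ N := Finset.le_sup (f := nn) (Finset.mem_range.mpr (by omega))
      rw [← Finset.card_filter]
      have h2 : (Finset.range N).filter (fun m => m < nn (d i)) = Finset.range (nn (d i)) := by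
        ext m
        simp only [Finset.mem_filter, Finset.mem_range]
        omega
      rw [h2, Finset.card_range]
    rw [Finset.sum_congr rfl h1, Finset.sum_comm, Finset.sum_filter]
    apply Finset.sum_le_sum
    intro m _
    rw [← Finset.card_filter]
    split_ifs with hP
    · have hsub : (hfin L).toFinset.filter (fun i => m < nn (d i))
          ⊆ (hfin (Nat.findGreatest (fun l => m < nn l) L)).toFinset := by
        intro i hi
        obtain ⟨hi1, hi2⟩ := Finset.mem_filter.mp hi
        have hdi : d i ≤ L := by simpa using hi1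
        have h3 : d i ≤ Nat.findGreatest (fun l => m < nn l) L :=
          Nat.le_findGreatest (P := fun l => m < nn l) hdi hi2
        simpa using h3
      refine (Finset.card_le_card hsub).trans ?_
      rw [← Set.ncard_eq_toFinset_card _ (hfin _)]
      exact hcard _
    · rw [Nat.le_zero, Finset.card_eq_zero, Finset.filter_eq_empty_iff]
      intro i hi hlt
      have hdi : d i ≤ L := by simpa using hi
      exact hP ⟨d i, hdi, hlt⟩




theorem exists_orthonormal_real_aux {C : Type*} [AddCommGroup C] [Module ℝ C]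
    (A : C →ₗ[ℝ] C →ₗ[ℝ] ℝ) (hA : ∀ x y, A x y = A y x) (J : Finset ℕ) (W : ℕ → Submodule ℝ C)
    (hW : ∀ m ∈ J, Module.finrank ℝ (W m) = m + 1)
    (hpos : ∀ m ∈ J, ∀ x ∈ W m, x ≠ 0 → 0 < A x x) (k : ℕ) :
    ∃ e : ℕ → C, (∀ m ∈ J, m < k → e m ∈ W m) ∧
      ∀ m ∈ J, ∀ n ∈ J, m < k → n < k → A (e m) (e n) = if m = n then 1 else 0 := by
  induction k with
  | zero => exact ⟨fun _ => 0, fun m _ hm => absurd hm (Nat.not_lt_zero m),
      fun m _ n _ hm => absurd hm (Nat.not_lt_zero m)⟩
  | succ k ih =>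
    obtain ⟨e, he, ho⟩ := ih
    by_cases hk : k ∈ J
    · let T : W k →ₗ[ℝ] (Fin k → ℝ) :=
        LinearMap.pi fun j : Fin k => (A (e j)).comp (W k).subtype
      have hfin : FiniteDimensional ℝ (W k) :=
        FiniteDimensional.of_finrank_pos (by rw [hW k hk]; exact Nat.succ_pos k)
      have hker : LinearMap.ker T ≠ ⊥ := by
        refine LinearMap.ker_ne_bot_of_finrank_lt ?_
        rw [hW k hk, Module.finrank_fin_fun]
        exact Nat.lt_succ_self k
      obtain ⟨w, hwT, hw0⟩ := (Submodule.ne_bot_iff _).1 hker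
      have hw0' : (w : C) ≠ 0 := fun h => hw0 (Subtype.ext h)
      have horth : ∀ m, m < k → A (e m) w = 0 := fun m hm => congrFun hwT ⟨m, hm⟩
      have hp := hpos k hk w w.2 hw0'
      obtain ⟨c, hc⟩ : ∃ c : ℝ, c = (√(A w w))⁻¹ := ⟨_, rfl⟩
      have hc2 : c * (c * A w w) = 1 := by
        rw [hc]
        have h1 : √(A w w) * √(A w w) = A w w := Real.mul_self_sqrt hp.le
        have h2 : √(A w w) ≠ 0 := (Real.sqrt_pos.2 hp).ne'
        calc (√(A w w))⁻¹ * ((√(A w w))⁻¹ * A w w)
            = (√(A w w))⁻¹ * ((√(A w w))⁻¹ * (√(A w w) * √(A w w))) := by rw [h1]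
          _ = 1 := by field_simp
      refine ⟨Function.update e k (c • (w : C)), ?_, ?_⟩
      · intro m hm hmk
        rcases Nat.lt_succ_iff_lt_or_eq.1 hmk with h | h
        · rw [Function.update_of_ne h.ne]
          exact he m hm h
        · subst h
          rw [Function.update_self]
          exact (W m).smul_mem _ w.2
      · intro m hm n hn hmk hnk
        rcases Nat.lt_succ_iff_lt_or_eq.1 hmk with h | h
        · rcases Nat.lt_succ_iff_lt_or_eq.1 hnk with h' | h'
          · rw [Function.update_of_ne h.ne, Function.update_of_ne h'.ne]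
            exact ho m hm n hn h h'
          · subst h'
            rw [Function.update_of_ne h.ne, Function.update_self, if_neg h.ne, map_smul,
              horth m h, smul_zero]
        · subst h
          rcases Nat.lt_succ_iff_lt_or_eq.1 hnk with h' | h'
          · rw [Function.update_of_ne h'.ne, Function.update_self, if_neg h'.ne', hA, map_smul,
              horth n h', smul_zero]
          · subst h'
            rw [Function.update_self, if_pos rfl, map_smul, map_smul, LinearMap.smul_apply,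
              smul_eq_mul, smul_eq_mul]
            exact hc2
    · refine ⟨e, fun m hm hmk => ?_, fun m hm n hn hmk hnk => ?_⟩
      · have : m ≠ k := fun h => hk (h ▸ hm)
        exact he m hm (by omega)
      · have h1 : m ≠ k := fun h => hk (h ▸ hm)
        have h2 : n ≠ k := fun h => hk (h ▸ hn)
        exact ho m hm n hn (by omega) (by omega)

/-- Successive choice of an orthonormal family in subspaces of growing dimension. -/
theorem exists_orthonormal_real {C : Type*} [AddCommGroup C] [Module ℝ C]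
    (A : C →ₗ[ℝ] C →ₗ[ℝ] ℝ) (hA : ∀ x y, A x y = A y x) (J : Finset ℕ) (W : ℕ → Submodule ℝ C)
    (hW : ∀ m ∈ J, Module.finrank ℝ (W m) = m + 1)
    (hpos : ∀ m ∈ J, ∀ x ∈ W m, x ≠ 0 → 0 < A x x) :
    ∃ e : ℕ → C, (∀ m ∈ J, e m ∈ W m) ∧
      ∀ m ∈ J, ∀ k ∈ J, A (e m) (e k) = if m = k then 1 else 0 := by
  obtain ⟨e, he, ho⟩ := exists_orthonormal_real_aux A hA J W hW hpos (J.sup id + 1)
  have hlt : ∀ m ∈ J, m < J.sup id + 1 := fun m hm =>
    Nat.lt_succ_of_le (Finset.le_sup (f := id) hm)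
  exact ⟨e, fun m hm => he m hm (hlt m hm), fun m hm k hk => ho m hm k hk (hlt m hm) (hlt k hk)⟩

end Pool.Helper490.SH
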