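import Pool.Agent.Helper490.LTEig
import Pool.Agent.Helper490.SH.LinAlg

set_option autoImplicit false

open MeasureTheory Set Real
open scoped ENNReal

namespace Pool.Helper490.SH

open Pool.Helper490.Eig

noncomputable section

lemma star_mul_self_eq (z : ℂ) : star z * z = ((‖z‖ ^ 2 : ℝ) : ℂ) := by
  rw [← Complex.normSq_eq_norm_sq, mul_comm]
  exact Complex.mul_conj _

lemma sob_pow6 {u g : ℝ → ℂ} (h : IsSobolev u g) : Integrable (fun x => (‖u x‖ ^ 2) ^ 3) := by
  by_cases h0 : u = 0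
  · subst h0
    simp
  have hm := h.integral_pos h0
  set m : ℝ := ∫ x, ‖u x‖ ^ 2 with hmdef
  set c : ℂ := (((√m)⁻¹ : ℝ) : ℂ) with hc
  have hs : IsSobolev (fun x => c * u x) (fun x => c * g x) := h.const_mul c
  have hcn : ‖c‖ ^ 2 = m⁻¹ := by
    rw [hc, Complex.norm_real, Real.norm_eq_abs, sq_abs, inv_pow, Real.sq_sqrt hm.le]
  have ho : ∀ n k : Fin 1, ∫ x, star (c * u x) * (c * u x) = if n = k then (1:ℂ) else 0 := by
    intro n k
    rw [if_pos (Subsingleton.elim _ _)]
    simp only [star_mul_self_eq]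
    rw [integral_complex_ofReal]
    simp only [norm_mul, mul_pow, hcn]
    rw [integral_const_mul, ← hmdef, inv_mul_cancel₀ hm.ne', Complex.ofReal_one]
  have h2 := (Pool.Helper490.Calib.sharp_H1_complex (fun _ : Fin 1 => fun x => c * u x)
    (fun _ : Fin 1 => fun x => c * g x) (fun _ => hs.memLp) (fun _ => hs.memLp_deriv)
    (fun _ => hs.integral_deriv) ho).1
  have h3 : ∀ x, (∑ _ : Fin 1, ‖c * u x‖ ^ 2) ^ 3 = (m⁻¹) ^ 3 * (‖u x‖ ^ 2) ^ 3 := by
    intro x
    rw [Finset.sum_const, Finset.card_univ, Fintype.card_fin, one_smul, norm_mul, mul_pow, hcn,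
      mul_pow]
  simp only [h3] at h2
  have h4 := h2.const_mul (m ^ 3)
  refine h4.congr (Filter.Eventually.of_forall fun x => ?_)
  simp only
  rw [← mul_assoc, ← mul_pow, mul_inv_cancel₀ hm.ne', one_pow, one_mul]

lemma sob_V_integrable {u g : ℝ → ℂ} (h : IsSobolev u g) (V : ℝ → ℝ) (hV : MemLp V (3 / 2)) :
    Integrable (fun x => V x * ‖u x‖ ^ 2) := by
  have hc : Continuous (fun x => ‖u x‖ ^ 2) := h.continuous.norm.pow 2
  have hm : MemLp (fun x => ‖u x‖ ^ 2) 3 := by
    rw [← integrable_norm_rpow_iff hc.aestronglyMeasurable (by norm_num) (by norm_num)]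
    refine (sob_pow6 h).congr (Filter.Eventually.of_forall fun x => ?_)
    simp only [ENNReal.toReal_ofNat]
    rw [Real.norm_eq_abs, abs_of_nonneg (sq_nonneg _)]
    have h5 : (‖u x‖ ^ 2 : ℝ) ^ ((3:ℕ):ℝ) = (‖u x‖ ^ 2) ^ 3 := Real.rpow_natCast _ 3
    rw [← h5]
    norm_num
  have hinst := holder_inst
  exact hV.integrable_mul hm

variable {κ : Type} [Fintype κ] [DecidableEq κ]

/-- Linear combination of functions. -/
def comb (φ : κ → ℝ → ℝ) (c : κ → ℝ) (x : ℝ) : ℝ := ∑ p, c p * φ p x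

/-- Weighted bilinear form on coefficient vectors. -/
def form (ω : ℝ → ℝ) (φ : κ → ℝ → ℝ) : (κ → ℝ) →ₗ[ℝ] (κ → ℝ) →ₗ[ℝ] ℝ :=
  Matrix.toLinearMap₂' ℝ (Matrix.of fun p q => ∫ x, ω x * (φ p x * φ q x))

lemma form_apply (ω : ℝ → ℝ) (φ : κ → ℝ → ℝ)
    (h : ∀ p q, Integrable fun x => ω x * (φ p x * φ q x)) (c c' : κ → ℝ) :
    form ω φ c c' = ∫ x, ω x * (comb φ c x * comb φ c' x) := by
  have h1 : ∀ x, ω x * (comb φ c x * comb φ c' x) =
      ∑ p, ∑ q, c p * (c' q * (ω x * (φ p x * φ q x))) := by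
    intro x
    rw [comb, comb, Finset.sum_mul_sum, Finset.mul_sum]
    refine Finset.sum_congr rfl fun p _ => ?_
    rw [Finset.mul_sum]
    exact Finset.sum_congr rfl fun q _ => by ring
  simp only [h1]
  rw [integral_finsetSum _ fun p _ => integrable_finsetSum _ fun q _ =>
    ((h p q).const_mul _).const_mul _]
  rw [form, Matrix.toLinearMap₂'_apply]
  refine Finset.sum_congr rfl fun p _ => ?_
  rw [integral_finsetSum _ fun q _ => ((h p q).const_mul _).const_mul _]
  refine Finset.sum_congr rfl fun q _ => ?_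
  rw [integral_const_mul, integral_const_mul]
  simp [Matrix.of_apply]

lemma form_symm (ω : ℝ → ℝ) (φ : κ → ℝ → ℝ)
    (h : ∀ p q, Integrable fun x => ω x * (φ p x * φ q x)) (c c' : κ → ℝ) :
    form ω φ c c' = form ω φ c' c := by
  rw [form_apply ω φ h, form_apply ω φ h]
  congr 1
  funext x
  ring

omit [DecidableEq κ] in
lemma comb_sobolev (g h : κ → ℝ → ℝ)
    (hS : ∀ p, IsSobolev (fun x => (g p x : ℂ)) (fun x => (h p x : ℂ))) (c : κ → ℝ) :
    IsSobolev (fun x => (comb g c x : ℂ)) (fun x => (comb h c x : ℂ)) := by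
  have e1 : ∀ (φ : κ → ℝ → ℝ) x, ((comb φ c x : ℝ) : ℂ) = ∑ p, (c p : ℂ) * (φ p x : ℂ) := by
    intro φ x
    rw [comb]
    push_cast
    rfl
  simp only [e1]
  refine ⟨memLp_finsetSum _ fun p _ => (hS p).memLp.const_mul _,
    memLp_finsetSum _ fun p _ => (hS p).memLp_deriv.const_mul _, fun a b => ?_⟩
  rw [intervalIntegral.integral_finsetSum fun p _ => ((hS p).intervalIntegrable a b).const_mul _,
    ← Finset.sum_sub_distrib]
  refine Finset.sum_congr rfl fun p _ => ?_
  rw [intervalIntegral.integral_const_mul, ← (hS p).integral_deriv]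
  ring

omit [Fintype κ] [DecidableEq κ] in
lemma real_memLp {f : ℝ → ℝ} (hf : MemLp (fun x => (f x : ℂ)) 2) : MemLp f 2 := by
  have := hf.re
  simpa using this

omit [Fintype κ] [DecidableEq κ] in
lemma norm_ofReal_sq (t : ℝ) : ‖(t : ℂ)‖ ^ 2 = t ^ 2 := by
  rw [Complex.norm_real, Real.norm_eq_abs, sq_abs]

/-- A single function. -/
lemma one_bound (u v : ℝ → ℝ) (hs : IsSobolev (fun x => (u x : ℂ)) (fun x => (v x : ℂ)))
    (Wt : ℝ → ℝ) (hW : MemLp Wt (3 / 2)) (hW0 : ∀ x, 0 ≤ Wt x) :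
    ∫ x, Wt x * u x ^ 2 ≤ (∫ x, v x ^ 2) +
      (L11 * ∫ x, Wt x ^ ((3:ℝ) / 2)) * ∫ x, u x ^ 2 := by
  by_cases h0 : (fun x => (u x : ℂ)) = 0
  · have hu : ∀ x, u x = 0 := fun x => by
      have := congrFun h0 x
      simpa using this
    simp only [hu]
    have : 0 ≤ ∫ x, v x ^ 2 := integral_nonneg fun x => sq_nonneg _
    simpa using this
  have hm := hs.integral_pos h0
  simp only [norm_ofReal_sq] at hm
  set m : ℝ := ∫ x, u x ^ 2 with hmdef
  set c : ℂ := (((√m)⁻¹ : ℝ) : ℂ) with hc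
  have hs' := hs.const_mul c
  have hcn : ‖c‖ ^ 2 = m⁻¹ := by
    rw [hc, Complex.norm_real, Real.norm_eq_abs, sq_abs, inv_pow, Real.sq_sqrt hm.le]
  have ho : ∀ n k : Fin 1, ∫ x, star (c * (u x : ℂ)) * (c * (u x : ℂ)) =
      if n = k then (1:ℂ) else 0 := by
    intro n k
    rw [if_pos (Subsingleton.elim _ _)]
    simp only [star_mul_self_eq]
    rw [integral_complex_ofReal]
    simp only [norm_mul, mul_pow, hcn, norm_ofReal_sq]
    rw [integral_const_mul, ← hmdef, inv_mul_cancel₀ hm.ne', Complex.ofReal_one]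
  have hfam := family_bound (fun _ : Fin 1 => fun x => c * (u x : ℂ))
    (fun _ : Fin 1 => fun x => c * (v x : ℂ)) (fun _ => hs') ho (fun x => -Wt x) hW.neg
  have h1 : ∀ x, max (- -Wt x) 0 = Wt x := fun x => by
    rw [neg_neg]; exact max_eq_left (hW0 x)
  simp only [h1, norm_mul, mul_pow, hcn, norm_ofReal_sq, Finset.univ_unique, Finset.sum_const,
    Finset.card_singleton, one_smul] at hfam
  rw [integral_const_mul] at hfam
  have h2 : (∫ x, -Wt x * (m⁻¹ * u x ^ 2)) = -(m⁻¹ * ∫ x, Wt x * u x ^ 2) := by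
    rw [← integral_const_mul, ← integral_neg]
    congr 1
    funext x
    ring
  rw [h2] at hfam
  set Λ : ℝ := L11 * ∫ x, Wt x ^ ((3:ℝ) / 2) with hΛ
  have h3 : m⁻¹ * ((∫ x, Wt x * u x ^ 2) - ∫ x, v x ^ 2) ≤ Λ := by linarith
  have h4 : (∫ x, Wt x * u x ^ 2) - ∫ x, v x ^ 2 ≤ Λ * m := by
    rw [inv_mul_le_iff₀ hm] at h3
    linarith
  linarith

lemma L11_pos : 0 < L11 := by
  rw [L11]
  have := pi_pos
  positivity

omit [DecidableEq κ] in
lemma exists_sub_finrank (M : Submodule ℝ (κ → ℝ)) (k : ℕ) (hk : k ≤ Module.finrank ℝ M) :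
    ∃ X : Submodule ℝ (κ → ℝ), X ≤ M ∧ Module.finrank ℝ X = k := by
  let b := Module.finBasis ℝ M
  let f : Fin k → (κ → ℝ) := fun i => (b (Fin.castLE hk i) : κ → ℝ)
  have hli : LinearIndependent ℝ f := by
    have h1 : LinearIndependent ℝ (fun i => (b i : κ → ℝ)) :=
      b.linearIndependent.map' M.subtype (by rw [Submodule.ker_subtype])
    exact h1.comp _ (Fin.castLE_injective hk)
  refine ⟨Submodule.span ℝ (Set.range f), ?_, ?_⟩
  · rw [Submodule.span_le]
    rintro _ ⟨i, rfl⟩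
    exact (b (Fin.castLE hk i)).2
  · rw [finrank_span_eq_card hli, Fintype.card_fin]

/-- The abstract partial wave bound. -/
theorem assembly {I : Type} (d : I → ℕ) (hfin : ∀ L, {i | d i ≤ L}.Finite)
    (hcard : ∀ L, {i | d i ≤ L}.ncard ≤ (L + 1) ^ 2) (n : ℕ) (g h : I → Fin n → ℝ → ℝ)
    (hS : ∀ i j, IsSobolev (fun x => (g i j x : ℂ)) (fun x => (h i j x : ℂ)))
    (Wt : ℝ → ℝ) (hW : MemLp Wt (3 / 2)) (hW0 : ∀ x, 0 ≤ Wt x) (P Q : (Fin n → ℝ) → ℝ)
    (hP : ∀ c (K : Finset I), ∑ i ∈ K, ((∫ x, (∑ j, c j * h i j x) ^ 2) +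
      ((d i : ℝ) + 1 / 2) ^ 2 * ∫ x, (∑ j, c j * g i j x) ^ 2) ≤ P c)
    (hQ : ∀ c, HasSum (fun i => ∫ x, Wt x * (∑ j, c j * g i j x) ^ 2) (Q c))
    (hneg : ∀ c, c ≠ 0 → P c < Q c) :
    (n : ℝ) ≤ 4 * (L11 * ∫ x, Wt x ^ ((3:ℝ) / 2)) := by
  classical
  set Λ : ℝ := L11 * ∫ x, Wt x ^ ((3:ℝ) / 2) with hΛ
  have hΛ0 : 0 ≤ Λ := mul_nonneg L11_pos.le
    (integral_nonneg fun x => Real.rpow_nonneg (hW0 x) _)
  obtain ⟨L, hL⟩ := exists_nat_ge Λ
  set K : Finset I := (hfin L).toFinset with hK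
  have hmemK : ∀ i, i ∈ K ↔ d i ≤ L := fun i => by rw [hK, Set.Finite.mem_toFinset]; rfl
  -- real L² membership
  have hgR : ∀ i j, MemLp (g i j) 2 := fun i j => real_memLp (hS i j).memLp
  have hhR : ∀ i j, MemLp (h i j) 2 := fun i j => real_memLp (hS i j).memLp_deriv
  have hgV : ∀ i j, Integrable (fun x => Wt x * g i j x ^ 2) := fun i j => by
    have := sob_V_integrable (hS i j) Wt hW
    simpa only [norm_ofReal_sq] using this
  have hgc : ∀ i j, Continuous (g i j) := fun i j => by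
    have := Complex.continuous_re.comp (hS i j).continuous
    simpa [Function.comp_def] using this
  -- the coefficient space
  let κ := K × Fin n
  let gg : κ → ℝ → ℝ := fun p => g p.1 p.2
  let hh : κ → ℝ → ℝ := fun p => h p.1 p.2
  have hA1 : ∀ p q : κ, Integrable fun x => (fun _ : ℝ => (1:ℝ)) x * (gg p x * gg q x) := by
    intro p q
    simp only [one_mul]
    exact (hgR _ _).integrable_mul (hgR _ _)
  have hD1 : ∀ p q : κ, Integrable fun x => (fun _ : ℝ => (1:ℝ)) x * (hh p x * hh q x) := by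
    intro p q
    simp only [one_mul]
    exact (hhR _ _).integrable_mul (hhR _ _)
  have hV1 : ∀ p q : κ, Integrable fun x => Wt x * (gg p x * gg q x) := by
    intro p q
    have h1 : Integrable (fun x => (Wt x * gg p x ^ 2 + Wt x * gg q x ^ 2) / 2) :=
      ((hgV _ _).add (hgV _ _)).div_const 2
    refine h1.mono' (hW.1.mul ((hgc _ _).mul (hgc _ _)).aestronglyMeasurable)
      (Filter.Eventually.of_forall fun x => ?_)
    rw [Real.norm_eq_abs, abs_mul, abs_of_nonneg (hW0 x), abs_mul]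
    have h2 := hW0 x
    nlinarith [sq_nonneg (|gg p x| - |gg q x|), sq_abs (gg p x), sq_abs (gg q x),
      mul_nonneg h2 (sq_nonneg (|gg p x| - |gg q x|))]
  let A : (κ → ℝ) →ₗ[ℝ] (κ → ℝ) →ₗ[ℝ] ℝ := form (fun _ => 1) gg
  let D : (κ → ℝ) →ₗ[ℝ] (κ → ℝ) →ₗ[ℝ] ℝ := form (fun _ => 1) hh
  let V : (κ → ℝ) →ₗ[ℝ] (κ → ℝ) →ₗ[ℝ] ℝ := form Wt gg
  have hAe : ∀ c c', A c c' = ∫ x, comb gg c x * comb gg c' x := fun c c' => by
    have := form_apply _ _ hA1 c c'
    simpa only [one_mul] using this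
  have hDe : ∀ c c', D c c' = ∫ x, comb hh c x * comb hh c' x := fun c c' => by
    have := form_apply _ _ hD1 c c'
    simpa only [one_mul] using this
  have hVe : ∀ c c', V c c' = ∫ x, Wt x * (comb gg c x * comb gg c' x) := fun c c' =>
    form_apply _ _ hV1 c c'
  let B : ℕ → (κ → ℝ) →ₗ[ℝ] (κ → ℝ) →ₗ[ℝ] ℝ := fun l => D + (((l : ℝ) + 1 / 2) ^ 2) • A - V
  have hBe : ∀ l c c', B l c c' = D c c' + ((l : ℝ) + 1 / 2) ^ 2 * A c c' - V c c' := by
    intro l c c'
    simp [B]
  have hBs : ∀ l c c', B l c c' = B l c' c := by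
    intro l c c'
    rw [hBe, hBe, form_symm _ _ hD1 c c', form_symm _ _ hA1 c c', form_symm _ _ hV1 c c']
  -- maximal negative subspaces
  choose M hMneg hMorth using fun l => exists_max_negative (B l) (hBs l)
  -- the coefficient maps
  let G : I → (Fin n → ℝ) →ₗ[ℝ] (κ → ℝ) := fun i =>
    { toFun := fun c p => if (p.1 : I) = i then c p.2 else 0
      map_add' := fun c c' => by
        funext p
        by_cases hp : (p.1 : I) = i <;> simp [hp]
      map_smul' := fun t c => by
        funext p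
        by_cases hp : (p.1 : I) = i <;> simp [hp] }
  have hG : ∀ (φ : I → Fin n → ℝ → ℝ) (i : I), i ∈ K → ∀ c x,
      comb (fun p : κ => φ p.1 p.2) (G i c) x = ∑ j, c j * φ i j x := by
    intro φ i hi c x
    rw [comb, Fintype.sum_prod_type]
    rw [Finset.sum_eq_single (⟨i, hi⟩ : K)]
    · refine Finset.sum_congr rfl fun j _ => ?_
      simp [G]
    · intro b _ hb
      refine Finset.sum_eq_zero fun j _ => ?_
      have : (b : I) ≠ i := fun hbi => hb (Subtype.ext hbi)
      simp [G, this]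
    · intro hnot
      exact absurd (Finset.mem_univ _) hnot
  -- the number of functions is at most the number of bound states
  have hcount : n ≤ ∑ i ∈ K, Module.finrank ℝ (M (d i)) := by
    by_contra hlt
    push Not at hlt
    obtain ⟨c, hc0, hc⟩ := exists_common_orthogonal K d n B M G hlt
    have hterm : ∀ i, ∫ x, Wt x * (∑ j, c j * g i j x) ^ 2 ≤
        (∫ x, (∑ j, c j * h i j x) ^ 2) +
        ((d i : ℝ) + 1 / 2) ^ 2 * ∫ x, (∑ j, c j * g i j x) ^ 2 := by
      intro i
      by_cases hi : i ∈ K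
      · have h1 := hMorth (d i) (G i c) (hc i hi)
        rw [hBe, hDe, hAe, hVe] at h1
        have e1 : ∀ x, comb gg (G i c) x = ∑ j, c j * g i j x := fun x => hG g i hi c x
        have e2 : ∀ x, comb hh (G i c) x = ∑ j, c j * h i j x := fun x => hG h i hi c x
        simp only [e1, e2, ← sq] at h1
        linarith
      · have hdi : L < d i := by
          by_contra hle
          exact hi ((hmemK i).2 (not_lt.1 hle))
        have hsob : IsSobolev (fun x => ((∑ j, c j * g i j x : ℝ) : ℂ))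
            (fun x => ((∑ j, c j * h i j x : ℝ) : ℂ)) :=
          comb_sobolev (fun j => g i j) (fun j => h i j) (fun j => hS i j) c
        have h1 := one_bound (fun x => ∑ j, c j * g i j x) (fun x => ∑ j, c j * h i j x) hsob
          Wt hW hW0
        have h2 : 0 ≤ ∫ x, (∑ j, c j * g i j x) ^ 2 := integral_nonneg fun x => sq_nonneg _
        have h3 : Λ ≤ ((d i : ℝ) + 1 / 2) ^ 2 := by
          have h4 : (L : ℝ) < d i := by exact_mod_cast hdi
          have h5 : (0:ℝ) ≤ L := Nat.cast_nonneg _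
          have h6 : (1:ℝ) ≤ d i := by
            have : 1 ≤ d i := by omega
            exact_mod_cast this
          nlinarith
        have h4 := mul_le_mul_of_nonneg_right h3 h2
        linarith
    have h1 : Q c ≤ P c := hasSum_le_of_sum_le (hQ c) fun s =>
      (Finset.sum_le_sum fun i _ => hterm i).trans (hP c s)
    exact absurd (hneg c hc0) (not_lt.2 h1)
  -- counting
  obtain ⟨J, lmax, hJ, hsumJ⟩ := counting d hfin hcard L (fun l => Module.finrank ℝ (M l))
  have hn : (n : ℝ) ≤ ∑ m ∈ J, ((lmax m : ℝ) + 1) ^ 2 := by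
    have : n ≤ ∑ m ∈ J, (lmax m + 1) ^ 2 := hcount.trans hsumJ
    exact_mod_cast this
  -- orthonormal selection
  have hsub : ∀ m ∈ J, ∃ X : Submodule ℝ (κ → ℝ), X ≤ M (lmax m) ∧ Module.finrank ℝ X = m + 1 := by
    intro m hm
    exact exists_sub_finrank (M (lmax m)) (m + 1) (Nat.succ_le_of_lt (hJ m hm).2)
  choose! X hXM hXf using hsub
  have hDnn : ∀ c, 0 ≤ D c c := fun c => by
    rw [hDe]; exact integral_nonneg fun x => mul_self_nonneg _
  have hAnn : ∀ c, 0 ≤ A c c := fun c => by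
    rw [hAe]; exact integral_nonneg fun x => mul_self_nonneg _
  have hApos : ∀ c, A c c = 0 → V c c = 0 := by
    intro c hc
    rw [hAe] at hc
    have hcc : Continuous (fun x => comb gg c x * comb gg c x) := by
      have : Continuous (comb gg c) := by
        have h1 := Complex.continuous_re.comp (comb_sobolev gg hh (fun p => hS _ _) c).continuous
        simpa [Function.comp_def] using h1
      exact this.mul this
    have hint : Integrable (fun x => comb gg c x * comb gg c x) := by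
      have h1 := real_memLp (comb_sobolev gg hh (fun p => hS _ _) c).memLp
      exact h1.integrable_mul h1
    have h2 := (integral_eq_zero_iff_of_nonneg (fun x => mul_self_nonneg _) hint).1 hc
    have h3 : (fun x => comb gg c x * comb gg c x) = 0 :=
      Continuous.ae_eq_iff_eq volume hcc continuous_const |>.1 h2
    rw [hVe]
    have h4 : ∀ x, Wt x * (comb gg c x * comb gg c x) = 0 := fun x => by
      have := congrFun h3 x
      simp only [Pi.zero_apply] at this
      rw [this, mul_zero]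
    simp only [h4, integral_zero]
  obtain ⟨e, heX, heo⟩ := exists_orthonormal_real A (form_symm _ _ hA1) J X hXf (by
    intro m hm x hx hx0
    have h1 := hMneg (lmax m) x (hXM m hm hx) hx0
    rw [hBe] at h1
    rcases (hAnn x).eq_or_lt with h2 | h2
    · rw [← h2, hApos x h2.symm] at h1
      have := hDnn x
      linarith
    · exact h2)
  -- the family bound
  set eq := J.equivFin with heq
  have hfam := family_bound (fun i : Fin J.card => fun x => (comb gg (e (eq.symm i)) x : ℂ))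
    (fun i => fun x => (comb hh (e (eq.symm i)) x : ℂ))
    (fun i => comb_sobolev gg hh (fun p => hS _ _) _) (by
      intro i j
      have h1 : ∀ x, star (comb gg (e (eq.symm i)) x : ℂ) * (comb gg (e (eq.symm j)) x : ℂ) =
          ((comb gg (e (eq.symm i)) x * comb gg (e (eq.symm j)) x : ℝ) : ℂ) := by
        intro x
        rw [Complex.star_def, Complex.conj_ofReal, Complex.ofReal_mul]
      simp only [h1]
      rw [integral_complex_ofReal, ← hAe, heo _ (eq.symm i).2 _ (eq.symm j).2]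
      simp only [Subtype.val_inj, EmbeddingLike.apply_eq_iff_eq]
      by_cases hij : i = j <;> simp [hij]) (fun x => -Wt x) hW.neg
  have h1 : ∀ x, max (- -Wt x) 0 = Wt x := fun x => by
    rw [neg_neg]; exact max_eq_left (hW0 x)
  simp only [h1, norm_ofReal_sq] at hfam
  have h2 : ∀ m ∈ J, ((lmax m : ℝ) + 1 / 2) ^ 2 ≤ V (e m) (e m) - D (e m) (e m) := by
    intro m hm
    by_cases h0 : e m = 0
    · have := heo m hm m hm
      rw [if_pos rfl, h0] at this
      simp at this
    · have h3 := hMneg (lmax m) (e m) (hXM m hm (heX m hm)) h0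
      rw [hBe, heo m hm m hm, if_pos rfl] at h3
      linarith
  have h3 : ∑ i : Fin J.card, ((∫ x, comb hh (e (eq.symm i)) x ^ 2) +
      ∫ x, -Wt x * comb gg (e (eq.symm i)) x ^ 2) =
      ∑ m ∈ J, (D (e m) (e m) - V (e m) (e m)) := by
    rw [← Finset.sum_coe_sort J]
    rw [← Equiv.sum_comp eq.symm (fun m : J => D (e m) (e m) - V (e m) (e m))]
    refine Finset.sum_congr rfl fun i _ => ?_
    rw [hDe, hVe, sub_eq_add_neg, ← integral_neg]
    congr 2
    · funext x; rw [sq]
    · funext x; ring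
  rw [h3] at hfam
  have h4 : ∑ m ∈ J, ((lmax m : ℝ) + 1 / 2) ^ 2 ≤ Λ := by
    have h5 := Finset.sum_le_sum h2
    have h6 : ∑ m ∈ J, (V (e m) (e m) - D (e m) (e m)) =
        -∑ m ∈ J, (D (e m) (e m) - V (e m) (e m)) := by
      rw [← Finset.sum_neg_distrib]
      exact Finset.sum_congr rfl fun m _ => by ring
    rw [h6] at h5
    exact h5.trans hfam
  have h5 : ∑ m ∈ J, ((lmax m : ℝ) + 1) ^ 2 ≤ 4 * ∑ m ∈ J, ((lmax m : ℝ) + 1 / 2) ^ 2 := by
    rw [Finset.mul_sum]
    refine Finset.sum_le_sum fun m _ => ?_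
    have : (0:ℝ) ≤ lmax m := Nat.cast_nonneg _
    nlinarith
  linarith

end

end Pool.Helper490.SH
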