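import Pool.Agent.Helper490.SH.Defs

set_option autoImplicit false

open MeasureTheory Set Metric Real MvPolynomial

namespace Pool.Helper490.SH

noncomputable section


theorem br_int (f : S2 → ℝ) (hf : Continuous f) : Integrable f sig :=
  hf.integrable_of_hasCompactSupport (HasCompactSupport.of_compactSpace _)

theorem br_bes {ι : Type} [Fintype ι] (K : Finset ℕ) (lam c : ℕ → ℝ) (G : ℕ → S2 → ι → ℝ)
    (hG : ∀ i ∈ K, Continuous (G i))
    (h2 : ∀ i ∈ K, ∀ j ∈ K, ∫ w, ∑ k, G i w k * G j w k ∂sig = if i = j then lam i else 0)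
    (F : S2 → ι → ℝ) (hF : Continuous F)
    (h1 : ∀ i ∈ K, ∫ w, ∑ k, F w k * G i w k ∂sig = lam i * c i) :
    ∑ i ∈ K, lam i * c i ^ 2 ≤ ∫ w, ∑ k, F w k * F w k ∂sig := by
  induction K using Finset.induction_on generalizing F with
  | empty =>
    rw [Finset.sum_empty]
    exact integral_nonneg fun w => Finset.sum_nonneg fun k _ => mul_self_nonneg _
  | insert i0 K hi0 ih =>
    have hc : ∀ A B : S2 → ι → ℝ, Continuous A → Continuous B →
        Integrable (fun w => ∑ k, A w k * B w k) sig := fun A B hA hB =>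
      br_int _ (continuous_finsetSum _ fun k _ =>
        ((continuous_apply k).comp hA).mul ((continuous_apply k).comp hB))
    have hm : i0 ∈ insert i0 K := Finset.mem_insert_self _ _
    have hG0 := hG i0 hm
    obtain ⟨F', hF'⟩ : ∃ F' : S2 → ι → ℝ, F' = fun w k => F w k - c i0 * G i0 w k := ⟨_, rfl⟩
    have hF'c : Continuous F' := by
      rw [hF']
      exact continuous_pi fun k => ((continuous_apply k).comp hF).sub
        (continuous_const.mul ((continuous_apply k).comp hG0))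
    have e1 : ∀ B : S2 → ι → ℝ, Continuous B → ∫ w, ∑ k, F' w k * B w k ∂sig =
        ∫ w, ∑ k, F w k * B w k ∂sig - c i0 * ∫ w, ∑ k, G i0 w k * B w k ∂sig := by
      intro B hB
      rw [← integral_const_mul, ← integral_sub (hc _ _ hF hB) ((hc _ _ hG0 hB).const_mul _)]
      congr 1
      funext w
      rw [Finset.mul_sum, ← Finset.sum_sub_distrib]
      refine Finset.sum_congr rfl fun k _ => ?_
      rw [hF']
      ring
    have hsymm : ∀ A B : S2 → ι → ℝ, ∫ w, ∑ k, A w k * B w k ∂sig = ∫ w, ∑ k, B w k * A w k ∂sig := by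
      intro A B
      congr 1
      funext w
      exact Finset.sum_congr rfl fun k _ => mul_comm _ _
    have h3 := ih (fun i hi => hG i (Finset.mem_insert_of_mem hi))
      (fun i hi j hj => h2 i (Finset.mem_insert_of_mem hi) j (Finset.mem_insert_of_mem hj)) F' hF'c
      (fun i hi => by
        have hne : i0 ≠ i := fun h => hi0 (h ▸ hi)
        rw [e1 _ (hG i (Finset.mem_insert_of_mem hi)), h1 i (Finset.mem_insert_of_mem hi),
          h2 i0 hm i (Finset.mem_insert_of_mem hi), if_neg hne]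
        ring)
    have h4 : ∫ w, ∑ k, F' w k * F' w k ∂sig =
        ∫ w, ∑ k, F w k * F w k ∂sig - lam i0 * c i0 ^ 2 := by
      rw [e1 F' hF'c, hsymm F F', e1 F hF, hsymm (G i0) F', e1 (G i0) hG0, hsymm (G i0) F,
        h1 i0 hm, h2 i0 hm i0 hm, if_pos rfl]
      ring
    rw [Finset.sum_insert hi0]
    linarith

theorem br_lin (L : E →L[ℝ] ℝ) (x : E) : L x = x 0 * L (EuclideanSpace.single 0 1) +
    x 1 * L (EuclideanSpace.single 1 1) + x 2 * L (EuclideanSpace.single 2 1) := by
  have h : x = x 0 • EuclideanSpace.single (0 : Fin 3) (1:ℝ) +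
      x 1 • EuclideanSpace.single (1 : Fin 3) (1:ℝ) +
      x 2 • EuclideanSpace.single (2 : Fin 3) (1:ℝ) := by
    ext i
    fin_cases i <;> simp
  conv_lhs => rw [h]
  rw [map_add, map_add, map_smul, map_smul, map_smul]
  rfl

theorem br_norm (L : E →L[ℝ] ℝ) : L (EuclideanSpace.single 0 1) ^ 2 +
    L (EuclideanSpace.single 1 1) ^ 2 + L (EuclideanSpace.single 2 1) ^ 2 ≤ ‖L‖ ^ 2 := by
  obtain ⟨q, hq⟩ : ∃ q : E, q = WithLp.toLp 2 ![L (EuclideanSpace.single 0 1),
    L (EuclideanSpace.single 1 1), L (EuclideanSpace.single 2 1)] := ⟨_, rfl⟩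
  have h0 : q 0 = L (EuclideanSpace.single 0 1) := by rw [hq]; rfl
  have h1 : q 1 = L (EuclideanSpace.single 1 1) := by rw [hq]; rfl
  have h2 : q 2 = L (EuclideanSpace.single 2 1) := by rw [hq]; rfl
  have h3 := br_lin L q
  have h4 : ‖q‖ ^ 2 = q 0 ^ 2 + q 1 ^ 2 + q 2 ^ 2 := by
    rw [EuclideanSpace.real_norm_sq_eq, Fin.sum_univ_three]
  have h5 := (le_abs_self _).trans (L.le_opNorm q)
  rw [← h0, ← h1, ← h2] at h3 ⊢
  have h6 : L q = ‖q‖ ^ 2 := by rw [h3, h4]; ring
  rw [h6] at h5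
  rw [← h4]
  rcases (norm_nonneg q).eq_or_lt with h | h
  · rw [← h, zero_pow two_ne_zero]
    positivity
  · have h7 : ‖q‖ ≤ ‖L‖ := by
      by_contra hcon
      push Not at hcon
      nlinarith
    exact pow_le_pow_left₀ (norm_nonneg q) h7 2

theorem br_LF (u : E → ℝ) (hu : ContDiff ℝ 1 u) (r : ℝ) (a b : Fin 3) (x : E) :
    LF a b (fun x => u (r • x)) x = r * (x a * fderiv ℝ u (r • x) (EuclideanSpace.single b 1) -
      x b * fderiv ℝ u (r • x) (EuclideanSpace.single a 1)) := by
  have h1 : HasFDerivAt (fun x : E => u (r • x))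
      ((fderiv ℝ u (r • x)).comp (r • ContinuousLinearMap.id ℝ E)) x :=
    ((hu.differentiable (by norm_num) (r • x)).hasFDerivAt).comp x ((hasFDerivAt_id x).const_smul r)
  unfold LF
  rw [h1.fderiv]
  simp only [ContinuousLinearMap.comp_apply, ContinuousLinearMap.smul_apply,
    ContinuousLinearMap.id_apply, map_smul, smul_eq_mul]
  ring

theorem br_LFc (v : E → ℝ) (hv : ContDiff ℝ 1 v) (a b : Fin 3) :
    Continuous (fun w : S2 => LF a b v (w : E)) := by
  unfold LF
  have h1 : Continuous (fun x : E => fderiv ℝ v x) := hv.continuous_fderiv (by norm_num)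
  have h2 : Continuous (fun w : S2 => fderiv ℝ v (w : E)) := h1.comp continuous_subtype_val
  have h3 : ∀ c : Fin 3, Continuous (fun w : S2 => (w : E) c) := fun c => by fun_prop
  exact ((h3 a).mul (h2.clm_apply continuous_const)).sub ((h3 b).mul (h2.clm_apply continuous_const))

/-- Radial and angular Bessel inequality on the sphere of radius `r`. -/
theorem bessel_r (u : E → ℝ) (hu : ContDiff ℝ 1 u) (Y : ℕ → E → ℝ) (lam : ℕ → ℝ) (K : Finset ℕ)
    (hY : ∀ i ∈ K, ContDiff ℝ 1 (Y i))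
    (horth : ∀ i ∈ K, ∀ j ∈ K, ∫ w : S2, Y i (w : E) * Y j (w : E) ∂sig = if i = j then 1 else 0)
    (hgreen : ∀ i ∈ K, ∀ v : E → ℝ, ContDiff ℝ 1 v →
        ∫ w : S2, (LF 0 1 v (w : E) * LF 0 1 (Y i) (w : E) +
          LF 0 2 v (w : E) * LF 0 2 (Y i) (w : E) +
          LF 1 2 v (w : E) * LF 1 2 (Y i) (w : E)) ∂sig =
        lam i * ∫ w : S2, v (w : E) * Y i (w : E) ∂sig) (r : ℝ) :
    ∑ i ∈ K, (r ^ 2 * (∫ w : S2, fderiv ℝ u (r • (w : E)) (w : E) * Y i (w : E) ∂sig) ^ 2 +
        lam i * (∫ w : S2, u (r • (w : E)) * Y i (w : E) ∂sig) ^ 2) ≤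
      r ^ 2 * ∫ w : S2, ‖fderiv ℝ u (r • (w : E))‖ ^ 2 ∂sig := by
  have hYc : ∀ i ∈ K, Continuous (fun w : S2 => Y i (w : E)) := fun i hi =>
    (hY i hi).continuous.comp continuous_subtype_val
  have hsm : Continuous (fun w : S2 => r • (w : E)) := continuous_subtype_val.const_smul r
  have hfd : Continuous (fun w : S2 => fderiv ℝ u (r • (w : E))) :=
    (hu.continuous_fderiv (by norm_num)).comp hsm
  have hfc : Continuous (fun w : S2 => fderiv ℝ u (r • (w : E)) (w : E)) :=
    hfd.clm_apply continuous_subtype_val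
  have hv : ContDiff ℝ 1 (fun x : E => u (r • x)) := hu.comp (contDiff_const_smul r)
  -- radial part
  have hrad := br_bes (ι := Unit) K (fun _ => 1)
    (fun i => ∫ w : S2, fderiv ℝ u (r • (w : E)) (w : E) * Y i (w : E) ∂sig)
    (fun i w _ => Y i (w : E)) (fun i hi => continuous_pi fun _ => hYc i hi)
    (fun i hi j hj => by simpa using horth i hi j hj)
    (fun w _ => fderiv ℝ u (r • (w : E)) (w : E)) (continuous_pi fun _ => hfc)
    (fun i hi => by simp)
  simp only [one_mul, Finset.univ_unique, Finset.sum_const, Finset.card_singleton, one_smul] at hrad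
  -- angular part
  have hang := br_bes (ι := Fin 3) K lam
    (fun i => ∫ w : S2, u (r • (w : E)) * Y i (w : E) ∂sig)
    (fun i w => ![LF 0 1 (Y i) (w : E), LF 0 2 (Y i) (w : E), LF 1 2 (Y i) (w : E)])
    (fun i hi => by
      refine continuous_pi fun k => ?_
      fin_cases k
      · exact br_LFc _ (hY i hi) 0 1
      · exact br_LFc _ (hY i hi) 0 2
      · exact br_LFc _ (hY i hi) 1 2)
    (fun i hi j hj => by
      have h1 := hgreen j hj (Y i) (hY i hi)
      rw [horth i hi j hj] at h1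
      simp only [Fin.sum_univ_three, Matrix.cons_val_zero, Matrix.cons_val_one, Matrix.cons_val]
      rw [h1]
      by_cases h : i = j
      · rw [if_pos h, if_pos h, h, mul_one]
      · rw [if_neg h, if_neg h, mul_zero])
    (fun w => ![LF 0 1 (fun x => u (r • x)) (w : E), LF 0 2 (fun x => u (r • x)) (w : E),
      LF 1 2 (fun x => u (r • x)) (w : E)])
    (by
      refine continuous_pi fun k => ?_
      fin_cases k
      · exact br_LFc _ hv 0 1
      · exact br_LFc _ hv 0 2
      · exact br_LFc _ hv 1 2)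
    (fun i hi => by
      simp only [Fin.sum_univ_three, Matrix.cons_val_zero, Matrix.cons_val_one, Matrix.cons_val]
      exact hgreen i hi _ hv)
  simp only [Fin.sum_univ_three, Matrix.cons_val_zero, Matrix.cons_val_one, Matrix.cons_val] at hang
  rw [Finset.sum_add_distrib, ← Finset.mul_sum]
  have hI1 : Integrable (fun w : S2 => fderiv ℝ u (r • (w : E)) (w : E) *
      fderiv ℝ u (r • (w : E)) (w : E)) sig := br_int _ (hfc.mul hfc)
  have hI2 : Integrable (fun w : S2 =>
      LF 0 1 (fun x => u (r • x)) (w : E) * LF 0 1 (fun x => u (r • x)) (w : E) +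
      LF 0 2 (fun x => u (r • x)) (w : E) * LF 0 2 (fun x => u (r • x)) (w : E) +
      LF 1 2 (fun x => u (r • x)) (w : E) * LF 1 2 (fun x => u (r • x)) (w : E)) sig :=
    br_int _ ((((br_LFc _ hv 0 1).mul (br_LFc _ hv 0 1)).add
      ((br_LFc _ hv 0 2).mul (br_LFc _ hv 0 2))).add ((br_LFc _ hv 1 2).mul (br_LFc _ hv 1 2)))
  have hI3 : Integrable (fun w : S2 => ‖fderiv ℝ u (r • (w : E))‖ ^ 2) sig :=
    br_int _ (hfd.norm.pow 2)
  refine (add_le_add (mul_le_mul_of_nonneg_left hrad (sq_nonneg r)) hang).trans ?_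
  rw [← integral_const_mul, ← integral_const_mul, ← integral_add (hI1.const_mul _) hI2]
  refine integral_mono ((hI1.const_mul _).add hI2) (hI3.const_mul _) fun w => ?_
  have hw : (w : E) 0 ^ 2 + (w : E) 1 ^ 2 + (w : E) 2 ^ 2 = 1 := by
    have h1 : ‖(w : E)‖ = 1 := mem_sphere_zero_iff_norm.mp w.2
    have h2 := EuclideanSpace.real_norm_sq_eq (w : E)
    rw [h1, Fin.sum_univ_three] at h2
    linarith
  simp only [br_LF u hu r]
  have hL := br_norm (fderiv ℝ u (r • (w : E)))
  rw [br_lin (fderiv ℝ u (r • (w : E))) (w : E)]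
  generalize (fderiv ℝ u (r • (w : E))) (EuclideanSpace.single 0 1) = p0 at hL ⊢
  generalize (fderiv ℝ u (r • (w : E))) (EuclideanSpace.single 1 1) = p1 at hL ⊢
  generalize (fderiv ℝ u (r • (w : E))) (EuclideanSpace.single 2 1) = p2 at hL ⊢
  generalize (w : E) 0 = x at hw ⊢
  generalize (w : E) 1 = y at hw ⊢
  generalize (w : E) 2 = z at hw ⊢
  refine le_trans (le_of_eq ?_) (mul_le_mul_of_nonneg_left hL (sq_nonneg r))
  linear_combination r ^ 2 * (p0 ^ 2 + p1 ^ 2 + p2 ^ 2) * hw

end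

end Pool.Helper490.SH
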