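import Mathlib

set_option autoImplicit false

open MeasureTheory Set Metric Real MvPolynomial

namespace Pool.Helper490.SH

noncomputable section

/-- The three dimensional Euclidean space. -/
abbrev E := EuclideanSpace ℝ (Fin 3)

/-- Its unit sphere. -/
abbrev S2 := sphere (0 : E) 1

/-- The rotation invariant measure on the unit sphere of `E`, of total mass `4 π`. -/
def sig : Measure S2 := (volume : Measure E).toSphere

instance : IsFiniteMeasure sig := by unfold sig; infer_instance

/-- Evaluation of a polynomial at a point. -/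
def ev (P : MvPolynomial (Fin 3) ℝ) (x : E) : ℝ := MvPolynomial.eval (fun i => x i) P

/-- The rotation generator `x_a ∂_b - x_b ∂_a` on polynomials. -/
def LP (a b : Fin 3) (P : MvPolynomial (Fin 3) ℝ) : MvPolynomial (Fin 3) ℝ :=
  X a * pderiv b P - X b * pderiv a P

/-- The rotation generator `x_a ∂_b - x_b ∂_a` on functions. -/
def LF (a b : Fin 3) (f : E → ℝ) (x : E) : ℝ :=
  x a * fderiv ℝ f x (EuclideanSpace.single b 1) - x b * fderiv ℝ f x (EuclideanSpace.single a 1)

/-- Minus the Laplace operator of the sphere, on polynomials. -/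
def Lam (P : MvPolynomial (Fin 3) ℝ) : MvPolynomial (Fin 3) ℝ :=
  -(LP 0 1 (LP 0 1 P) + LP 0 2 (LP 0 2 P) + LP 1 2 (LP 1 2 P))

/-- An enumeration of the monomials `x^p y^q z^s`, `s ≤ 1`, by degree. -/
def mon (k : ℕ) : MvPolynomial (Fin 3) ℝ :=
  let l := Nat.sqrt k
  let r := k - l * l
  if r ≤ l then X 0 ^ r * X 1 ^ (l - r) else X 2 * X 0 ^ (r - l - 1) * X 1 ^ (2 * l - r)

end

end Pool.Helper490.SH
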