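import Pool.Agent.Helper490.SH.Defs

set_option autoImplicit false

open MeasureTheory Set Metric Real MvPolynomial

namespace Pool.Helper490.SH

noncomputable section


/-- coordinate functions as continuous functions on the sphere -/
def swCoord (i : Fin 3) : C(S2, ℝ) := ⟨fun w => (w : E) i, by fun_prop⟩

/-- polynomials as continuous functions on the sphere -/
def swHom : MvPolynomial (Fin 3) ℝ →ₐ[ℝ] C(S2, ℝ) := MvPolynomial.aeval swCoord

theorem swHom_apply (P : MvPolynomial (Fin 3) ℝ) (w : S2) : swHom P w = ev P (w : E) := by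
  unfold ev
  induction P using MvPolynomial.induction_on with
  | C a =>
    rw [swHom, MvPolynomial.aeval_C, MvPolynomial.eval_C]
    rfl
  | add p q hp hq =>
    rw [map_add, map_add, ContinuousMap.add_apply, hp, hq]
  | mul_X p i hp =>
    rw [map_mul, map_mul, ContinuousMap.mul_apply, hp, swHom, MvPolynomial.aeval_X,
      MvPolynomial.eval_X]
    rfl

/-- Polynomials are dense in `L²` of the sphere: a continuous function orthogonal up to `ε` ... in the form:
every continuous function is uniformly approximated by polynomials. -/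
theorem exists_poly_near (f : E → ℝ) (hf : Continuous f) (ε : ℝ) (hε : 0 < ε) :
    ∃ P : MvPolynomial (Fin 3) ℝ, ∀ w : S2, |f (w : E) - ev P (w : E)| < ε := by
  have hsep : (AlgHom.range swHom).SeparatesPoints := by
    intro w w' hne
    have h1 : ∃ i : Fin 3, (w : E) i ≠ (w' : E) i := by
      by_contra hcon
      push Not at hcon
      apply hne
      apply Subtype.ext
      exact PiLp.ext hcon
    obtain ⟨i, hi⟩ := h1
    refine ⟨swHom (MvPolynomial.X i), ⟨swHom (MvPolynomial.X i), ⟨MvPolynomial.X i, rfl⟩, rfl⟩, ?_⟩
    rw [swHom_apply, swHom_apply]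
    unfold ev
    rw [MvPolynomial.eval_X, MvPolynomial.eval_X]
    exact hi
  have : CompactSpace S2 := inferInstance
  obtain ⟨⟨g, P, hP⟩, hg⟩ := ContinuousMap.exists_mem_subalgebra_near_continuous_of_separatesPoints
    (AlgHom.range swHom) hsep (fun w : S2 => f (w : E)) (hf.comp continuous_subtype_val) ε hε
  refine ⟨P, fun w => ?_⟩
  have h2 := hg w
  have h3 : g w = ev P (w : E) := by
    rw [← swHom_apply, ← hP]
    rfl
  simp only at h2
  rw [h3, Real.norm_eq_abs, abs_sub_comm] at h2
  exact h2

theorem continuous_ev (P : MvPolynomial (Fin 3) ℝ) : Continuous (ev P) := by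
  unfold ev
  exact (MvPolynomial.continuous_eval P).comp (by fun_prop)

end

end Pool.Helper490.SH
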