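import Pool.Agent.Helper490.SH.Defs

set_option autoImplicit false

open MeasureTheory Set Metric Real MvPolynomial

namespace Pool.Helper490.SH

noncomputable section


/-- The change of variables `r = e^x`. -/
theorem integral_exp_subst (f : ℝ → ℝ) :
    ∫ x : ℝ, exp x * f (exp x) = ∫ r in Ioi (0:ℝ), f r := by
  have h := integral_image_eq_integral_abs_deriv_smul (s := (univ : Set ℝ)) (f := exp) (f' := exp)
    MeasurableSet.univ (fun x _ => (Real.hasDerivAt_exp x).hasDerivWithinAt)
    Real.exp_injective.injOn f
  rw [image_univ, Real.range_exp, Measure.restrict_univ] at h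
  rw [h]
  refine integral_congr_ae (Filter.Eventually.of_forall fun x => ?_)
  simp only [smul_eq_mul, abs_of_pos (exp_pos x)]

theorem integrable_exp_subst (f : ℝ → ℝ) :
    Integrable (fun x : ℝ => exp x * f (exp x)) ↔ IntegrableOn f (Ioi (0:ℝ)) := by
  have h := integrableOn_image_iff_integrableOn_abs_deriv_smul (s := (univ : Set ℝ)) (f := exp)
    (f' := exp) MeasurableSet.univ (fun x _ => (Real.hasDerivAt_exp x).hasDerivWithinAt)
    Real.exp_injective.injOn f
  rw [image_univ, Real.range_exp, integrableOn_univ] at h
  rw [h]
  refine integrable_congr (Filter.Eventually.of_forall fun x => ?_)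
  simp only [smul_eq_mul, abs_of_pos (exp_pos x)]

end

end Pool.Helper490.SH
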