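import Mathlib

set_option autoImplicit false

open MeasureTheory Real

namespace Pool.Helper490.SH


theorem extremal_aux_deriv (r : ℝ) :
    HasDerivAt (fun r : ℝ => arctan r / 8 + r / (8 * (1 + r ^ 2)) - r / (4 * (1 + r ^ 2) ^ 2))
      (r ^ 2 / (1 + r ^ 2) ^ 3) r := by
  have hp : (0 : ℝ) < 1 + r ^ 2 := by positivity
  have h1 : HasDerivAt (fun r : ℝ => arctan r / 8) (1 / (1 + r ^ 2) / 8) r :=
    (hasDerivAt_arctan r).div_const 8
  have h2 : HasDerivAt (fun r : ℝ => 1 + r ^ 2) (2 * r) r := by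
    have := ((hasDerivAt_id r).pow 2).const_add 1
    simpa using this
  have h3 : HasDerivAt (fun r : ℝ => r / (8 * (1 + r ^ 2)))
      ((1 * (8 * (1 + r ^ 2)) - r * (8 * (2 * r))) / (8 * (1 + r ^ 2)) ^ 2) r :=
    (hasDerivAt_id r).div (h2.const_mul 8) (by positivity)
  have h4 : HasDerivAt (fun r : ℝ => 4 * (1 + r ^ 2) ^ 2) (4 * (2 * (1 + r ^ 2) * (2 * r))) r := by
    have := (h2.pow 2).const_mul 4
    simpa using this
  have h5 : HasDerivAt (fun r : ℝ => r / (4 * (1 + r ^ 2) ^ 2))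
      ((1 * (4 * (1 + r ^ 2) ^ 2) - r * (4 * (2 * (1 + r ^ 2) * (2 * r)))) / (4 * (1 + r ^ 2) ^ 2) ^ 2) r :=
    (hasDerivAt_id r).div h4 (by positivity)
  convert! (h1.add h3).sub h5 using 1
  field_simp
  ring

theorem extremal_aux_lim :
    Filter.Tendsto (fun r : ℝ => arctan r / 8 + r / (8 * (1 + r ^ 2)) - r / (4 * (1 + r ^ 2) ^ 2))
      Filter.atTop (nhds (π / 16)) := by
  have h1 : Filter.Tendsto (fun r : ℝ => arctan r / 8) Filter.atTop (nhds (π / 2 / 8)) :=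
    (tendsto_arctan_atTop.mono_right nhdsWithin_le_nhds).div_const 8
  have hinv : Filter.Tendsto (fun r : ℝ => 1 / r) Filter.atTop (nhds 0) := by
    simpa using tendsto_inv_atTop_zero (𝕜 := ℝ)
  have h2 : Filter.Tendsto (fun r : ℝ => r / (8 * (1 + r ^ 2))) Filter.atTop (nhds 0) := by
    refine squeeze_zero' ?_ ?_ hinv
    · filter_upwards [Filter.eventually_gt_atTop 0] with r hr
      positivity
    · filter_upwards [Filter.eventually_gt_atTop 0] with r hr
      rw [div_le_div_iff₀ (by positivity) hr]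
      nlinarith [sq_nonneg r]
  have h3 : Filter.Tendsto (fun r : ℝ => r / (4 * (1 + r ^ 2) ^ 2)) Filter.atTop (nhds 0) := by
    refine squeeze_zero' ?_ ?_ hinv
    · filter_upwards [Filter.eventually_gt_atTop 0] with r hr
      positivity
    · filter_upwards [Filter.eventually_gt_atTop 0] with r hr
      rw [div_le_div_iff₀ (by positivity) hr]
      nlinarith [sq_nonneg r, sq_nonneg (r ^ 2)]
  have := (h1.add h2).sub h3
  rw [add_zero, sub_zero] at this
  convert this using 2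
  ring

theorem extremal_aux_fun (r : ℝ) :
    (3 / 4 * (2 / (1 + r ^ 2)) ^ 2) ^ (3 / 2 : ℝ) = 3 * √3 * (1 / (1 + r ^ 2) ^ 3) := by
  have hp : (0 : ℝ) < 1 + r ^ 2 := by positivity
  have e1 : (3 / 4 * (2 / (1 + r ^ 2)) ^ 2 : ℝ) = (√3 / (1 + r ^ 2)) ^ 2 := by
    rw [div_pow, div_pow, Real.sq_sqrt (by norm_num)]
    ring
  have hq : (0 : ℝ) ≤ √3 / (1 + r ^ 2) := by positivity
  rw [e1, ← Real.rpow_natCast, ← Real.rpow_mul hq]
  have e2 : ((2 : ℕ) : ℝ) * (3 / 2 : ℝ) = ((3 : ℕ) : ℝ) := by norm_num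
  rw [e2, Real.rpow_natCast, div_pow]
  have e3 : √3 ^ 3 = 3 * √3 := by
    rw [pow_succ, Real.sq_sqrt (by norm_num)]
  rw [e3]
  ring

/-- The integral of the extremal radial potential to the power `3/2`. -/
theorem extremal_integral :
    Integrable (fun x : EuclideanSpace ℝ (Fin 3) => (3 / 4 * (2 / (1 + ‖x‖ ^ 2)) ^ 2) ^ (3 / 2 : ℝ)) ∧
    ∫ x : EuclideanSpace ℝ (Fin 3), (3 / 4 * (2 / (1 + ‖x‖ ^ 2)) ^ 2) ^ (3 / 2 : ℝ) =
      3 * √3 * π ^ 2 / 4 := by
  have hd : Module.finrank ℝ (EuclideanSpace ℝ (Fin 3)) = 3 := by simp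
  have hint : IntegrableOn (fun r : ℝ => r ^ 2 / (1 + r ^ 2) ^ 3) (Set.Ioi 0) :=
    integrableOn_Ioi_deriv_of_nonneg' (fun r _ => extremal_aux_deriv r)
      (fun r _ => by positivity) extremal_aux_lim
  have hval : ∫ r in Set.Ioi (0 : ℝ), r ^ 2 / (1 + r ^ 2) ^ 3 = π / 16 := by
    rw [integral_Ioi_of_hasDerivAt_of_nonneg' (fun r _ => extremal_aux_deriv r)
      (fun r _ => by positivity) extremal_aux_lim]
    simp
  have hfe : (fun y : ℝ => y ^ (Module.finrank ℝ (EuclideanSpace ℝ (Fin 3)) - 1) •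
      ((3 / 4 * (2 / (1 + y ^ 2)) ^ 2) ^ (3 / 2 : ℝ))) =
      fun y : ℝ => 3 * √3 * (y ^ 2 / (1 + y ^ 2) ^ 3) := by
    funext y
    rw [hd, extremal_aux_fun, smul_eq_mul]
    ring
  constructor
  · have := (integrable_fun_norm_addHaar (E := EuclideanSpace ℝ (Fin 3)) volume
      (f := fun r : ℝ => (3 / 4 * (2 / (1 + r ^ 2)) ^ 2) ^ (3 / 2 : ℝ))).mpr
    apply this
    rw [hfe]
    exact hint.const_mul _
  · have := integral_fun_norm_addHaar (E := EuclideanSpace ℝ (Fin 3)) volume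
      (fun r : ℝ => (3 / 4 * (2 / (1 + r ^ 2)) ^ 2) ^ (3 / 2 : ℝ))
    rw [this, hfe, integral_const_mul, hval, hd]
    have hb : (volume : Measure (EuclideanSpace ℝ (Fin 3))).real (Metric.ball 0 1) = 4 * π / 3 := by
      rw [Measure.real, EuclideanSpace.volume_ball_fin_three]
      rw [ENNReal.ofReal_one, one_pow, one_mul, ENNReal.toReal_ofReal (by positivity)]
      ring
    rw [hb]
    simp only [nsmul_eq_mul, smul_eq_mul]
    push_cast
    ring

end Pool.Helper490.SH
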