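import Mathlib

set_option autoImplicit false

open MeasureTheory Real

namespace Pool.Helper490.SH



namespace RCLRTestAux

lemma chi_facts : ∃ chi : ℝ → ℝ, ContDiff ℝ (⊤ : ℕ∞) chi ∧ (∀ s, s ≤ 1 → chi s = 1) ∧
    (∀ s, 2 ≤ s → chi s = 0) ∧ (∀ s, 2 < s → deriv chi s = 0) ∧
    ∃ C, 0 ≤ C ∧ ∀ s, 0 ≤ s → s ≤ 4 → |deriv chi s| ≤ C := by
  obtain ⟨chi, hchi⟩ : ∃ chi : ℝ → ℝ, ∀ s, chi s = Real.smoothTransition (2 - s) :=
    ⟨_, fun _ => rfl⟩
  have hcd : ContDiff ℝ (⊤ : ℕ∞) chi := by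
    have : chi = fun s => Real.smoothTransition (2 - s) := funext hchi
    rw [this]
    exact Real.smoothTransition.contDiff.comp (contDiff_const.sub contDiff_id)
  refine ⟨chi, hcd, ?_, ?_, ?_, ?_⟩
  · intro s hs
    rw [hchi]
    exact Real.smoothTransition.one_of_one_le (by linarith)
  · intro s hs
    rw [hchi]
    exact Real.smoothTransition.zero_of_nonpos (by linarith)
  · intro s hs
    have h1 : chi =ᶠ[nhds s] fun _ => (0 : ℝ) := by
      filter_upwards [Ioi_mem_nhds hs] with t ht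
      rw [hchi]
      exact Real.smoothTransition.zero_of_nonpos (by have := Set.mem_Ioi.1 ht; linarith)
    rw [h1.deriv_eq]
    simp
  · have hc : Continuous (deriv chi) := hcd.continuous_deriv (by exact_mod_cast le_top)
    obtain ⟨C, hC⟩ := (isCompact_Icc (a := (0:ℝ)) (b := 4)).exists_bound_of_continuousOn
      hc.continuousOn
    refine ⟨C, ?_, ?_⟩
    · exact le_trans (norm_nonneg _) (hC 0 ⟨le_refl _, by norm_num⟩)
    · intro s h0 h4
      have := hC s ⟨h0, h4⟩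
      rwa [Real.norm_eq_abs] at this

lemma a_deriv (y : ℝ) : HasDerivAt (fun y : ℝ => (Real.sqrt (1 + y ^ 2))⁻¹)
    (-y * ((Real.sqrt (1 + y ^ 2))⁻¹) ^ 3) y := by
  have hpos : 0 < 1 + y ^ 2 := by positivity
  have hs : 0 < Real.sqrt (1 + y ^ 2) := Real.sqrt_pos.2 hpos
  have h1 : HasDerivAt (fun y : ℝ => 1 + y ^ 2) (2 * y) y := by
    have := (hasDerivAt_pow 2 y).const_add 1
    simpa using this
  have h2 := (h1.sqrt hpos.ne').inv hs.ne'
  refine h2.congr_deriv ?_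
  field_simp

lemma G_deriv (chi : ℝ → ℝ) (hchi : ContDiff ℝ (⊤ : ℕ∞) chi) (R : ℝ) (s : ℝ) (hs0 : 0 ≤ s) :
    HasDerivAt (fun s : ℝ => (Real.sqrt (1 + s))⁻¹ * chi (s / R ^ 2))
      (-(1 / 2) * ((Real.sqrt (1 + s))⁻¹) ^ 3 * chi (s / R ^ 2)
        + (Real.sqrt (1 + s))⁻¹ * (deriv chi (s / R ^ 2) * (1 / R ^ 2))) s := by
  have hpos : 0 < 1 + s := by positivity
  have hs : 0 < Real.sqrt (1 + s) := Real.sqrt_pos.2 hpos
  have h1 : HasDerivAt (fun y : ℝ => 1 + y) 1 s := (hasDerivAt_id s).const_add 1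
  have h2 := (h1.sqrt hpos.ne').inv hs.ne'
  have h3 : HasDerivAt (fun s : ℝ => (Real.sqrt (1 + s))⁻¹)
      (-(1 / 2) * ((Real.sqrt (1 + s))⁻¹) ^ 3) s := by
    refine h2.congr_deriv ?_
    field_simp
  have h4 : HasDerivAt (fun s : ℝ => chi (s / R ^ 2)) (deriv chi (s / R ^ 2) * (1 / R ^ 2)) s := by
    have h5 : HasDerivAt chi (deriv chi (s / R ^ 2)) (s / R ^ 2) :=
      ((hchi.differentiable (by simp)) _).hasDerivAt
    exact h5.comp s ((hasDerivAt_id s).div_const _)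
  exact h3.mul h4

lemma f_deriv (chi : ℝ → ℝ) (hchi : ContDiff ℝ (⊤ : ℕ∞) chi) (R : ℝ) (y : ℝ) :
    HasDerivAt (fun y : ℝ => chi (y ^ 2 / R ^ 2)) (deriv chi (y ^ 2 / R ^ 2) * (2 * y / R ^ 2)) y := by
  have h5 : HasDerivAt chi (deriv chi (y ^ 2 / R ^ 2)) (y ^ 2 / R ^ 2) :=
    ((hchi.differentiable (by simp)) _).hasDerivAt
  have h6 : HasDerivAt (fun y : ℝ => y ^ 2 / R ^ 2) (2 * y / R ^ 2) y := by
    have := (hasDerivAt_pow 2 y).div_const (R ^ 2)
    simpa using this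
  exact h5.comp y h6

/-- the radial reduction -/
lemma radial (g : ℝ → ℝ) (b : ℝ) (hb : 0 ≤ b) (hg : ∀ y, b < y → g y = 0) :
    ∫ x : EuclideanSpace ℝ (Fin 3), g ‖x‖ =
      (3 * (volume : Measure (EuclideanSpace ℝ (Fin 3))).real (Metric.ball 0 1)) *
        ∫ y in (0:ℝ)..b, y ^ 2 * g y := by
  rw [integral_fun_norm_addHaar]
  rw [finrank_euclideanSpace_fin]
  have h1 : ∫ y in Set.Ioi (0:ℝ), y ^ (3 - 1) • g y = ∫ y in Set.Ioc (0:ℝ) b, y ^ 2 * g y := by
    have := setIntegral_eq_of_subset_of_forall_sdiff_eq_zero (μ := volume) (s := Set.Ioc (0:ℝ) b)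
      (t := Set.Ioi (0:ℝ)) (f := fun y => y ^ 2 * g y) measurableSet_Ioi
      Set.Ioc_subset_Ioi_self ?_
    · rw [← this]
      rfl
    · intro x hx
      have hx1 : (0:ℝ) < x := hx.1
      have hx2 : b < x := by
        by_contra hcon
        exact hx.2 ⟨hx1, not_lt.1 hcon⟩
      simp [hg x hx2]
  rw [h1, intervalIntegral.integral_of_le hb]
  simp [mul_assoc]

end RCLRTestAux

/-- Test functions for the extremal radial potential. -/
theorem exists_test (ε : ℝ) (hε : 0 < ε) :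
    ∃ u : EuclideanSpace ℝ (Fin 3) → ℝ, ContDiff ℝ (⊤ : ℕ∞) u ∧ HasCompactSupport u ∧
      ∫ x, ‖fderiv ℝ u x‖ ^ 2 < (1 + ε) * ∫ x, 3 / 4 * (2 / (1 + ‖x‖ ^ 2)) ^ 2 * u x ^ 2 := by
  obtain ⟨chi, hcd, hone, hzero, hdzero, C, hC0, hC⟩ := RCLRTestAux.chi_facts
  -- the constant c
  have hsq : ∀ y : ℝ, ((Real.sqrt (1 + y ^ 2))⁻¹) ^ 2 * (1 + y ^ 2) = 1 := by
    intro y
    have hpos : 0 < 1 + y ^ 2 := by positivity
    rw [inv_pow, Real.sq_sqrt hpos.le]
    field_simp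
  obtain ⟨a, ha⟩ : ∃ a : ℝ → ℝ, ∀ y, a y = (Real.sqrt (1 + y ^ 2))⁻¹ := ⟨_, fun _ => rfl⟩
  have hafun : a = fun y => (Real.sqrt (1 + y ^ 2))⁻¹ := funext ha
  have hasq : ∀ y, a y ^ 2 * (1 + y ^ 2) = 1 := by
    intro y; rw [ha]; exact hsq y
  have had : ∀ y, HasDerivAt a (-y * a y ^ 3) y := by
    intro y
    rw [ha y, hafun]
    exact RCLRTestAux.a_deriv y
  have hapos : ∀ y, 0 < a y := by
    intro y; rw [ha]; positivity
  have hacont : Continuous a := by
    have : Differentiable ℝ a := fun y => (had y).differentiableAt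
    exact this.continuous
  have hc : 0 < ∫ y in (0:ℝ)..1, 3 * y ^ 2 * a y ^ 6 := by
    apply intervalIntegral.intervalIntegral_pos_of_pos_on
    · apply Continuous.intervalIntegrable
      fun_prop
    · intro y hy
      have := hapos y
      have h1 : 0 < y := hy.1
      positivity
    · norm_num
  obtain ⟨c, hcdef⟩ : ∃ c : ℝ, c = ∫ y in (0:ℝ)..1, 3 * y ^ 2 * a y ^ 6 := ⟨_, rfl⟩
  rw [← hcdef] at hc
  obtain ⟨R, hR1, hR⟩ : ∃ R : ℝ, 1 ≤ R ∧ 32 * C ^ 2 / R < ε * c := by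
    refine ⟨max 1 (32 * C ^ 2 / (ε * c) + 1), le_max_left _ _, ?_⟩
    have hpos : 0 < max 1 (32 * C ^ 2 / (ε * c) + 1) := lt_of_lt_of_le one_pos (le_max_left _ _)
    rw [div_lt_iff₀ hpos]
    have hec : 0 < ε * c := mul_pos hε hc
    have h1 : 32 * C ^ 2 / (ε * c) < max 1 (32 * C ^ 2 / (ε * c) + 1) :=
      lt_of_lt_of_le (lt_add_one _) (le_max_right _ _)
    rw [div_lt_iff₀ hec] at h1
    linarith [mul_comm (ε * c) (max 1 (32 * C ^ 2 / (ε * c) + 1))]
  have hR0 : 0 < R := by linarith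
  obtain ⟨f, hf⟩ : ∃ f : ℝ → ℝ, ∀ y, f y = chi (y ^ 2 / R ^ 2) := ⟨_, fun _ => rfl⟩
  obtain ⟨f1, hf1⟩ : ∃ f1 : ℝ → ℝ, ∀ y, f1 y = deriv chi (y ^ 2 / R ^ 2) * (2 * y / R ^ 2) :=
    ⟨_, fun _ => rfl⟩
  have hffun : f = fun y => chi (y ^ 2 / R ^ 2) := funext hf
  have hf1fun : f1 = fun y => deriv chi (y ^ 2 / R ^ 2) * (2 * y / R ^ 2) := funext hf1
  have hfd : ∀ y, HasDerivAt f (f1 y) y := by
    intro y
    rw [hf1 y, hffun]
    exact RCLRTestAux.f_deriv chi hcd R y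
  have hfcont : Continuous f := by
    have : Differentiable ℝ f := fun y => (hfd y).differentiableAt
    exact this.continuous
  have hdchi : Continuous (deriv chi) := hcd.continuous_deriv (by exact_mod_cast le_top)
  have hf1cont : Continuous f1 := by
    rw [hf1fun]
    fun_prop
  have hf2R : ∀ y, 2 * R ≤ y → f y = 0 := by
    intro y hy
    rw [hf]
    apply hzero
    rw [le_div_iff₀ (by positivity)]
    nlinarith
  have hf12R : ∀ y, 2 * R < y → f1 y = 0 := by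
    intro y hy
    rw [hf1, hdzero, zero_mul]
    rw [lt_div_iff₀ (by positivity)]
    nlinarith
  have hf1one : ∀ y, 0 ≤ y → y ≤ 1 → f y = 1 := by
    intro y hy0 hy
    rw [hf]
    apply hone
    rw [div_le_one (by positivity)]
    nlinarith
  have hf1b : ∀ y, 0 ≤ y → y ≤ 2 * R → |f1 y| ≤ 4 * C / R := by
    intro y hy0 hy
    rw [hf1, abs_mul]
    have h1 : |deriv chi (y ^ 2 / R ^ 2)| ≤ C := by
      apply hC
      · positivity
      · rw [div_le_iff₀ (by positivity)]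
        nlinarith
    have h2 : |2 * y / R ^ 2| ≤ 4 / R := by
      rw [abs_of_nonneg (by positivity), div_le_div_iff₀ (by positivity) hR0]
      nlinarith
    calc |deriv chi (y ^ 2 / R ^ 2)| * |2 * y / R ^ 2| ≤ C * (4 / R) :=
          mul_le_mul h1 h2 (abs_nonneg _) hC0
      _ = 4 * C / R := by ring
  -- the one-dimensional identity
  have hH : ∀ y, HasDerivAt (fun y => -(y ^ 3 * a y ^ 4 * f y ^ 2))
      (-(3 * y ^ 2 * a y ^ 4 * f y ^ 2) + 4 * y ^ 4 * a y ^ 6 * f y ^ 2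
        - 2 * y ^ 3 * a y ^ 4 * f y * f1 y) y := by
    intro y
    have h1 : HasDerivAt (fun y : ℝ => y ^ 3) (3 * y ^ 2) y := by
      simpa using hasDerivAt_pow 3 y
    have h2 : HasDerivAt (fun y : ℝ => a y ^ 4) (4 * a y ^ 3 * (-y * a y ^ 3)) y := by
      have := (had y).fun_pow 4
      simpa using this
    have h3 : HasDerivAt (fun y : ℝ => f y ^ 2) (2 * f y * f1 y) y := by
      have := (hfd y).fun_pow 2
      simpa using this
    have h4 := ((h1.mul h2).mul h3).neg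
    refine h4.congr_deriv ?_
    simp only [Pi.mul_apply]
    ring
  have hHint : ∫ y in (0:ℝ)..(2 * R), (-(3 * y ^ 2 * a y ^ 4 * f y ^ 2)
      + 4 * y ^ 4 * a y ^ 6 * f y ^ 2 - 2 * y ^ 3 * a y ^ 4 * f y * f1 y) = 0 := by
    rw [intervalIntegral.integral_eq_sub_of_hasDerivAt (fun y _ => hH y)]
    · rw [hf2R (2 * R) le_rfl]
      simp
    · apply Continuous.intervalIntegrable
      fun_prop
  obtain ⟨J, hJ⟩ : ∃ J : ℝ, J = ∫ y in (0:ℝ)..(2 * R), 3 * y ^ 2 * a y ^ 6 * f y ^ 2 := ⟨_, rfl⟩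
  obtain ⟨E, hE⟩ : ∃ E : ℝ, E = ∫ y in (0:ℝ)..(2 * R), y ^ 2 * a y ^ 2 * f1 y ^ 2 := ⟨_, rfl⟩
  obtain ⟨D, hD⟩ : ∃ D : ℝ → ℝ, ∀ y, D y = -y * a y ^ 3 * f y + a y * f1 y := ⟨_, fun _ => rfl⟩
  have hDint : ∫ y in (0:ℝ)..(2 * R), y ^ 2 * D y ^ 2 = J + E := by
    have h1 : ∫ y in (0:ℝ)..(2 * R), y ^ 2 * D y ^ 2 =
        (∫ y in (0:ℝ)..(2 * R), 3 * y ^ 2 * a y ^ 6 * f y ^ 2) +
        (∫ y in (0:ℝ)..(2 * R), y ^ 2 * a y ^ 2 * f1 y ^ 2) +
        ∫ y in (0:ℝ)..(2 * R), (-(3 * y ^ 2 * a y ^ 4 * f y ^ 2)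
          + 4 * y ^ 4 * a y ^ 6 * f y ^ 2 - 2 * y ^ 3 * a y ^ 4 * f y * f1 y) := by
      rw [← intervalIntegral.integral_add, ← intervalIntegral.integral_add]
      · apply intervalIntegral.integral_congr
        intro y _
        have h2 := hasq y
        have h3 : a y ^ 2 = 1 - a y ^ 2 * y ^ 2 := by linarith
        simp only [hD]
        linear_combination (-3 * y ^ 2 * a y ^ 4 * f y ^ 2) * h2
      · apply Continuous.intervalIntegrable
        fun_prop
      · apply Continuous.intervalIntegrable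
        fun_prop
      · apply Continuous.intervalIntegrable
        fun_prop
      · apply Continuous.intervalIntegrable
        fun_prop
    rw [h1, hHint, hJ, hE, add_zero]
  have hEle : E ≤ 32 * C ^ 2 / R := by
    have h1 : E ≤ ∫ y in (0:ℝ)..(2 * R), (4 * C / R) ^ 2 := by
      rw [hE]
      apply intervalIntegral.integral_mono_on (by positivity)
      · apply Continuous.intervalIntegrable
        fun_prop
      · apply Continuous.intervalIntegrable
        fun_prop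
      · intro y hy
        have h2 := hf1b y hy.1 hy.2
        have h3 : f1 y ^ 2 ≤ (4 * C / R) ^ 2 := by
          rw [← sq_abs]
          exact pow_le_pow_left₀ (abs_nonneg _) h2 2
        have h4 : y ^ 2 * a y ^ 2 ≤ 1 := by
          have := hasq y
          nlinarith [sq_nonneg (a y)]
        calc y ^ 2 * a y ^ 2 * f1 y ^ 2 ≤ 1 * (4 * C / R) ^ 2 :=
              mul_le_mul h4 h3 (sq_nonneg _) zero_le_one
          _ = (4 * C / R) ^ 2 := one_mul _
    rw [intervalIntegral.integral_const, smul_eq_mul, sub_zero] at h1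
    refine h1.trans (le_of_eq ?_)
    field_simp
    ring
  have hJge : c ≤ J := by
    rw [hcdef, hJ]
    have h1 : ∫ y in (0:ℝ)..(2 * R), 3 * y ^ 2 * a y ^ 6 * f y ^ 2 =
        (∫ y in (0:ℝ)..1, 3 * y ^ 2 * a y ^ 6 * f y ^ 2) +
        ∫ y in (1:ℝ)..(2 * R), 3 * y ^ 2 * a y ^ 6 * f y ^ 2 := by
      rw [intervalIntegral.integral_add_adjacent_intervals]
      · apply Continuous.intervalIntegrable
        fun_prop
      · apply Continuous.intervalIntegrable
        fun_prop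
    rw [h1]
    have h2 : (∫ y in (0:ℝ)..1, 3 * y ^ 2 * a y ^ 6 * f y ^ 2) =
        ∫ y in (0:ℝ)..1, 3 * y ^ 2 * a y ^ 6 := by
      apply intervalIntegral.integral_congr
      intro y hy
      rw [Set.uIcc_of_le zero_le_one] at hy
      simp only []
      rw [hf1one y hy.1 hy.2]
      ring
    rw [h2]
    have h3 : 0 ≤ ∫ y in (1:ℝ)..(2 * R), 3 * y ^ 2 * a y ^ 6 * f y ^ 2 := by
      apply intervalIntegral.integral_nonneg (by linarith)
      intro y hy
      positivity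
    linarith
  -- now the function u
  obtain ⟨u, hu⟩ : ∃ u : EuclideanSpace ℝ (Fin 3) → ℝ,
      ∀ x, u x = (Real.sqrt (1 + ‖x‖ ^ 2))⁻¹ * chi (‖x‖ ^ 2 / R ^ 2) := ⟨_, fun _ => rfl⟩
  have hufun : u = fun x => (Real.sqrt (1 + ‖x‖ ^ 2))⁻¹ * chi (‖x‖ ^ 2 / R ^ 2) := funext hu
  refine ⟨u, ?_, ?_, ?_⟩
  · rw [hufun]
    have hn : ContDiff ℝ (⊤ : ℕ∞) (fun x : EuclideanSpace ℝ (Fin 3) => ‖x‖ ^ 2) :=
      contDiff_norm_sq ℝ
    refine ContDiff.mul (ContDiff.inv ((contDiff_const.add hn).sqrt ?_) ?_) ?_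
    · intro x; positivity
    · intro x; positivity
    · exact hcd.comp (hn.div_const _)
  · refine HasCompactSupport.intro (isCompact_closedBall (0 : EuclideanSpace ℝ (Fin 3)) (2 * R)) ?_
    intro x hx
    rw [Metric.mem_closedBall, dist_zero_right, not_le] at hx
    rw [hu]
    have := hf2R ‖x‖ hx.le
    rw [hf] at this
    rw [this, mul_zero]
  · have h1 : ∀ x, ‖fderiv ℝ u x‖ ^ 2 = (fun y => D y ^ 2) ‖x‖ := by
      intro x
      have h2 := RCLRTestAux.G_deriv chi hcd R (‖x‖ ^ 2) (by positivity)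
      have h3 : HasFDerivAt (fun x : EuclideanSpace ℝ (Fin 3) => ‖x‖ ^ 2) (2 • innerSL ℝ x) x :=
        (hasStrictFDerivAt_norm_sq x).hasFDerivAt
      have h4 := h2.comp_hasFDerivAt x h3
      have hcomp : ((fun s => (Real.sqrt (1 + s))⁻¹ * chi (s / R ^ 2)) ∘
          fun x : EuclideanSpace ℝ (Fin 3) => ‖x‖ ^ 2) = u := by
        rw [hufun]
        rfl
      rw [hcomp] at h4
      rw [h4.fderiv]
      rw [norm_smul, mul_pow]
      have h7 : ‖(2 : ℕ) • innerSL ℝ x‖ = 2 * ‖x‖ := by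
        rw [← Nat.cast_smul_eq_nsmul ℝ, norm_smul, innerSL_apply_norm]
        norm_num
      rw [h7, Real.norm_eq_abs, sq_abs]
      simp only [hD, hf, hf1, ha]
      ring
    have h2 : ∀ x : EuclideanSpace ℝ (Fin 3), 3 / 4 * (2 / (1 + ‖x‖ ^ 2)) ^ 2 * u x ^ 2 =
        (fun y => 3 * a y ^ 6 * f y ^ 2) ‖x‖ := by
      intro x
      have h3 := hasq ‖x‖
      have h4 : (2 / (1 + ‖x‖ ^ 2)) = 2 * a ‖x‖ ^ 2 := by
        rw [div_eq_iff (by positivity)]
        linarith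
      rw [h4, hu, ← ha, ← hf]
      ring
    rw [integral_congr_ae (Filter.Eventually.of_forall h1),
      integral_congr_ae (Filter.Eventually.of_forall h2)]
    rw [RCLRTestAux.radial (fun y => D y ^ 2) (2 * R) (by positivity),
      RCLRTestAux.radial (fun y => 3 * a y ^ 6 * f y ^ 2) (2 * R) (by positivity)]
    · have h3 : ∫ y in (0:ℝ)..(2 * R), y ^ 2 * (3 * a y ^ 6 * f y ^ 2) = J := by
        rw [hJ]
        apply intervalIntegral.integral_congr
        intro y _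
        ring
      rw [hDint, h3]
      have hK : 0 < (3 * (volume : Measure (EuclideanSpace ℝ (Fin 3))).real (Metric.ball 0 1)) := by
        have : 0 < (volume : Measure (EuclideanSpace ℝ (Fin 3))).real (Metric.ball 0 1) := by
          rw [Measure.real, ENNReal.toReal_pos_iff]
          exact ⟨Metric.measure_ball_pos _ _ one_pos, measure_ball_lt_top⟩
        positivity
      have h5 : J + E < (1 + ε) * J := by
        have : ε * c ≤ ε * J := mul_le_mul_of_nonneg_left hJge hε.le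
        linarith
      calc _ < (3 * (volume : Measure (EuclideanSpace ℝ (Fin 3))).real (Metric.ball 0 1)) *
            ((1 + ε) * J) := mul_lt_mul_of_pos_left h5 hK
        _ = _ := by ring
    · intro y hy
      simp [hf2R y hy.le]
    · intro y hy
      simp only [hD]
      rw [hf2R y hy.le, hf12R y hy]
      ring

end Pool.Helper490.SH
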