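import Pool.Agent.Helper490.SH.RadialCLR
import Pool.Agent.Helper490.SH.LB1
import Pool.Agent.Helper490.SH.LB2

set_option autoImplicit false

open MeasureTheory Set Metric Real

namespace Pool.Helper490.SH

noncomputable section

/-- The sharp constant. -/
def cR : ℝ := 4 / (3 * √3 * π ^ 2)

lemma cR_pos : 0 < cR := by
  rw [cR]
  have := pi_pos
  positivity

/-- The extremal potential. -/
def W0 (x : E) : ℝ := 3 / 4 * (2 / (1 + ‖x‖ ^ 2)) ^ 2

lemma W0_pos (x : E) : 0 < W0 x := by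
  rw [W0]
  positivity

lemma W0_integrable : Integrable (fun x => W0 x ^ (3 / 2 : ℝ)) := extremal_integral.1

lemma W0_integral : ∫ x, W0 x ^ (3 / 2 : ℝ) = cR⁻¹ := by
  rw [cR, inv_div]
  exact extremal_integral.2

/-- The upper bound for spherically symmetric potentials. -/
theorem upper_radial (W : E → ℝ) (hrad : ∀ x y, ‖x‖ = ‖y‖ → W x = W y) (hWm : Measurable W)
    (hW0 : ∀ x, 0 ≤ W x) (hint : Integrable (fun x : E => W x ^ (3 / 2 : ℝ))) (n : ℕ)
    (u : Fin n → E → ℝ) (hu : ∀ i, ContDiff ℝ (⊤ : ℕ∞) (u i) ∧ HasCompactSupport (u i))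
    (hneg : ∀ c : Fin n → ℝ, c ≠ 0 → ∫ x, (‖fderiv ℝ (fun y => ∑ i, c i * u i y) x‖ ^ 2 -
      W x * (∑ i, c i * u i x) ^ 2) < 0) :
    (n : ℝ) ≤ cR * ∫ x : E, W x ^ (3 / 2 : ℝ) := by
  set e0 : E := EuclideanSpace.single 0 1 with he0
  have hn0 : ‖e0‖ = 1 := by simp [he0]
  set w : ℝ → ℝ := fun r => W (r • e0) with hw
  have hW : ∀ x, W x = w ‖x‖ := fun x => hrad _ _ (by
    rw [norm_smul, hn0, mul_one, norm_norm])
  have hwm : Measurable w := hWm.comp (measurable_id.smul_const e0)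
  simp only [hW] at hint hneg ⊢
  exact upper w hwm (fun r => hW0 _) hint n u hu hneg

/-- The family of potentials and test functions for the lower bound. -/
theorem lower_data (ε : ℝ) (hε : 0 < ε) : ∃ u : E → ℝ, ContDiff ℝ (⊤ : ℕ∞) u ∧
    HasCompactSupport u ∧ u ≠ 0 ∧
    ∫ x, ‖fderiv ℝ u x‖ ^ 2 < ∫ x, (1 + ε) * W0 x * u x ^ 2 := by
  obtain ⟨u, h1, h2, h3⟩ := exists_test ε hε
  have h4 : (∫ x, (1 + ε) * W0 x * u x ^ 2) =
      (1 + ε) * ∫ x, 3 / 4 * (2 / (1 + ‖x‖ ^ 2)) ^ 2 * u x ^ 2 := by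
    rw [← integral_const_mul]
    congr 1
    funext x
    rw [W0]
    ring
  refine ⟨u, h1, h2, ?_, by rw [h4]; exact h3⟩
  rintro rfl
  simp at h3

lemma W0_rad (x y : E) (h : ‖x‖ = ‖y‖) : W0 x = W0 y := by rw [W0, W0, h]

lemma W0_meas : Measurable W0 := by
  unfold W0
  fun_prop

lemma scaled_integral (ε : ℝ) (hε : 0 < ε) :
    (∫ x, ((1 + ε) * W0 x) ^ (3 / 2 : ℝ)) = (1 + ε) ^ (3 / 2 : ℝ) * cR⁻¹ := by
  rw [← W0_integral, ← integral_const_mul]
  congr 1
  funext x
  exact Real.mul_rpow (by linarith) (W0_pos x).le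

lemma scaled_integrable (ε : ℝ) (hε : 0 < ε) :
    Integrable (fun x => ((1 + ε) * W0 x) ^ (3 / 2 : ℝ)) := by
  refine (W0_integrable.const_mul ((1 + ε) ^ (3 / 2 : ℝ))).congr
    (Filter.Eventually.of_forall fun x => ?_)
  exact (Real.mul_rpow (by linarith) (W0_pos x).le).symm

lemma tendsto_scaled : Filter.Tendsto (fun ε : ℝ => (1 + ε) ^ (3 / 2 : ℝ)) (nhdsWithin 0 (Ioi 0))
    (nhds 1) := by
  have h1 : ContinuousAt (fun ε : ℝ => (1 + ε) ^ (3 / 2 : ℝ)) 0 := by
    refine ContinuousAt.rpow_const (by fun_prop) (Or.inl ?_)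
    norm_num
  have h2 := h1.tendsto
  simp only [add_zero, one_rpow] at h2
  exact h2.mono_left nhdsWithin_le_nhds

/-- The set of admissible constants for spherically symmetric potentials has least element `cR`. -/
theorem isLeast_radial :
    IsLeast
      {C : ℝ | ∀ W : E → ℝ, (∀ x y, ‖x‖ = ‖y‖ → W x = W y) → Measurable W → (∀ x, 0 ≤ W x) →
        Integrable (fun x => W x ^ (3 / 2 : ℝ)) →
        ∀ (n : ℕ) (u : Fin n → E → ℝ),
          (∀ i, ContDiff ℝ (⊤ : ℕ∞) (u i) ∧ HasCompactSupport (u i)) →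
          (∀ c : Fin n → ℝ, c ≠ 0 →
            ∫ x, (‖fderiv ℝ (fun y => ∑ i, c i * u i y) x‖ ^ 2
                  - W x * (∑ i, c i * u i x) ^ 2) < 0) →
          (n : ℝ) ≤ C * ∫ x, W x ^ (3 / 2 : ℝ)} cR := by
  refine ⟨fun W hrad hWm hW0 hint n u hu hneg => upper_radial W hrad hWm hW0 hint n u hu hneg,
    fun C hC => ?_⟩
  have key : ∀ ε : ℝ, 0 < ε → cR ≤ C * (1 + ε) ^ (3 / 2 : ℝ) := by
    intro ε hε
    obtain ⟨u, hu1, hu2, hu0, hlt⟩ := lower_data ε hε
    have h1 := hC (fun x => (1 + ε) * W0 x) (fun x y h => by simp only [W0_rad x y h])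
      (W0_meas.const_mul _) (fun x => mul_nonneg (by linarith) (W0_pos x).le)
      (scaled_integrable ε hε) 1 (fun _ => u) (fun _ => ⟨hu1, hu2⟩) (fun c hc => by
        have hc0 : c 0 ≠ 0 := fun h => hc (by funext i; rw [Subsingleton.elim i 0, h]; rfl)
        simp only [Fin.sum_univ_one]
        have hd : ∀ x, fderiv ℝ (fun y => c 0 * u y) x = c 0 • fderiv ℝ u x := by
          intro x
          exact fderiv_const_mul ((hu1.differentiable (by simp)) x) (c 0)
        have h2 : ∀ x, ‖fderiv ℝ (fun y => c 0 * u y) x‖ ^ 2 - (1 + ε) * W0 x * (c 0 * u x) ^ 2 =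
            (c 0) ^ 2 * (‖fderiv ℝ u x‖ ^ 2 - (1 + ε) * W0 x * u x ^ 2) := by
          intro x
          rw [hd, norm_smul, Real.norm_eq_abs, mul_pow, sq_abs]
          ring
        simp only [h2]
        rw [integral_const_mul]
        have h3 : Integrable (fun x => ‖fderiv ℝ u x‖ ^ 2) := by
          have h4 : Continuous (fderiv ℝ u) := hu1.continuous_fderiv (by simp)
          have h5 : HasCompactSupport (fun x => ‖fderiv ℝ u x‖ ^ 2) :=
            (hu2.fderiv ℝ).norm.comp_left (g := fun t : ℝ => t ^ 2) (by norm_num)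
          exact (h4.norm.pow 2).integrable_of_hasCompactSupport h5
        have h5 : Integrable (fun x => (1 + ε) * W0 x * u x ^ 2) := by
          have h6 : Continuous (fun x => (1 + ε) * W0 x * u x ^ 2) := by
            have : Continuous W0 := by
              unfold W0
              refine continuous_const.mul ((continuous_const.div (by fun_prop) fun x => ?_).pow 2)
              positivity
            exact (continuous_const.mul this).mul (hu1.continuous.pow 2)
          refine h6.integrable_of_hasCompactSupport ?_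
          have h7 : HasCompactSupport (fun x => u x ^ 2) :=
            hu2.comp_left (g := fun t : ℝ => t ^ 2) (by norm_num)
          exact h7.mul_left
        rw [integral_sub h3 h5]
        have h8 : 0 < (c 0) ^ 2 := by positivity
        exact mul_neg_of_pos_of_neg h8 (by linarith))
    rw [scaled_integral ε hε, Nat.cast_one] at h1
    have h2 := cR_pos
    rw [← mul_assoc, ← div_eq_mul_inv, le_div_iff₀ h2, one_mul] at h1
    exact h1
  have h1 : Filter.Tendsto (fun ε : ℝ => C * (1 + ε) ^ (3 / 2 : ℝ)) (nhdsWithin 0 (Ioi 0))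
      (nhds (C * 1)) := tendsto_scaled.const_mul C
  rw [mul_one] at h1
  refine ge_of_tendsto h1 ?_
  filter_upwards [self_mem_nhdsWithin] with ε hε using key ε hε

/-- The value of the constant in the form of the literature. -/
lemma cR_eq : (3 * π) ^ (-(3 / 2 : ℝ)) * Real.Gamma 3 / Real.Gamma (3 / 2) = cR := by
  have h1 : Real.Gamma 3 = 2 := by
    have : (3:ℝ) = ((2:ℕ):ℝ) + 1 := by norm_num
    rw [this, Real.Gamma_nat_eq_factorial]
    norm_num
  have h2 : Real.Gamma (3 / 2) = √π / 2 := by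
    have h3 : (3:ℝ) / 2 = 1 / 2 + 1 := by norm_num
    rw [h3, Real.Gamma_add_one (by norm_num), Real.Gamma_one_half_eq]
    ring
  have hπ := pi_pos
  have h3 : (3 * π) ^ (-(3 / 2 : ℝ)) = (3 * π * (√3 * √π))⁻¹ := by
    rw [Real.rpow_neg (by positivity)]
    congr 1
    rw [show (3:ℝ) / 2 = 1 + 1 / 2 by norm_num, Real.rpow_add (by positivity), Real.rpow_one,
      ← Real.sqrt_eq_rpow, Real.sqrt_mul (by norm_num)]
  rw [h1, h2, h3, cR]
  have h4 : √π ^ 2 = π := Real.sq_sqrt hπ.le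
  have h5 : 0 < √π := Real.sqrt_pos.2 hπ
  have h6 : 0 < √3 := Real.sqrt_pos.2 (by norm_num)
  field_simp
  rw [h4]
  ring

/-- `W u²` is integrable for `W` in `L^{3/2}` and `u` continuous with compact support. -/
lemma integrable_W_sq (W : E → ℝ) (hWm : Measurable W) (hW0 : ∀ x, 0 ≤ W x)
    (hint : Integrable (fun x : E => W x ^ (3 / 2 : ℝ))) (v : E → ℝ) (hv : Continuous v)
    (hvc : HasCompactSupport v) : Integrable (fun x : E => W x * v x ^ 2) := by
  obtain ⟨C, hC⟩ := hv.bounded_above_of_compact_support hvc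
  have h1 : Integrable (fun x : E => v x ^ 2) := by
    have h0 : HasCompactSupport (fun x : E => v x ^ 2) :=
      hvc.comp_left (g := fun t : ℝ => t ^ 2) (by norm_num)
    exact (hv.pow 2).integrable_of_hasCompactSupport h0
  have h2 : Integrable (fun x : E => v x ^ 2 + C ^ 2 * W x ^ (3 / 2 : ℝ)) :=
    h1.add (hint.const_mul _)
  refine h2.mono' (hWm.aestronglyMeasurable.mul
    (hv.pow 2).aestronglyMeasurable) (Filter.Eventually.of_forall fun x => ?_)
  rw [Real.norm_eq_abs, abs_of_nonneg (mul_nonneg (hW0 _) (sq_nonneg _))]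
  have h3 : W x ≤ 1 + W x ^ (3 / 2 : ℝ) := by
    rcases le_total (W x) 1 with h4 | h4
    · have := Real.rpow_nonneg (hW0 x) (3 / 2 : ℝ)
      linarith
    · have := Real.self_le_rpow_of_one_le h4 (show (1:ℝ) ≤ 3 / 2 by norm_num)
      linarith
  have h5 : v x ^ 2 ≤ C ^ 2 := by
    have := hC x
    rw [Real.norm_eq_abs] at this
    rw [← sq_abs]
    exact pow_le_pow_left₀ (abs_nonneg _) this 2
  have h6 := Real.rpow_nonneg (hW0 x) (3 / 2 : ℝ)
  calc W x * v x ^ 2 ≤ (1 + W x ^ (3 / 2 : ℝ)) * v x ^ 2 :=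
        mul_le_mul_of_nonneg_right h3 (sq_nonneg _)
    _ = v x ^ 2 + W x ^ (3 / 2 : ℝ) * v x ^ 2 := by ring
    _ ≤ v x ^ 2 + W x ^ (3 / 2 : ℝ) * C ^ 2 := by gcongr
    _ = _ := by ring

end

end Pool.Helper490.SH
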