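import Pool.Agent.Helper490.SH.Defs

set_option autoImplicit false

open MeasureTheory Set Metric Real MvPolynomial

namespace Pool.Helper490.SH

noncomputable section


theorem mon_totalDegree (k : ℕ) : (mon k).totalDegree ≤ Nat.sqrt k := by
  have h1 := Nat.sqrt_le_add k
  have h0 := Nat.sqrt_le k
  have hX : ∀ (i : Fin 3) (n : ℕ), (X i ^ n : MvPolynomial (Fin 3) ℝ).totalDegree ≤ n := by
    intro i n
    refine (totalDegree_pow _ _).trans ?_
    rw [totalDegree_X, mul_one]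
  unfold mon
  show (if k - Nat.sqrt k * Nat.sqrt k ≤ Nat.sqrt k then
    X 0 ^ (k - Nat.sqrt k * Nat.sqrt k) * X 1 ^ (Nat.sqrt k - (k - Nat.sqrt k * Nat.sqrt k))
    else X 2 * X 0 ^ (k - Nat.sqrt k * Nat.sqrt k - Nat.sqrt k - 1) *
      X 1 ^ (2 * Nat.sqrt k - (k - Nat.sqrt k * Nat.sqrt k)) : MvPolynomial (Fin 3) ℝ).totalDegree ≤
    Nat.sqrt k
  split_ifs with h
  · refine (totalDegree_mul _ _).trans ?_
    have := hX 0 (k - Nat.sqrt k * Nat.sqrt k)
    have := hX 1 (Nat.sqrt k - (k - Nat.sqrt k * Nat.sqrt k))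
    omega
  · refine (totalDegree_mul _ _).trans ?_
    have h3 : (X 2 * X 0 ^ (k - Nat.sqrt k * Nat.sqrt k - Nat.sqrt k - 1) :
      MvPolynomial (Fin 3) ℝ).totalDegree ≤ 1 + (k - Nat.sqrt k * Nat.sqrt k - Nat.sqrt k - 1) := by
      refine (totalDegree_mul _ _).trans ?_
      have := hX 0 (k - Nat.sqrt k * Nat.sqrt k - Nat.sqrt k - 1)
      have h4 : (X 2 : MvPolynomial (Fin 3) ℝ).totalDegree = 1 := totalDegree_X _
      omega
    have := hX 1 (2 * Nat.sqrt k - (k - Nat.sqrt k * Nat.sqrt k))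
    omega

theorem sph_17416 (w : S2) : (w : E) 2 ^ 2 = 1 - (w : E) 0 ^ 2 - (w : E) 1 ^ 2 := by
  have h : ‖(w : E)‖ = 1 := mem_sphere_zero_iff_norm.1 w.2
  have h2 := EuclideanSpace.norm_sq_eq (w : E)
  rw [h, Fin.sum_univ_three] at h2
  simp only [Real.norm_eq_abs, sq_abs, one_pow] at h2
  linarith

def Sp_17416 (l : ℕ) (f : S2 → ℝ) : Prop :=
  ∃ c : ℕ → ℝ, ∀ w : S2, f w = ∑ k ∈ Finset.range ((l + 1) ^ 2), c k * ev (mon k) (w : E)

theorem Sp_zero_17416 (l : ℕ) : Sp_17416 l (fun _ => 0) :=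
  ⟨fun _ => 0, fun w => by simp⟩

theorem Sp_add_17416 {l : ℕ} {f g : S2 → ℝ} (hf : Sp_17416 l f) (hg : Sp_17416 l g) :
    Sp_17416 l (fun w => f w + g w) := by
  obtain ⟨c, hc⟩ := hf
  obtain ⟨d, hd⟩ := hg
  refine ⟨fun k => c k + d k, fun w => ?_⟩
  show f w + g w = _
  rw [hc w, hd w, ← Finset.sum_add_distrib]
  exact Finset.sum_congr rfl fun k _ => by ring

theorem Sp_smul_17416 {l : ℕ} {f : S2 → ℝ} (a : ℝ) (hf : Sp_17416 l f) :
    Sp_17416 l (fun w => a * f w) := by
  obtain ⟨c, hc⟩ := hf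
  refine ⟨fun k => a * c k, fun w => ?_⟩
  show a * f w = _
  rw [hc w, Finset.mul_sum]
  exact Finset.sum_congr rfl fun k _ => by ring

theorem Sp_mon_17416 {l k : ℕ} (h : k < (l + 1) ^ 2) : Sp_17416 l (fun w => ev (mon k) (w : E)) := by
  classical
  refine ⟨fun j => if j = k then 1 else 0, fun w => ?_⟩
  rw [Finset.sum_eq_single k]
  · simp
  · intro j _ hj
    simp [hj]
  · intro hk
    exact absurd (Finset.mem_range.2 h) hk

theorem mon_zero_17416 (p q : ℕ) : mon ((p + q) * (p + q) + p) = X 0 ^ p * X 1 ^ q := by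
  have h : Nat.sqrt ((p + q) * (p + q) + p) = p + q := Nat.sqrt_add_eq _ (by omega)
  unfold mon
  simp only [h]
  have h2 : (p + q) * (p + q) + p - (p + q) * (p + q) = p := by omega
  rw [h2, if_pos (by omega)]
  congr 2
  omega

theorem mon_one_17416 (p q : ℕ) : mon ((p + q + 1) * (p + q + 1) + (p + q + 2 + p)) =
    X 2 * X 0 ^ p * X 1 ^ q := by
  have h : Nat.sqrt ((p + q + 1) * (p + q + 1) + (p + q + 2 + p)) = p + q + 1 :=
    Nat.sqrt_add_eq _ (by omega)
  unfold mon
  simp only [h]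
  have h2 : (p + q + 1) * (p + q + 1) + (p + q + 2 + p) - (p + q + 1) * (p + q + 1) =
    p + q + 2 + p := by omega
  rw [h2, if_neg (by omega)]
  congr 2
  · congr 1
    omega
  · omega

theorem Sp_pow_17416 (l : ℕ) (s : ℕ) : ∀ p q : ℕ, p + q + s ≤ l →
    Sp_17416 l (fun w => (w : E) 0 ^ p * (w : E) 1 ^ q * (w : E) 2 ^ s) := by
  induction s using Nat.strong_induction_on with
  | _ s ih =>
    intro p q h
    match s, ih, h with
    | 0, _, h =>
      have h1 : (p + q) * (p + q) + p < (l + 1) ^ 2 := by nlinarith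
      have h2 := Sp_mon_17416 h1
      rw [mon_zero_17416] at h2
      refine (congrArg (Sp_17416 l) ?_).mp h2
      funext w
      simp [ev]
    | 1, _, h =>
      have h1 : (p + q + 1) * (p + q + 1) + (p + q + 2 + p) < (l + 1) ^ 2 := by nlinarith
      have h2 := Sp_mon_17416 h1
      rw [mon_one_17416] at h2
      refine (congrArg (Sp_17416 l) ?_).mp h2
      funext w
      simp [ev]
      ring
    | s + 2, ih, h =>
      have h1 := ih s (by omega) p q (by omega)
      have h2 := Sp_smul_17416 (-1) (ih s (by omega) (p + 2) q (by omega))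
      have h3 := Sp_smul_17416 (-1) (ih s (by omega) p (q + 2) (by omega))
      refine (congrArg (Sp_17416 l) ?_).mp (Sp_add_17416 h1 (Sp_add_17416 h2 h3))
      funext w
      have hw := sph_17416 w
      have e : (w : E) 2 ^ (s + 2) = (w : E) 2 ^ s * (1 - (w : E) 0 ^ 2 - (w : E) 1 ^ 2) := by
        rw [pow_add, hw]
      rw [e]
      ring

theorem Sp_sum_17416 {ι : Type} (l : ℕ) (t : Finset ι) (f : ι → S2 → ℝ)
    (h : ∀ i ∈ t, Sp_17416 l (f i)) : Sp_17416 l (fun w => ∑ i ∈ t, f i w) := by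
  classical
  induction t using Finset.induction_on with
  | empty =>
    refine (congrArg (Sp_17416 l) ?_).mp (Sp_zero_17416 l)
    funext w
    simp
  | insert i t hi ih =>
    refine (congrArg (Sp_17416 l) ?_).mp (Sp_add_17416 (h i (Finset.mem_insert_self _ _))
      (ih fun j hj => h j (Finset.mem_insert_of_mem hj)))
    funext w
    rw [Finset.sum_insert hi]

/-- On the sphere every polynomial of degree at most `l` is a combination of the first `(l+1)^2`
monomials of the enumeration. -/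
theorem exists_mon (P : MvPolynomial (Fin 3) ℝ) (l : ℕ) (hP : P.totalDegree ≤ l) :
    ∃ c : ℕ → ℝ, ∀ w : S2,
      ev P (w : E) = ∑ k ∈ Finset.range ((l + 1) ^ 2), c k * ev (mon k) (w : E) := by
  have key : Sp_17416 l (fun w => ∑ v ∈ P.support,
      coeff v P * ((w : E) 0 ^ (v 0) * (w : E) 1 ^ (v 1) * (w : E) 2 ^ (v 2))) := by
    refine Sp_sum_17416 l P.support (fun v w => coeff v P * ((w : E) 0 ^ (v 0) * (w : E) 1 ^ (v 1) *
      (w : E) 2 ^ (v 2))) fun v hv => ?_
    refine Sp_smul_17416 _ (Sp_pow_17416 l (v 2) (v 0) (v 1) ?_)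
    have h1 := le_totalDegree hv
    rw [Finsupp.sum_fintype _ _ (fun _ => rfl), Fin.sum_univ_three] at h1
    omega
  obtain ⟨c, hc⟩ := key
  refine ⟨c, fun w => ?_⟩
  rw [← hc w]
  unfold ev
  rw [MvPolynomial.eval_eq']
  exact Finset.sum_congr rfl fun v _ => by rw [Fin.prod_univ_three]

end

end Pool.Helper490.SH
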