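import Pool.Agent.Helper490.SH.Defs

set_option autoImplicit false

open MeasureTheory Set Metric Real MvPolynomial

namespace Pool.Helper490.SH

noncomputable section


theorem ev_add (P Q : MvPolynomial (Fin 3) ℝ) (x : E) : ev (P + Q) x = ev P x + ev Q x := by
  simp [ev]
theorem ev_mul (P Q : MvPolynomial (Fin 3) ℝ) (x : E) : ev (P * Q) x = ev P x * ev Q x := by
  simp [ev]
theorem ev_neg (P : MvPolynomial (Fin 3) ℝ) (x : E) : ev (-P) x = -ev P x := by
  simp [ev]
theorem ev_smul (c : ℝ) (P : MvPolynomial (Fin 3) ℝ) (x : E) : ev (c • P) x = c * ev P x := by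
  simp [ev, MvPolynomial.smul_eval]
theorem ev_zero (x : E) : ev 0 x = 0 := by
  simp [ev]
theorem ev_cont (P : MvPolynomial (Fin 3) ℝ) : Continuous (ev P) := by
  unfold ev
  exact (MvPolynomial.continuous_eval P).comp (by fun_prop)

theorem LP_zero (a b : Fin 3) : LP a b 0 = 0 := by simp [LP]

/-- polynomials as continuous functions on the sphere -/
def CPl : MvPolynomial (Fin 3) ℝ →ₗ[ℝ] C(S2, ℝ) where
  toFun P := ⟨fun w => ev P (w : E), (ev_cont P).comp continuous_subtype_val⟩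
  map_add' P Q := by
    ext w
    exact ev_add P Q _
  map_smul' c P := by
    ext w
    exact ev_smul c P _

/-- polynomials as elements of `L²` -/
def TL : MvPolynomial (Fin 3) ℝ →ₗ[ℝ] Lp ℝ 2 sig :=
  (ContinuousMap.toLp (E := ℝ) 2 sig ℝ).toLinearMap ∘ₗ CPl

theorem inner_toLp' (f g : C(S2, ℝ)) : inner ℝ (ContinuousMap.toLp (E := ℝ) 2 sig ℝ f)
    (ContinuousMap.toLp (E := ℝ) 2 sig ℝ g) = ∫ w, f w * g w ∂sig := by
  rw [ContinuousMap.inner_toLp]
  apply integral_congr_ae
  filter_upwards with w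
  simp [mul_comm]

theorem inner_TL (P Q : MvPolynomial (Fin 3) ℝ) :
    inner ℝ (TL P) (TL Q) = ∫ w : S2, ev P (w : E) * ev Q (w : E) ∂sig :=
  inner_toLp' (CPl P) (CPl Q)

theorem int_cont (v : E → ℝ) (hv : Continuous v) : Integrable (fun w : S2 => v (w : E)) sig :=
  Continuous.integrable_of_hasCompactSupport (hv.comp continuous_subtype_val)
    (HasCompactSupport.of_compactSpace _)

theorem int_add3 (f g h : S2 → ℝ) (hf : Integrable f sig) (hg : Integrable g sig)
    (hh : Integrable h sig) :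
    ∫ w, (f w + g w + h w) ∂sig = ∫ w, f w ∂sig + ∫ w, g w ∂sig + ∫ w, h w ∂sig := by
  have h1 : Integrable (fun w => f w + g w) sig := hf.add hg
  rw [integral_add h1 hh, integral_add hf hg]

theorem LF_cont (a b : Fin 3) (v : E → ℝ) (hv : ContDiff ℝ 1 v) : Continuous (LF a b v) := by
  unfold LF
  have h1 : Continuous (fun x => fderiv ℝ v x) := hv.continuous_fderiv (by norm_num)
  have h2 : ∀ i : Fin 3, Continuous (fun x : E => fderiv ℝ v x (EuclideanSpace.single i 1)) :=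
    fun i => h1.clm_apply continuous_const
  have h3 : ∀ i : Fin 3, Continuous (fun x : E => x i) := fun i => by fun_prop
  exact ((h3 a).mul (h2 b)).sub ((h3 b).mul (h2 a))

theorem LF_mul (a b : Fin 3) (v g : E → ℝ) (hv : ContDiff ℝ 1 v) (hg : ContDiff ℝ 1 g) (x : E) :
    LF a b (fun x => v x * g x) x = LF a b v x * g x + v x * LF a b g x := by
  have h1 : DifferentiableAt ℝ v x := hv.differentiable (by norm_num) x
  have h2 : DifferentiableAt ℝ g x := hg.differentiable (by norm_num) x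
  have h3 : fderiv ℝ (fun x => v x * g x) x = v x • fderiv ℝ g x + g x • fderiv ℝ v x :=
    (h1.hasFDerivAt.mul h2.hasFDerivAt).fderiv
  unfold LF
  rw [h3]
  simp only [add_apply, smul_apply, smul_eq_mul]
  ring

section
variable
    (hrot : ∀ (a b : Fin 3) (f : E → ℝ), ContDiff ℝ 1 f → ∫ w : S2, LF a b f (w : E) ∂sig = 0)
    (hLFev : ∀ (a b : Fin 3) (P : MvPolynomial (Fin 3) ℝ) (x : E), LF a b (ev P) x = ev (LP a b P) x)
    (hcd : ∀ P : MvPolynomial (Fin 3) ℝ, ContDiff ℝ (⊤ : ℕ∞) (ev P))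

include hrot hLFev hcd

theorem parts (a b : Fin 3) (v : E → ℝ) (hv : ContDiff ℝ 1 v) (P : MvPolynomial (Fin 3) ℝ) :
    ∫ w : S2, LF a b v (w : E) * ev P (w : E) ∂sig = - ∫ w : S2, v (w : E) * ev (LP a b P) (w : E) ∂sig := by
  have h1 : ContDiff ℝ 1 (ev P) := (hcd P).of_le (by exact_mod_cast le_top)
  have h2 := hrot a b (fun x => v x * ev P x) (hv.mul h1)
  have h3 : ∀ w : S2, LF a b (fun x => v x * ev P x) (w : E) =
      LF a b v (w : E) * ev P (w : E) + v (w : E) * ev (LP a b P) (w : E) := by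
    intro w
    rw [LF_mul a b v (ev P) hv h1, hLFev]
  simp only [h3] at h2
  rw [integral_add] at h2
  · linarith
  · exact int_cont (fun x => LF a b v x * ev P x) ((LF_cont a b v hv).mul (ev_cont P))
  · exact int_cont (fun x => v x * ev (LP a b P) x) (hv.continuous.mul (ev_cont _))

theorem green (v : E → ℝ) (hv : ContDiff ℝ 1 v) (P : MvPolynomial (Fin 3) ℝ) :
    ∫ w : S2, (LF 0 1 v (w : E) * LF 0 1 (ev P) (w : E) +
          LF 0 2 v (w : E) * LF 0 2 (ev P) (w : E) +
          LF 1 2 v (w : E) * LF 1 2 (ev P) (w : E)) ∂sig =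
      ∫ w : S2, v (w : E) * ev (Lam P) (w : E) ∂sig := by
  have h1 : ∀ a b : Fin 3, ∫ w : S2, LF a b v (w : E) * LF a b (ev P) (w : E) ∂sig =
      - ∫ w : S2, v (w : E) * ev (LP a b (LP a b P)) (w : E) ∂sig := by
    intro a b
    rw [← parts hrot hLFev hcd a b v hv (LP a b P)]
    simp only [hLFev]
  have hi : ∀ a b : Fin 3, Integrable (fun w : S2 => LF a b v (w : E) * LF a b (ev P) (w : E)) sig := by
    intro a b
    simp only [hLFev]
    exact int_cont (fun x => LF a b v x * ev (LP a b P) x) ((LF_cont a b v hv).mul (ev_cont _))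
  have hi2 : ∀ a b : Fin 3, Integrable (fun w : S2 => v (w : E) * ev (LP a b (LP a b P)) (w : E)) sig := by
    intro a b
    exact int_cont (fun x => v x * ev (LP a b (LP a b P)) x) (hv.continuous.mul (ev_cont _))
  rw [int_add3 _ _ _ (hi 0 1) (hi 0 2) (hi 1 2), h1, h1, h1]
  have h2 : ∀ w : S2, v (w : E) * ev (Lam P) (w : E) =
      -(v (w : E) * ev (LP 0 1 (LP 0 1 P)) (w : E) + v (w : E) * ev (LP 0 2 (LP 0 2 P)) (w : E) +
        v (w : E) * ev (LP 1 2 (LP 1 2 P)) (w : E)) := by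
    intro w
    rw [Lam, ev_neg, ev_add, ev_add]
    ring
  simp only [h2]
  rw [integral_neg, int_add3 _ _ _ (hi2 0 1) (hi2 0 2) (hi2 1 2)]
  ring

theorem lam_symm (P Q : MvPolynomial (Fin 3) ℝ) :
    ∫ w : S2, ev P (w : E) * ev (Lam Q) (w : E) ∂sig =
      ∫ w : S2, ev Q (w : E) * ev (Lam P) (w : E) ∂sig := by
  have h1 : ∀ P, ContDiff ℝ 1 (ev P) := fun P => (hcd P).of_le (by exact_mod_cast le_top)
  rw [← green hrot hLFev hcd (ev P) (h1 P) Q, ← green hrot hLFev hcd (ev Q) (h1 Q) P]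
  simp only [mul_comm]

end

theorem Y_exists (k : ℕ) : ∃ P ∈ Submodule.span ℝ (mon '' Set.Iic k),
    TL P = InnerProductSpace.gramSchmidtNormed ℝ (fun j => TL (mon j)) k := by
  have h1 : InnerProductSpace.gramSchmidtNormed ℝ (fun j => TL (mon j)) k ∈
      Submodule.span ℝ ((fun j => TL (mon j)) '' Set.Iic k) := by
    unfold InnerProductSpace.gramSchmidtNormed
    exact Submodule.smul_mem _ _ (InnerProductSpace.gramSchmidt_mem_span ℝ _ le_rfl)
  have h2 : ((fun j => TL (mon j)) '' Set.Iic k) = TL '' (mon '' Set.Iic k) := by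
    rw [Set.image_image]
  rw [h2, ← Submodule.map_span] at h1
  exact h1

theorem Y_deg (hmonD : ∀ k : ℕ, (mon k).totalDegree ≤ Nat.sqrt k) (k : ℕ)
    (P : MvPolynomial (Fin 3) ℝ) (hP : P ∈ Submodule.span ℝ (mon '' Set.Iic k)) :
    P.totalDegree ≤ Nat.sqrt k := by
  have h1 : Submodule.span ℝ (mon '' Set.Iic k) ≤
      MvPolynomial.restrictTotalDegree (Fin 3) ℝ (Nat.sqrt k) := by
    rw [Submodule.span_le]
    rintro _ ⟨j, hj, rfl⟩
    show mon j ∈ MvPolynomial.restrictTotalDegree (Fin 3) ℝ (Nat.sqrt k)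
    rw [MvPolynomial.mem_restrictTotalDegree]
    exact (hmonD j).trans (Nat.sqrt_le_sqrt hj)
  exact (MvPolynomial.mem_restrictTotalDegree _ _ _).1 (h1 hP)

theorem low_orth (hmon : ∀ (P : MvPolynomial (Fin 3) ℝ) (l : ℕ), P.totalDegree ≤ l →
      ∃ c : ℕ → ℝ, ∀ w : S2,
        ev P (w : E) = ∑ k ∈ Finset.range ((l + 1) ^ 2), c k * ev (mon k) (w : E))
    (k : ℕ) (Y : MvPolynomial (Fin 3) ℝ)
    (hY : TL Y = InnerProductSpace.gramSchmidtNormed ℝ (fun j => TL (mon j)) k)
    (R : MvPolynomial (Fin 3) ℝ) (hR : R = 0 ∨ R.totalDegree < Nat.sqrt k) :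
    ∫ w : S2, ev R (w : E) * ev Y (w : E) ∂sig = 0 := by
  rcases hR with hR | hR
  · subst hR
    simp [ev_zero]
  · obtain ⟨c, hc⟩ := hmon R (Nat.sqrt k - 1) (by omega)
    have hl : Nat.sqrt k - 1 + 1 = Nat.sqrt k := by omega
    rw [hl] at hc
    have h1 : TL R = ∑ j ∈ Finset.range (Nat.sqrt k ^ 2), c j • TL (mon j) := by
      have h2 : CPl R = ∑ j ∈ Finset.range (Nat.sqrt k ^ 2), c j • CPl (mon j) := by
        ext w
        rw [ContinuousMap.sum_apply]
        exact hc w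
      show (ContinuousMap.toLp (E := ℝ) 2 sig ℝ) (CPl R) = _
      rw [h2, map_sum]
      apply Finset.sum_congr rfl
      intro j _
      rw [map_smul]
      rfl
    rw [← inner_TL, h1, hY, sum_inner]
    apply Finset.sum_eq_zero
    intro j hj
    have hjk : j < k := by
      have h3 := Finset.mem_range.1 hj
      have h4 := Nat.sqrt_le k
      nlinarith
    have h5 := InnerProductSpace.gramSchmidt_inv_triangular ℝ (fun j => TL (mon j)) hjk
    unfold InnerProductSpace.gramSchmidtNormed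
    rw [real_inner_smul_left, real_inner_smul_right, real_inner_comm]
    rw [h5]
    simp

theorem Lam_deg (hLPdeg : ∀ (a b : Fin 3) (P : MvPolynomial (Fin 3) ℝ), (LP a b P).totalDegree ≤ P.totalDegree)
    (P : MvPolynomial (Fin 3) ℝ) : (Lam P).totalDegree ≤ P.totalDegree := by
  have h1 : ∀ a b, (LP a b (LP a b P)).totalDegree ≤ P.totalDegree := fun a b =>
    (hLPdeg a b _).trans (hLPdeg a b P)
  unfold Lam
  rw [MvPolynomial.totalDegree_neg]
  refine (MvPolynomial.totalDegree_add _ _).trans (max_le ?_ (h1 1 2))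
  exact (MvPolynomial.totalDegree_add _ _).trans (max_le (h1 0 1) (h1 0 2))

theorem poly_mem (hmon : ∀ (P : MvPolynomial (Fin 3) ℝ) (l : ℕ), P.totalDegree ≤ l →
      ∃ c : ℕ → ℝ, ∀ w : S2,
        ev P (w : E) = ∑ k ∈ Finset.range ((l + 1) ^ 2), c k * ev (mon k) (w : E))
    (P : MvPolynomial (Fin 3) ℝ) :
    TL P ∈ Submodule.span ℝ (Set.range (fun i : {i | InnerProductSpace.gramSchmidtNormed ℝ
      (fun j => TL (mon j)) i ≠ 0} => InnerProductSpace.gramSchmidtNormed ℝ
      (fun j => TL (mon j)) i)) := by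
  have h1 : ∀ k, TL (mon k) ∈ Submodule.span ℝ (Set.range (fun i : {i | InnerProductSpace.gramSchmidtNormed ℝ
      (fun j => TL (mon j)) i ≠ 0} => InnerProductSpace.gramSchmidtNormed ℝ
      (fun j => TL (mon j)) i)) := by
    intro k
    have h2 : TL (mon k) ∈ Submodule.span ℝ (Set.range (InnerProductSpace.gramSchmidtNormed ℝ
      (fun j => TL (mon j)))) := by
      rw [InnerProductSpace.span_gramSchmidtNormed_range, InnerProductSpace.span_gramSchmidt]
      exact Submodule.subset_span ⟨k, rfl⟩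
    refine Submodule.span_le.2 ?_ h2
    rintro _ ⟨i, rfl⟩
    by_cases hi : InnerProductSpace.gramSchmidtNormed ℝ (fun j => TL (mon j)) i = 0
    · show InnerProductSpace.gramSchmidtNormed ℝ (fun j => TL (mon j)) i ∈ Submodule.span ℝ _
      rw [hi]
      exact Submodule.zero_mem _
    · exact Submodule.subset_span ⟨⟨i, hi⟩, rfl⟩
  obtain ⟨c, hc⟩ := hmon P P.totalDegree le_rfl
  have h3 : TL P = ∑ j ∈ Finset.range ((P.totalDegree + 1) ^ 2), c j • TL (mon j) := by
    have h2 : CPl P = ∑ j ∈ Finset.range ((P.totalDegree + 1) ^ 2), c j • CPl (mon j) := by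
      ext w
      rw [ContinuousMap.sum_apply]
      exact hc w
    show (ContinuousMap.toLp (E := ℝ) 2 sig ℝ) (CPl P) = _
    rw [h2, map_sum]
    apply Finset.sum_congr rfl
    intro j _
    rw [map_smul]
    rfl
  rw [h3]
  exact Submodule.sum_mem _ fun j _ => Submodule.smul_mem _ _ (h1 j)

theorem dense_top (hdens : ∀ (f : E → ℝ), Continuous f → ∀ ε : ℝ, 0 < ε →
      ∃ P : MvPolynomial (Fin 3) ℝ, ∀ w : S2, |f (w : E) - ev P (w : E)| < ε)
    (M : Submodule ℝ (Lp ℝ 2 sig)) (hM : ∀ P, TL P ∈ M) : ⊤ ≤ M.topologicalClosure := by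
  have h1 : ∀ g : C(S2, ℝ), ContinuousMap.toLp (E := ℝ) 2 sig ℝ g ∈ M.topologicalClosure := by
    intro g
    have h2 : g ∈ closure (Set.range CPl) := by
      rw [Metric.mem_closure_iff]
      intro ε hε
      obtain ⟨G, hG⟩ := ContinuousMap.exists_restrict_eq (isClosed_sphere (x := (0 : E)) (ε := 1)) g
      obtain ⟨P, hP⟩ := hdens G G.continuous ε hε
      refine ⟨CPl P, ⟨P, rfl⟩, ?_⟩
      rw [ContinuousMap.dist_lt_iff hε]
      intro w
      have h3 : g w = G (w : E) := by rw [← hG]; rfl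
      rw [Real.dist_eq, h3]
      exact hP w
    have h4 : ContinuousMap.toLp (E := ℝ) 2 sig ℝ g ∈
        closure ((ContinuousMap.toLp (E := ℝ) 2 sig ℝ) '' Set.range CPl) :=
      image_closure_subset_closure_image (ContinuousMap.toLp (E := ℝ) 2 sig ℝ).continuous
        ⟨g, h2, rfl⟩
    refine closure_mono ?_ h4
    rintro _ ⟨_, ⟨P, rfl⟩, rfl⟩
    exact hM P
  intro y _
  have h5 : DenseRange (ContinuousMap.toLp (E := ℝ) 2 sig ℝ) :=
    ContinuousMap.toLp_denseRange ℝ sig ℝ (by norm_num)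
  have h6 : y ∈ closure (Set.range (ContinuousMap.toLp (E := ℝ) 2 sig ℝ)) := h5 y
  have h7 : closure (Set.range (ContinuousMap.toLp (E := ℝ) 2 sig ℝ)) ⊆
      (M.topologicalClosure : Set (Lp ℝ 2 sig)) := by
    apply closure_minimal _ M.isClosed_topologicalClosure
    rintro _ ⟨g, rfl⟩
    exact h1 g
  exact h7 h6

/-- Spherical harmonics: an orthonormal family of polynomials on the sphere, with degrees, the angular
Green identity, and the Parseval identity. -/
theorem exists_harmonics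
    (hrot : ∀ (a b : Fin 3) (f : E → ℝ), ContDiff ℝ 1 f → ∫ w : S2, LF a b f (w : E) ∂sig = 0)
    (hLam : ∀ (P : MvPolynomial (Fin 3) ℝ) (l : ℕ), P.totalDegree ≤ l →
      ∃ R : MvPolynomial (Fin 3) ℝ, (R = 0 ∨ R.totalDegree < l) ∧
        ∀ w : S2, ev (Lam P) (w : E) = (l : ℝ) * (l + 1) * ev P (w : E) + ev R (w : E))
    (hLPdeg : ∀ (a b : Fin 3) (P : MvPolynomial (Fin 3) ℝ), (LP a b P).totalDegree ≤ P.totalDegree)
    (hLFev : ∀ (a b : Fin 3) (P : MvPolynomial (Fin 3) ℝ) (x : E), LF a b (ev P) x = ev (LP a b P) x)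
    (hcd : ∀ P : MvPolynomial (Fin 3) ℝ, ContDiff ℝ (⊤ : ℕ∞) (ev P))
    (hmonD : ∀ k : ℕ, (mon k).totalDegree ≤ Nat.sqrt k)
    (hmon : ∀ (P : MvPolynomial (Fin 3) ℝ) (l : ℕ), P.totalDegree ≤ l →
      ∃ c : ℕ → ℝ, ∀ w : S2,
        ev P (w : E) = ∑ k ∈ Finset.range ((l + 1) ^ 2), c k * ev (mon k) (w : E))
    (hdens : ∀ (f : E → ℝ), Continuous f → ∀ ε : ℝ, 0 < ε →
      ∃ P : MvPolynomial (Fin 3) ℝ, ∀ w : S2, |f (w : E) - ev P (w : E)| < ε) :
    ∃ (I : Set ℕ) (Y : ℕ → MvPolynomial (Fin 3) ℝ),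
      (∀ i ∈ I, ∀ j ∈ I, ∫ w : S2, ev (Y i) (w : E) * ev (Y j) (w : E) ∂sig = if i = j then 1 else 0) ∧
      (∀ i ∈ I, ∀ v : E → ℝ, ContDiff ℝ 1 v →
        ∫ w : S2, (LF 0 1 v (w : E) * LF 0 1 (ev (Y i)) (w : E) +
          LF 0 2 v (w : E) * LF 0 2 (ev (Y i)) (w : E) +
          LF 1 2 v (w : E) * LF 1 2 (ev (Y i)) (w : E)) ∂sig =
        (Nat.sqrt i : ℝ) * (Nat.sqrt i + 1) * ∫ w : S2, v (w : E) * ev (Y i) (w : E) ∂sig) ∧
      (∀ v : E → ℝ, Continuous v →
        HasSum (fun i : I => (∫ w : S2, v (w : E) * ev (Y i) (w : E) ∂sig) ^ 2)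
          (∫ w : S2, v (w : E) ^ 2 ∂sig)) := by
  choose Y hYs hYT using Y_exists
  refine ⟨{i | InnerProductSpace.gramSchmidtNormed ℝ (fun j => TL (mon j)) i ≠ 0}, Y, ?_, ?_, ?_⟩
  · intro i hi j hj
    have hON := InnerProductSpace.gramSchmidtNormed_orthonormal' (𝕜 := ℝ) (fun j => TL (mon j))
    have h1 := (orthonormal_iff_ite.1 hON) ⟨i, hi⟩ ⟨j, hj⟩
    rw [← inner_TL, hYT, hYT]
    simp only [Subtype.mk.injEq] at h1
    exact h1
  · intro k hk v hv
    rw [green hrot hLFev hcd v hv (Y k)]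
    have hdeg := Y_deg hmonD k (Y k) (hYs k)
    obtain ⟨R, hR, hR2⟩ := hLam (Y k) (Nat.sqrt k) hdeg
    have hRY := low_orth hmon k (Y k) (hYT k) R hR
    have hLR : Lam R = 0 ∨ (Lam R).totalDegree < Nat.sqrt k := by
      rcases hR with hR | hR
      · left
        rw [hR, Lam, LP_zero, LP_zero, LP_zero]
        simp [LP_zero]
      · right
        exact lt_of_le_of_lt (Lam_deg hLPdeg R) hR
    have hLRY := low_orth hmon k (Y k) (hYT k) (Lam R) hLR
    have hsym := lam_symm hrot hLFev hcd R (Y k)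
    have hRR : ∫ w : S2, ev R (w : E) * ev R (w : E) ∂sig = 0 := by
      have h1 : ∀ w : S2, ev R (w : E) * ev (Lam (Y k)) (w : E) =
          ((Nat.sqrt k : ℝ) * (Nat.sqrt k + 1)) * (ev R (w : E) * ev (Y k) (w : E)) +
            ev R (w : E) * ev R (w : E) := by
        intro w
        rw [hR2 w]; ring
      simp only [h1] at hsym
      rw [integral_add, integral_const_mul, hRY] at hsym
      · have h2 : ∫ w : S2, ev (Y k) (w : E) * ev (Lam R) (w : E) ∂sig = 0 := by
          rw [← hLRY]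
          simp only [mul_comm]
        rw [h2] at hsym
        linarith
      · exact int_cont (fun x => ((Nat.sqrt k : ℝ) * (Nat.sqrt k + 1)) * (ev R x * ev (Y k) x))
          (continuous_const.mul ((ev_cont R).mul (ev_cont (Y k))))
      · exact int_cont (fun x => ev R x * ev R x) ((ev_cont R).mul (ev_cont R))
    have hRae : ∀ᵐ w ∂sig, ev R ((w : S2) : E) = 0 := by
      have h1 := (integral_eq_zero_iff_of_nonneg (f := fun w : S2 => ev R (w : E) * ev R (w : E))
        (fun w => mul_self_nonneg _)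
        (int_cont (fun x => ev R x * ev R x) ((ev_cont R).mul (ev_cont R)))).1 hRR
      filter_upwards [h1] with w hw
      exact mul_self_eq_zero.1 hw
    rw [← integral_const_mul]
    apply integral_congr_ae
    filter_upwards [hRae] with w hw
    rw [hR2 w, hw]; ring
  · intro v hv
    have hON := InnerProductSpace.gramSchmidtNormed_orthonormal' (𝕜 := ℝ) (fun j => TL (mon j))
    have hsp := dense_top hdens _ (poly_mem hmon)
    have hb := (HilbertBasis.mk hON hsp).hasSum_inner_mul_inner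
      (ContinuousMap.toLp (E := ℝ) 2 sig ℝ ⟨fun w : S2 => v (w : E), hv.comp continuous_subtype_val⟩)
      (ContinuousMap.toLp (E := ℝ) 2 sig ℝ ⟨fun w : S2 => v (w : E), hv.comp continuous_subtype_val⟩)
    rw [HilbertBasis.coe_mk, inner_toLp'] at hb
    have h1 : ∫ w : S2, v (w : E) ^ 2 ∂sig = ∫ w : S2, v (w : E) * v (w : E) ∂sig := by
      simp only [sq]
    rw [h1]
    convert! hb using 1
    funext i
    have h2 : inner ℝ (ContinuousMap.toLp (E := ℝ) 2 sig ℝ
        ⟨fun w : S2 => v (w : E), hv.comp continuous_subtype_val⟩)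
        (InnerProductSpace.gramSchmidtNormed ℝ (fun j => TL (mon j)) i) =
        ∫ w : S2, v (w : E) * ev (Y i) (w : E) ∂sig := by
      rw [← hYT]
      exact inner_toLp' _ (CPl (Y i))
    rw [real_inner_comm _ (InnerProductSpace.gramSchmidtNormed ℝ (fun j => TL (mon j)) (i : ℕ)), h2, sq]

end

end Pool.Helper490.SH
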