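import Pool.Agent.Helper490.SH.Defs

set_option autoImplicit false

open MeasureTheory Set Metric Real MvPolynomial

namespace Pool.Helper490.SH

noncomputable section


/-- Lebesgue measure on the half line as a subtype -/
def cIoi : Measure (Ioi (0:ℝ)) := (volume : Measure ℝ).comap Subtype.val

theorem cIoi_eq : Measure.volumeIoiPow 0 = cIoi := by
  unfold Measure.volumeIoiPow cIoi
  simp

instance : SigmaFinite cIoi := by
  rw [← cIoi_eq]
  infer_instance

theorem cIoi_mp : MeasurePreserving (Subtype.val : Ioi (0:ℝ) → ℝ) cIoi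
    (volume.restrict (Ioi (0:ℝ))) :=
  ⟨measurable_subtype_coe, map_comap_subtype_coe measurableSet_Ioi volume⟩

theorem prod_pow2 : (sig.prod cIoi).withDensity
    (fun p : S2 × Ioi (0:ℝ) => ENNReal.ofReal (p.2.1 ^ 2)) = sig.prod (Measure.volumeIoiPow 2) := by
  unfold Measure.volumeIoiPow
  have h := prod_withDensity_right (μ := sig) (ν := cIoi)
    (g := fun r : Ioi (0:ℝ) => ENNReal.ofReal (r.1 ^ 2)) (by fun_prop)
  exact h.symm

theorem phi_emb : MeasurableEmbedding (Prod.map id Subtype.val : S2 × Ioi (0:ℝ) → S2 × ℝ) :=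
  MeasurableEmbedding.id.prodMap (MeasurableEmbedding.subtype_coe measurableSet_Ioi)

theorem phi_mp : MeasurePreserving (Prod.map id Subtype.val : S2 × Ioi (0:ℝ) → S2 × ℝ)
    (sig.prod cIoi) (sig.prod (volume.restrict (Ioi (0:ℝ)))) :=
  (MeasurePreserving.id sig).prod cIoi_mp

theorem hom_mp : MeasurePreserving (homeomorphUnitSphereProd E)
    ((volume : Measure E).comap Subtype.val) (sig.prod (Measure.volumeIoiPow 2)) := by
  have h := (volume : Measure E).measurePreserving_homeomorphUnitSphereProd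
  have e : Module.finrank ℝ E - 1 = 2 := by
    rw [finrank_euclideanSpace_fin]
  rw [e] at h
  exact h

/-- Integration in polar coordinates. -/
theorem polar_int (F : E → ℝ) (hF : Integrable F) :
    Integrable (fun p : S2 × ℝ => p.2 ^ 2 * F (p.2 • (p.1 : E)))
      (sig.prod (volume.restrict (Ioi (0:ℝ)))) ∧
    ∫ x, F x = ∫ r in Ioi (0:ℝ), r ^ 2 * ∫ w : S2, F (r • (w : E)) ∂sig := by
  set H : S2 × ℝ → ℝ := fun p => p.2 ^ 2 * F (p.2 • (p.1 : E)) with hH
  set F' : S2 × Ioi (0:ℝ) → ℝ := fun q => F (q.2.1 • (q.1 : E)) with hF'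
  have hcomp : ∀ x : ({0}ᶜ : Set E), F' (homeomorphUnitSphereProd E x) = F x := by
    intro x
    rw [hF']
    simp only [homeomorphUnitSphereProd_apply_fst_coe, homeomorphUnitSphereProd_apply_snd_coe]
    congr 1
    have hx : ‖(x : E)‖ ≠ 0 := norm_ne_zero_iff.mpr x.2
    rw [smul_smul, mul_inv_cancel₀ hx, one_smul]
  have hemb := (homeomorphUnitSphereProd E).measurableEmbedding
  -- integrability of F'
  have hi1 : Integrable (fun x : ({0}ᶜ : Set E) => F x) ((volume : Measure E).comap Subtype.val) := by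
    have h1 : IntegrableOn F ({0}ᶜ : Set E) volume := hF.integrableOn
    rw [integrableOn_iff_comap_subtypeVal (measurableSet_singleton _).compl] at h1
    exact h1
  have hi2 : Integrable F' (sig.prod (Measure.volumeIoiPow 2)) := by
    rw [← hom_mp.integrable_comp_emb hemb]
    exact hi1.congr (Filter.Eventually.of_forall fun x => (hcomp x).symm)
  have hint2 : ∫ x, F x = ∫ q, F' q ∂(sig.prod (Measure.volumeIoiPow 2)) := by
    rw [← hom_mp.integral_comp hemb]
    have h1 : ∫ x : ({0}ᶜ : Set E), F' (homeomorphUnitSphereProd E x)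
        ∂((volume : Measure E).comap Subtype.val) =
        ∫ x : ({0}ᶜ : Set E), F x ∂((volume : Measure E).comap Subtype.val) :=
      integral_congr_ae (Filter.Eventually.of_forall fun x => hcomp x)
    rw [h1, integral_subtype_comap (measurableSet_singleton _).compl fun x => F x,
      restrict_compl_singleton]
  have htr : ∀ q : S2 × Ioi (0:ℝ), (ENNReal.ofReal (q.2.1 ^ 2)).toReal • F' q =
      (H ∘ (Prod.map id Subtype.val : S2 × Ioi (0:ℝ) → S2 × ℝ)) q := by
    intro q
    rw [ENNReal.toReal_ofReal (by positivity), smul_eq_mul]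
    rfl
  have hdm : Measurable (fun p : S2 × Ioi (0:ℝ) => ENNReal.ofReal (p.2.1 ^ 2)) := by fun_prop
  have hlt : ∀ᵐ p ∂(sig.prod cIoi), ENNReal.ofReal ((p : S2 × Ioi (0:ℝ)).2.1 ^ 2) < ⊤ :=
    Filter.Eventually.of_forall fun p => ENNReal.ofReal_lt_top
  have hi3 : Integrable H (sig.prod (volume.restrict (Ioi (0:ℝ)))) := by
    rw [← phi_mp.integrable_comp_emb phi_emb]
    rw [← prod_pow2, integrable_withDensity_iff_integrable_smul' hdm hlt] at hi2
    exact hi2.congr (Filter.Eventually.of_forall htr)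
  have hint3 : ∫ q, F' q ∂(sig.prod (Measure.volumeIoiPow 2)) =
      ∫ p, H p ∂(sig.prod (volume.restrict (Ioi (0:ℝ)))) := by
    rw [← phi_mp.integral_comp phi_emb, ← prod_pow2,
      integral_withDensity_eq_integral_toReal_smul hdm hlt]
    exact integral_congr_ae (Filter.Eventually.of_forall htr)
  refine ⟨hi3, ?_⟩
  rw [hint2, hint3, integral_prod_symm H hi3]
  refine integral_congr_ae (Filter.Eventually.of_forall fun r => ?_)
  simp only [hH]
  rw [integral_const_mul]

end

end Pool.Helper490.SH
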