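import Pool.Agent.Helper490.SH.Defs

set_option autoImplicit false

open MeasureTheory Set Metric Real MvPolynomial

namespace Pool.Helper490.SH

noncomputable section


/-- integrability in the logarithmic variable -/
theorem cs_int (F : ℝ → ℝ) (hF : Continuous F) (C R c : ℝ) (hR : 0 < R) (hc : 0 < c)
    (hb : ∀ r, |F r| ≤ C) (h0 : ∀ r, R ≤ r → F r = 0) :
    Integrable (fun x => Real.exp (c * x) * F (Real.exp x)) := by
  have hcont : Continuous (fun x => Real.exp (c * x) * F (Real.exp x)) :=
    (Real.continuous_exp.comp (continuous_const.mul continuous_id)).mul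
      (hF.comp Real.continuous_exp)
  have hsupp : Function.support (fun x => Real.exp (c * x) * F (Real.exp x)) ⊆
      Iic (Real.log R) := by
    intro x hx
    by_contra hcon
    rw [mem_Iic, not_le] at hcon
    refine hx ?_
    show Real.exp (c * x) * F (Real.exp x) = 0
    rw [h0 _ ((Real.log_lt_iff_lt_exp hR).1 hcon).le, mul_zero]
  rw [← integrableOn_iff_integrable_of_support_subset hsupp]
  refine Integrable.mono' ((integrableOn_exp_mul_Iic hc (Real.log R)).const_mul C)
    hcont.aestronglyMeasurable (Filter.Eventually.of_forall fun x => ?_)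
  rw [norm_mul, Real.norm_eq_abs, Real.norm_eq_abs, abs_of_pos (Real.exp_pos _), mul_comm]
  exact mul_le_mul_of_nonneg_right (hb _) (Real.exp_pos _).le

theorem cs_radial (a b : ℝ → ℝ) (hb : Continuous b) (hder : ∀ r, HasDerivAt a (b r) r)
    (Ca Cb R : ℝ) (hR : 0 < R) (hCa : ∀ r, |a r| ≤ Ca) (hCb : ∀ r, |b r| ≤ Cb)
    (ha0 : ∀ r, R ≤ r → a r = 0) (hb0 : ∀ r, R ≤ r → b r = 0) (g h : ℝ → ℝ)
    (hg : g = fun x => Real.exp (x / 2) * a (Real.exp x))
    (hh : h = fun x => Real.exp (x / 2) * a (Real.exp x) / 2 +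
      Real.exp (3 * x / 2) * b (Real.exp x)) :
    Continuous g ∧ Continuous h ∧ (∀ x, HasDerivAt g (h x) x) ∧
    MemLp g 2 ∧ MemLp h 2 ∧
    Integrable (fun x => Real.exp (3 * x) * b (Real.exp x) ^ 2) ∧
    Integrable (fun x => Real.exp x * a (Real.exp x) ^ 2) ∧
    (∫ x, h x ^ 2) = (∫ x, Real.exp (3 * x) * b (Real.exp x) ^ 2) -
      (1 / 4) * ∫ x, Real.exp x * a (Real.exp x) ^ 2 := by
  have ha : Continuous a := continuous_iff_continuousAt.2 fun r => (hder r).continuousAt
  have hCa0 : 0 ≤ Ca := (abs_nonneg _).trans (hCa 0)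
  have hCb0 : 0 ≤ Cb := (abs_nonneg _).trans (hCb 0)
  have I1 : Integrable (fun x => Real.exp x * a (Real.exp x) ^ 2) := by
    have := cs_int (fun r => a r ^ 2) (ha.pow 2) (Ca ^ 2) R 1 hR one_pos
      (fun r => by rw [abs_pow]; exact pow_le_pow_left₀ (abs_nonneg _) (hCa r) 2)
      (fun r hr => by
        show a r ^ 2 = 0
        rw [ha0 r hr]; norm_num)
    simpa using this
  have I2 : Integrable (fun x => Real.exp (3 * x) * b (Real.exp x) ^ 2) :=
    cs_int (fun r => b r ^ 2) (hb.pow 2) (Cb ^ 2) R 3 hR (by norm_num)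
      (fun r => by rw [abs_pow]; exact pow_le_pow_left₀ (abs_nonneg _) (hCb r) 2)
      (fun r hr => by
        show b r ^ 2 = 0
        rw [hb0 r hr]; norm_num)
  have I3 : Integrable (fun x => Real.exp (2 * x) * (a (Real.exp x) * b (Real.exp x))) :=
    cs_int (fun r => a r * b r) (ha.mul hb) (Ca * Cb) R 2 hR (by norm_num)
      (fun r => by rw [abs_mul]; exact mul_le_mul (hCa r) (hCb r) (abs_nonneg _) hCa0)
      (fun r hr => by
        show a r * b r = 0
        rw [hb0 r hr, mul_zero])
  have x1 : ∀ x : ℝ, Real.exp (x / 2) * Real.exp (x / 2) = Real.exp x := fun x => by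
    rw [← Real.exp_add]; congr 1; ring
  have x2 : ∀ x : ℝ, Real.exp (x / 2) * Real.exp (3 * x / 2) = Real.exp (2 * x) := fun x => by
    rw [← Real.exp_add]; congr 1; ring
  have x3 : ∀ x : ℝ, Real.exp (3 * x / 2) * Real.exp (3 * x / 2) = Real.exp (3 * x) := fun x => by
    rw [← Real.exp_add]; congr 1; ring
  have x4 : ∀ x : ℝ, Real.exp (x / 2) * Real.exp x = Real.exp (3 * x / 2) := fun x => by
    rw [← Real.exp_add]; congr 1; ring
  have hgc : Continuous g := by
    rw [hg]
    exact (Real.continuous_exp.comp (continuous_id.div_const 2)).mul (ha.comp Real.continuous_exp)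
  have hhc : Continuous h := by
    rw [hh]
    exact (((Real.continuous_exp.comp (continuous_id.div_const 2)).mul
      (ha.comp Real.continuous_exp)).div_const 2).add
      ((Real.continuous_exp.comp ((continuous_const.mul continuous_id).div_const 2)).mul
        (hb.comp Real.continuous_exp))
  have hgd : ∀ x, HasDerivAt g (h x) x := by
    intro x
    have e1 : HasDerivAt (fun x : ℝ => Real.exp (x / 2)) (Real.exp (x / 2) * (1 / 2)) x :=
      ((hasDerivAt_id x).div_const 2).exp
    have e2 : HasDerivAt (fun x : ℝ => a (Real.exp x)) (b (Real.exp x) * Real.exp x) x :=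
      (hder (Real.exp x)).comp x (Real.hasDerivAt_exp x)
    have e3 := e1.mul e2
    have e4 : h x = Real.exp (x / 2) * (1 / 2) * a (Real.exp x) +
        Real.exp (x / 2) * (b (Real.exp x) * Real.exp x) := by
      rw [hh]
      show Real.exp (x / 2) * a (Real.exp x) / 2 + Real.exp (3 * x / 2) * b (Real.exp x) = _
      rw [← x4]
      ring
    rw [e4, hg]
    exact e3
  have hg2 : ∀ x, g x ^ 2 = Real.exp x * a (Real.exp x) ^ 2 := by
    intro x
    rw [hg]
    show (Real.exp (x / 2) * a (Real.exp x)) ^ 2 = _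
    linear_combination a (Real.exp x) ^ 2 * x1 x
  have hh2 : ∀ x, h x ^ 2 = (1 / 4) * (Real.exp x * a (Real.exp x) ^ 2) +
      Real.exp (2 * x) * (a (Real.exp x) * b (Real.exp x)) +
      Real.exp (3 * x) * b (Real.exp x) ^ 2 := by
    intro x
    rw [hh]
    show (Real.exp (x / 2) * a (Real.exp x) / 2 + Real.exp (3 * x / 2) * b (Real.exp x)) ^ 2 = _
    linear_combination (1 / 4) * a (Real.exp x) ^ 2 * x1 x +
      a (Real.exp x) * b (Real.exp x) * x2 x + b (Real.exp x) ^ 2 * x3 x
  have hgh : ∀ x, g x * h x = (1 / 2) * (Real.exp x * a (Real.exp x) ^ 2) +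
      Real.exp (2 * x) * (a (Real.exp x) * b (Real.exp x)) := by
    intro x
    rw [hg, hh]
    show Real.exp (x / 2) * a (Real.exp x) * (Real.exp (x / 2) * a (Real.exp x) / 2 +
      Real.exp (3 * x / 2) * b (Real.exp x)) = _
    linear_combination (1 / 2) * a (Real.exp x) ^ 2 * x1 x +
      a (Real.exp x) * b (Real.exp x) * x2 x
  have Igh : Integrable (fun x => g x * h x) := by
    simp_rw [hgh]
    exact (I1.const_mul (1 / 2)).add I3
  have Ih2 : Integrable (fun x => h x ^ 2) := by
    simp_rw [hh2]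
    exact ((I1.const_mul (1 / 4)).add I3).add I2
  have hzero : ∫ x, g x * h x = 0 := by
    have hd : ∀ x, HasDerivAt (fun x => g x ^ 2 / 2) (g x * h x) x := by
      intro x
      have := ((hgd x).pow 2).div_const 2
      have e : ((2 : ℕ) : ℝ) * g x ^ (2 - 1) * h x / 2 = g x * h x := by
        norm_num
        ring
      rw [e] at this
      exact this
    have hbot : Filter.Tendsto (fun x => g x ^ 2 / 2) Filter.atBot (nhds 0) := by
      have h1 : Filter.Tendsto (fun x => Ca ^ 2 / 2 * Real.exp x) Filter.atBot (nhds 0) := by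
        simpa using Real.tendsto_exp_atBot.const_mul (Ca ^ 2 / 2)
      refine squeeze_zero (fun x => by positivity) (fun x => ?_) h1
      rw [hg2]
      have h2 : a (Real.exp x) ^ 2 ≤ Ca ^ 2 := by
        rw [← sq_abs]
        exact pow_le_pow_left₀ (abs_nonneg _) (hCa _) 2
      have h3 := mul_le_mul_of_nonneg_left h2 (Real.exp_pos x).le
      linarith
    have htop : Filter.Tendsto (fun x => g x ^ 2 / 2) Filter.atTop (nhds 0) := by
      refine Filter.Tendsto.congr' ?_ tendsto_const_nhds
      filter_upwards [Filter.eventually_gt_atTop (Real.log R)] with x hx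
      rw [hg2, ha0 _ ((Real.log_lt_iff_lt_exp hR).1 hx).le]
      norm_num
    rw [integral_of_hasDerivAt_of_tendsto hd Igh hbot htop, sub_zero]
  refine ⟨hgc, hhc, hgd, ?_, ?_, I2, I1, ?_⟩
  · rw [memLp_two_iff_integrable_sq hgc.aestronglyMeasurable]
    simp_rw [hg2]
    exact I1
  · rw [memLp_two_iff_integrable_sq hhc.aestronglyMeasurable]
    exact Ih2
  · have e1 : ∫ x, g x * h x = (1 / 2) * (∫ x, Real.exp x * a (Real.exp x) ^ 2) +
        ∫ x, Real.exp (2 * x) * (a (Real.exp x) * b (Real.exp x)) := by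
      simp_rw [hgh]
      rw [integral_add (I1.const_mul (1 / 2)) I3, integral_const_mul]
    have e2 : ∫ x, h x ^ 2 = (1 / 4) * (∫ x, Real.exp x * a (Real.exp x) ^ 2) +
        (∫ x, Real.exp (2 * x) * (a (Real.exp x) * b (Real.exp x))) +
        ∫ x, Real.exp (3 * x) * b (Real.exp x) ^ 2 := by
      simp_rw [hh2]
      have e3 : ∫ x, ((1 / 4) * (Real.exp x * a (Real.exp x) ^ 2) +
          Real.exp (2 * x) * (a (Real.exp x) * b (Real.exp x))) =
          (∫ x, (1 / 4) * (Real.exp x * a (Real.exp x) ^ 2)) +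
          ∫ x, Real.exp (2 * x) * (a (Real.exp x) * b (Real.exp x)) :=
        integral_add (I1.const_mul (1 / 4)) I3
      have e4 : ∫ x, ((1 / 4) * (Real.exp x * a (Real.exp x) ^ 2) +
          Real.exp (2 * x) * (a (Real.exp x) * b (Real.exp x)) +
          Real.exp (3 * x) * b (Real.exp x) ^ 2) =
          (∫ x, ((1 / 4) * (Real.exp x * a (Real.exp x) ^ 2) +
          Real.exp (2 * x) * (a (Real.exp x) * b (Real.exp x)))) +
          ∫ x, Real.exp (3 * x) * b (Real.exp x) ^ 2 :=
        integral_add ((I1.const_mul (1 / 4)).add I3) I2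
      rw [e4, e3, integral_const_mul]
    rw [e1] at hzero
    rw [e2]
    linarith

/-- The coefficient functions of a smooth compactly supported function `u` with respect to a
function `Y` on the sphere, in logarithmic radial coordinates, lie in `H¹(ℝ)`. -/
theorem coeff_sobolev (u : E → ℝ) (hu : ContDiff ℝ 1 u) (hc : HasCompactSupport u)
    (Y : E → ℝ) (hY : Continuous Y) :
    let a : ℝ → ℝ := fun r => ∫ w : S2, u (r • (w : E)) * Y (w : E) ∂sig
    let b : ℝ → ℝ := fun r => ∫ w : S2, fderiv ℝ u (r • (w : E)) (w : E) * Y (w : E) ∂sig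
    let g : ℝ → ℝ := fun x => exp (x / 2) * a (exp x)
    let h : ℝ → ℝ := fun x => exp (x / 2) * a (exp x) / 2 + exp (3 * x / 2) * b (exp x)
    Continuous a ∧ Continuous b ∧ (∀ r, HasDerivAt a (b r) r) ∧
    Continuous g ∧ Continuous h ∧ (∀ x, HasDerivAt g (h x) x) ∧
    MemLp g 2 ∧ MemLp h 2 ∧
    Integrable (fun x => exp (3 * x) * b (exp x) ^ 2) ∧ Integrable (fun x => exp x * a (exp x) ^ 2) ∧
    (∫ x, h x ^ 2) = (∫ x, exp (3 * x) * b (exp x) ^ 2) - (1 / 4) * ∫ x, exp x * a (exp x) ^ 2 := by
  intro a b g h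
  obtain ⟨Cu, hCu⟩ := hu.continuous.bounded_above_of_compact_support hc
  have hfc : Continuous (fderiv ℝ u) := hu.continuous_fderiv one_ne_zero
  have hfs : HasCompactSupport (fderiv ℝ u) := hc.fderiv ℝ
  obtain ⟨Cf, hCf⟩ := hfc.bounded_above_of_compact_support hfs
  obtain ⟨CY, hCY⟩ := (isCompact_sphere (0 : E) 1).exists_bound_of_continuousOn hY.continuousOn
  obtain ⟨R, hR, hsub⟩ := hc.isCompact.isBounded.subset_ball_lt 0 (0 : E)
  have hwn : ∀ w : S2, ‖(w : E)‖ = 1 := fun w => by
    have := w.2
    rwa [mem_sphere_zero_iff_norm] at this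
  have hout : ∀ (r : ℝ) (w : S2), R ≤ r → r • (w : E) ∉ tsupport u := by
    intro r w hr hmem
    have h1 := hsub hmem
    rw [mem_ball_zero_iff, norm_smul, hwn, mul_one, Real.norm_eq_abs,
      abs_of_pos (hR.trans_le hr)] at h1
    linarith
  have hdiff : Differentiable ℝ u := hu.differentiable one_ne_zero
  have hFc : Continuous (Function.uncurry fun (r : ℝ) (w : S2) => u (r • (w : E)) * Y (w : E)) := by
    refine (hu.continuous.comp (continuous_fst.smul (continuous_subtype_val.comp continuous_snd))).mul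
      (hY.comp (continuous_subtype_val.comp continuous_snd))
  have hFc' : Continuous (Function.uncurry fun (r : ℝ) (w : S2) =>
      fderiv ℝ u (r • (w : E)) (w : E) * Y (w : E)) := by
    have h1 : Continuous (fun p : ℝ × S2 => fderiv ℝ u (p.1 • (p.2 : E))) :=
      hfc.comp (continuous_fst.smul (continuous_subtype_val.comp continuous_snd))
    exact (h1.clm_apply (continuous_subtype_val.comp continuous_snd)).mul
      (hY.comp (continuous_subtype_val.comp continuous_snd))
  have hb : Continuous b := by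
    have := continuous_parametric_integral_of_continuous (μ := sig) (s := univ) hFc' isCompact_univ
    simp only [setIntegral_univ] at this
    exact this
  have hbd1 : ∀ (r : ℝ) (w : S2), ‖u (r • (w : E)) * Y (w : E)‖ ≤ Cu * CY := fun r w => by
    rw [norm_mul]
    exact mul_le_mul (hCu _) (hCY _ w.2) (norm_nonneg _) ((norm_nonneg _).trans (hCu 0))
  have hbd2 : ∀ (r : ℝ) (w : S2), ‖fderiv ℝ u (r • (w : E)) (w : E) * Y (w : E)‖ ≤ Cf * CY :=
    fun r w => by
    rw [norm_mul]
    refine mul_le_mul ?_ (hCY _ w.2) (norm_nonneg _) ((norm_nonneg _).trans (hCf 0))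
    refine (ContinuousLinearMap.le_opNorm _ _).trans ?_
    rw [hwn, mul_one]
    exact hCf _
  have hsm : ∀ r : ℝ, AEStronglyMeasurable (fun w : S2 => u (r • (w : E)) * Y (w : E)) sig :=
    fun r => (hFc.comp (continuous_const.prodMk continuous_id)).aestronglyMeasurable
  have hsm' : ∀ r : ℝ, AEStronglyMeasurable
      (fun w : S2 => fderiv ℝ u (r • (w : E)) (w : E) * Y (w : E)) sig :=
    fun r => (hFc'.comp (continuous_const.prodMk continuous_id)).aestronglyMeasurable
  have hder : ∀ r, HasDerivAt a (b r) r := by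
    intro r
    refine (hasDerivAt_integral_of_dominated_loc_of_deriv_le (μ := sig)
      (F := fun r (w : S2) => u (r • (w : E)) * Y (w : E))
      (F' := fun r (w : S2) => fderiv ℝ u (r • (w : E)) (w : E) * Y (w : E))
      (s := univ) (bound := fun _ => Cf * CY) Filter.univ_mem
      (Filter.Eventually.of_forall hsm) ?_ (hsm' r)
      (Filter.Eventually.of_forall fun w r _ => hbd2 r w) (integrable_const _)
      (Filter.Eventually.of_forall fun w r _ => ?_)).2
    · exact Integrable.mono' (integrable_const (Cu * CY)) (hsm r)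
        (Filter.Eventually.of_forall (hbd1 r))
    · have h1 : HasDerivAt (fun r : ℝ => r • (w : E)) (w : E) r := by
        simpa using (hasDerivAt_id r).smul_const (w : E)
      exact ((hdiff (r • (w : E))).hasFDerivAt.comp_hasDerivAt r h1).mul_const _
  have ha0 : ∀ r, R ≤ r → a r = 0 := by
    intro r hr
    show ∫ w : S2, u (r • (w : E)) * Y (w : E) ∂sig = 0
    refine integral_eq_zero_of_ae (Filter.Eventually.of_forall fun w => ?_)
    show u (r • (w : E)) * Y (w : E) = 0
    rw [image_eq_zero_of_notMem_tsupport (hout r w hr), zero_mul]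
  have hb0 : ∀ r, R ≤ r → b r = 0 := by
    intro r hr
    show ∫ w : S2, fderiv ℝ u (r • (w : E)) (w : E) * Y (w : E) ∂sig = 0
    refine integral_eq_zero_of_ae (Filter.Eventually.of_forall fun w => ?_)
    show fderiv ℝ u (r • (w : E)) (w : E) * Y (w : E) = 0
    have h1 : fderiv ℝ u (r • (w : E)) = 0 := by
      by_contra hne
      exact hout r w hr (support_fderiv_subset ℝ hne)
    rw [h1, ContinuousLinearMap.zero_apply, zero_mul]
  have hCa : ∀ r, |a r| ≤ Cu * CY * sig.real univ := fun r =>
    norm_integral_le_of_norm_le_const (Filter.Eventually.of_forall (hbd1 r))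
  have hCb : ∀ r, |b r| ≤ Cf * CY * sig.real univ := fun r =>
    norm_integral_le_of_norm_le_const (Filter.Eventually.of_forall (hbd2 r))
  have ha : Continuous a := continuous_iff_continuousAt.2 fun r => (hder r).continuousAt
  exact ⟨ha, hb, hder, cs_radial a b hb hder _ _ R hR hCa hCb ha0 hb0 g h rfl rfl⟩

end

end Pool.Helper490.SH
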