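import Pool.Agent.Helper490.SH.Bessel
import Pool.Agent.Helper490.SH.Polar
import Pool.Agent.Helper490.SH.ExpSubst
import Pool.Agent.Helper490.SH.Sob

set_option autoImplicit false

open MeasureTheory Set Metric Real MvPolynomial

namespace Pool.Helper490.SH

noncomputable section

/-- Coefficient of `u` on the sphere of radius `r`. -/
def ca (u Y : E → ℝ) (r : ℝ) : ℝ := ∫ w : S2, u (r • (w : E)) * Y (w : E) ∂sig

/-- Coefficient of the radial derivative of `u`. -/
def cb (u Y : E → ℝ) (r : ℝ) : ℝ := ∫ w : S2, fderiv ℝ u (r • (w : E)) (w : E) * Y (w : E) ∂sig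

/-- Coefficient function in the logarithmic variable. -/
def cg (u Y : E → ℝ) (x : ℝ) : ℝ := exp (x / 2) * ca u Y (exp x)

/-- Its derivative. -/
def ch (u Y : E → ℝ) (x : ℝ) : ℝ :=
  exp (x / 2) * ca u Y (exp x) / 2 + exp (3 * x / 2) * cb u Y (exp x)

theorem coeff (u : E → ℝ) (hu : ContDiff ℝ 1 u) (hc : HasCompactSupport u)
    (Y : E → ℝ) (hY : Continuous Y) :
    Continuous (ca u Y) ∧ Continuous (cb u Y) ∧ (∀ r, HasDerivAt (ca u Y) (cb u Y r) r) ∧
    Continuous (cg u Y) ∧ Continuous (ch u Y) ∧ (∀ x, HasDerivAt (cg u Y) (ch u Y x) x) ∧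
    MemLp (cg u Y) 2 ∧ MemLp (ch u Y) 2 ∧
    Integrable (fun x => exp (3 * x) * cb u Y (exp x) ^ 2) ∧
    Integrable (fun x => exp x * ca u Y (exp x) ^ 2) ∧
    (∫ x, ch u Y x ^ 2) = (∫ x, exp (3 * x) * cb u Y (exp x) ^ 2) -
      (1 / 4) * ∫ x, exp x * ca u Y (exp x) ^ 2 :=
  coeff_sobolev u hu hc Y hY

lemma cg_sq (u Y : E → ℝ) (x : ℝ) : cg u Y x ^ 2 = exp x * ca u Y (exp x) ^ 2 := by
  rw [cg, mul_pow, ← exp_nat_mul]
  congr 2
  push_cast
  ring

/-- The energy bound: the partial wave energies are bounded by the Dirichlet integral. -/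
theorem energy_bound (u : E → ℝ) (hu : ContDiff ℝ 1 u) (hc : HasCompactSupport u)
    (Y : ℕ → E → ℝ) (d : ℕ → ℕ) (K : Finset ℕ)
    (hY : ∀ i ∈ K, ContDiff ℝ 1 (Y i))
    (horth : ∀ i ∈ K, ∀ j ∈ K, ∫ w : S2, Y i (w : E) * Y j (w : E) ∂sig = if i = j then 1 else 0)
    (hgreen : ∀ i ∈ K, ∀ v : E → ℝ, ContDiff ℝ 1 v →
        ∫ w : S2, (LF 0 1 v (w : E) * LF 0 1 (Y i) (w : E) +
          LF 0 2 v (w : E) * LF 0 2 (Y i) (w : E) +
          LF 1 2 v (w : E) * LF 1 2 (Y i) (w : E)) ∂sig =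
        ((d i : ℝ) * (d i + 1)) * ∫ w : S2, v (w : E) * Y i (w : E) ∂sig) :
    ∑ i ∈ K, ((∫ x, ch u (Y i) x ^ 2) + ((d i : ℝ) + 1 / 2) ^ 2 * ∫ x, cg u (Y i) x ^ 2) ≤
      ∫ x, ‖fderiv ℝ u x‖ ^ 2 := by
  have hY0 : ∀ i ∈ K, Continuous (Y i) := fun i hi => (hY i hi).continuous
  have hC := fun i hi => coeff u hu hc (Y i) (hY0 i hi)
  have hcf : Continuous (fderiv ℝ u) := hu.continuous_fderiv (by norm_num)
  have hcs : HasCompactSupport (fun x => ‖fderiv ℝ u x‖ ^ 2) :=
    (hc.fderiv ℝ).norm.comp_left (g := fun t : ℝ => t ^ 2) (by norm_num)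
  have hint : Integrable (fun x => ‖fderiv ℝ u x‖ ^ 2) :=
    (hcf.norm.pow 2).integrable_of_hasCompactSupport hcs
  obtain ⟨hp1, hp2⟩ := polar_int _ hint
  rw [hp2]
  -- the terms of the sum as integrals over `(0, ∞)`
  have hA : ∀ i ∈ K, IntegrableOn (fun r => ca u (Y i) r ^ 2) (Ioi (0:ℝ)) := fun i hi =>
    (integrable_exp_subst _).1 (hC i hi).2.2.2.2.2.2.2.2.2.1
  have e3 : ∀ i x, exp (3 * x) * cb u (Y i) (exp x) ^ 2 =
      exp x * ((exp x) ^ 2 * cb u (Y i) (exp x) ^ 2) := by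
    intro i x
    rw [← mul_assoc, ← exp_nat_mul, ← exp_add]
    congr 2
    push_cast
    ring
  have hB : ∀ i ∈ K, IntegrableOn (fun r => r ^ 2 * cb u (Y i) r ^ 2) (Ioi (0:ℝ)) := fun i hi => by
    refine (integrable_exp_subst (fun r => r ^ 2 * cb u (Y i) r ^ 2)).1 ?_
    have := (hC i hi).2.2.2.2.2.2.2.2.1
    simpa only [e3] using this
  have hterm : ∀ i ∈ K, (∫ x, ch u (Y i) x ^ 2) + ((d i : ℝ) + 1 / 2) ^ 2 * ∫ x, cg u (Y i) x ^ 2 =
      ∫ r in Ioi (0:ℝ), (r ^ 2 * cb u (Y i) r ^ 2 + (d i : ℝ) * (d i + 1) * ca u (Y i) r ^ 2) := by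
    intro i hi
    rw [(hC i hi).2.2.2.2.2.2.2.2.2.2]
    simp only [cg_sq, e3]
    rw [integral_exp_subst (fun r => ca u (Y i) r ^ 2),
      integral_exp_subst (fun r => r ^ 2 * cb u (Y i) r ^ 2),
      integral_add (hB i hi) ((hA i hi).const_mul _), integral_const_mul]
    ring
  rw [Finset.sum_congr rfl hterm, ← integral_finsetSum]
  · refine setIntegral_mono_on ?_ ?_ measurableSet_Ioi ?_
    · exact integrable_finsetSum _ fun i hi => (hB i hi).add ((hA i hi).const_mul _)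
    · have := hp1.integral_prod_right
      refine this.congr (Filter.Eventually.of_forall fun r => ?_)
      simp only
      rw [integral_const_mul]
    · intro r hr
      exact bessel_r u hu Y (fun i => (d i : ℝ) * (d i + 1)) K hY horth hgreen r
  · exact fun i hi => (hB i hi).add ((hA i hi).const_mul _)


/-- The potential energy is the sum of the potential energies of the partial waves. -/
theorem pot_hasSum (u : E → ℝ) (hu : ContDiff ℝ 1 u) (hc : HasCompactSupport u)
    (W : ℝ → ℝ) (hW0 : ∀ r, 0 ≤ W r) (hWm : Measurable W)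
    (hint : Integrable (fun x : E => W ‖x‖ * u x ^ 2)) (I : Set ℕ) (Y : ℕ → E → ℝ)
    (hY : ∀ i ∈ I, Continuous (Y i))
    (hpars : ∀ v : E → ℝ, Continuous v →
      HasSum (fun i : I => (∫ w : S2, v (w : E) * Y i (w : E) ∂sig) ^ 2)
          (∫ w : S2, v (w : E) ^ 2 ∂sig)) :
    HasSum (fun i : I => ∫ x, (exp (2 * x) * W (exp x)) * cg u (Y i) x ^ 2)
      (∫ x, W ‖x‖ * u x ^ 2) := by
  obtain ⟨hp1, hp2⟩ := polar_int _ hint
  set G : ℝ → ℝ := fun r => r ^ 2 * W r * ∫ w : S2, u (r • (w : E)) ^ 2 ∂sig with hG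
  have hnorm : ∀ r : ℝ, 0 < r → ∀ w : S2, ‖r • (w : E)‖ = r := by
    intro r hr w
    rw [norm_smul, mem_sphere_zero_iff_norm.1 w.2, mul_one, Real.norm_eq_abs, abs_of_pos hr]
  have hGeq : ∀ r ∈ Ioi (0:ℝ), r ^ 2 * ∫ w : S2, W ‖r • (w : E)‖ * u (r • (w : E)) ^ 2 ∂sig = G r := by
    intro r hr
    simp only [hnorm r hr, hG]
    rw [integral_const_mul, mul_assoc]
  have hGint : IntegrableOn G (Ioi (0:ℝ)) := by
    have h1 := hp1.integral_prod_right
    refine IntegrableOn.congr_fun (f := fun r => ∫ w : S2, r ^ 2 * (W ‖r • (w : E)‖ * u (r • (w : E)) ^ 2) ∂sig)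
      h1 (fun r hr => ?_) measurableSet_Ioi
    simp only
    rw [integral_const_mul, hGeq r hr]
  rw [hp2, setIntegral_congr_fun measurableSet_Ioi hGeq]
  set F : I → ℝ → ℝ := fun i r => r ^ 2 * W r * ca u (Y i) r ^ 2 with hF
  have hFG : ∀ r, HasSum (fun i => F i r) (G r) := by
    intro r
    have hv : Continuous (fun x : E => u (r • x)) := hu.continuous.comp (continuous_const_smul r)
    exact (hpars (fun x : E => u (r • x)) hv).mul_left (r ^ 2 * W r)
  have hF0 : ∀ i r, 0 ≤ F i r := fun i r =>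
    mul_nonneg (mul_nonneg (sq_nonneg _) (hW0 r)) (sq_nonneg _)
  have hFint : ∀ i, IntegrableOn (F i) (Ioi (0:ℝ)) := by
    intro i
    refine Integrable.mono' hGint ?_ (Filter.Eventually.of_forall fun r => ?_)
    · have h1 : Continuous (ca u (Y i)) := (coeff u hu hc (Y i) (hY i i.2)).1
      exact (((measurable_id.pow_const 2).mul hWm).mul
        (h1.measurable.pow_const 2)).aestronglyMeasurable
    · rw [Real.norm_eq_abs, abs_of_nonneg (hF0 i r)]
      exact le_hasSum (hFG r) i fun j _ => hF0 j r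
  have hsum : Summable fun i => ∫ r in Ioi (0:ℝ), ‖F i r‖ := by
    refine summable_of_sum_le (c := ∫ r in Ioi (0:ℝ), G r)
      (fun i => integral_nonneg fun r => norm_nonneg _) fun s => ?_
    rw [← integral_finsetSum _ fun i _ => (hFint i).norm]
    refine integral_mono (integrable_finsetSum _ fun i _ => (hFint i).norm) hGint fun r => ?_
    simp only [Real.norm_eq_abs, abs_of_nonneg (hF0 _ r)]
    exact sum_le_hasSum s (fun j _ => hF0 j r) (hFG r)
  have hmain := hasSum_integral_of_summable_integral_norm hFint hsum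
  have h2 : (∫ r in Ioi (0:ℝ), ∑' i, F i r) = ∫ r in Ioi (0:ℝ), G r := by
    congr 1
    funext r
    exact (hFG r).tsum_eq
  rw [h2] at hmain
  have e : ∀ i : I, (∫ x, (exp (2 * x) * W (exp x)) * cg u (Y i) x ^ 2) =
      ∫ r in Ioi (0:ℝ), F i r := by
    intro i
    rw [← integral_exp_subst (F i)]
    congr 1
    funext x
    rw [cg_sq, hF]
    simp only
    have h3 : exp (2 * x) = exp x ^ 2 := by rw [← exp_nat_mul]; norm_num
    rw [h3]
    ring
  simpa only [e] using hmain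

/-- linearity of the coefficients -/
lemma ca_sum {n : ℕ} (u : Fin n → E → ℝ) (hu : ∀ j, ContDiff ℝ 1 (u j)) (Y : E → ℝ)
    (hY : Continuous Y) (c : Fin n → ℝ) (r : ℝ) :
    ca (fun x => ∑ j, c j * u j x) Y r = ∑ j, c j * ca (u j) Y r := by
  simp only [ca]
  have h1 : ∀ w : S2, (∑ j, c j * u j (r • (w : E))) * Y (w : E) =
      ∑ j, c j * (u j (r • (w : E)) * Y (w : E)) := by
    intro w
    rw [Finset.sum_mul]
    exact Finset.sum_congr rfl fun j _ => by ring
  simp only [h1]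
  rw [integral_finsetSum]
  · simp only [integral_const_mul]
  · intro j _
    refine Integrable.const_mul ?_ _
    have hcont : Continuous (fun w : S2 => u j (r • (w : E)) * Y (w : E)) :=
      (((hu j).continuous.comp (continuous_const_smul r)).comp continuous_subtype_val).mul
        (hY.comp continuous_subtype_val)
    exact hcont.integrable_of_hasCompactSupport (HasCompactSupport.of_compactSpace _)


lemma fderiv_sum_apply {n : ℕ} (u : Fin n → E → ℝ) (hu : ∀ j, ContDiff ℝ 1 (u j)) (c : Fin n → ℝ)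
    (x v : E) :
    fderiv ℝ (fun y => ∑ j, c j * u j y) x v = ∑ j, c j * fderiv ℝ (u j) x v := by
  have h1 : HasFDerivAt (fun y => ∑ j, c j * u j y) (∑ j, c j • fderiv ℝ (u j) x) x := by
    have h2 := HasFDerivAt.fun_sum (u := Finset.univ) (A := fun j y => c j * u j y)
      (A' := fun j => c j • fderiv ℝ (u j) x) (x := x) (fun j _ => by
        have h3 := ((hu j).differentiable (by norm_num) x).hasFDerivAt.const_mul (c j)
        exact h3)
    exact h2
  rw [h1.fderiv]
  simp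

lemma cb_sum {n : ℕ} (u : Fin n → E → ℝ) (hu : ∀ j, ContDiff ℝ 1 (u j)) (Y : E → ℝ)
    (hY : Continuous Y) (c : Fin n → ℝ) (r : ℝ) :
    cb (fun x => ∑ j, c j * u j x) Y r = ∑ j, c j * cb (u j) Y r := by
  simp only [cb, fderiv_sum_apply u hu c]
  have h1 : ∀ w : S2, (∑ j, c j * fderiv ℝ (u j) (r • (w : E)) (w : E)) * Y (w : E) =
      ∑ j, c j * (fderiv ℝ (u j) (r • (w : E)) (w : E) * Y (w : E)) := by
    intro w
    rw [Finset.sum_mul]
    exact Finset.sum_congr rfl fun j _ => by ring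
  simp only [h1]
  rw [integral_finsetSum]
  · simp only [integral_const_mul]
  · intro j _
    refine Integrable.const_mul ?_ _
    have h2 : Continuous (fun w : S2 => fderiv ℝ (u j) (r • (w : E))) :=
      (((hu j).continuous_fderiv (by norm_num)).comp (continuous_const_smul r)).comp
        continuous_subtype_val
    have hcont : Continuous (fun w : S2 => fderiv ℝ (u j) (r • (w : E)) (w : E) * Y (w : E)) :=
      (h2.clm_apply continuous_subtype_val).mul (hY.comp continuous_subtype_val)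
    exact hcont.integrable_of_hasCompactSupport (HasCompactSupport.of_compactSpace _)

lemma cg_sum {n : ℕ} (u : Fin n → E → ℝ) (hu : ∀ j, ContDiff ℝ 1 (u j)) (Y : E → ℝ)
    (hY : Continuous Y) (c : Fin n → ℝ) (x : ℝ) :
    cg (fun x => ∑ j, c j * u j x) Y x = ∑ j, c j * cg (u j) Y x := by
  simp only [cg, ca_sum u hu Y hY c, Finset.mul_sum]
  exact Finset.sum_congr rfl fun j _ => by ring

lemma ch_sum {n : ℕ} (u : Fin n → E → ℝ) (hu : ∀ j, ContDiff ℝ 1 (u j)) (Y : E → ℝ)
    (hY : Continuous Y) (c : Fin n → ℝ) (x : ℝ) :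
    ch (fun x => ∑ j, c j * u j x) Y x = ∑ j, c j * ch (u j) Y x := by
  simp only [ch, ca_sum u hu Y hY c, cb_sum u hu Y hY c, Finset.mul_sum, Finset.sum_div]
  rw [← Finset.sum_add_distrib]
  exact Finset.sum_congr rfl fun j _ => by ring

end

end Pool.Helper490.SH
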