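import Pool.Agent.Helper490.SH.Assembly
import Pool.Agent.Helper490.SH.Radial
import Pool.Agent.Helper490.SH.Pkg
import Pool.Agent.Helper490.SH.LamMod
import Pool.Agent.Helper490.SH.Mon
import Pool.Agent.Helper490.SH.Dens
import Pool.Agent.Helper490.SH.Rot

set_option autoImplicit false

open MeasureTheory Set Metric Real MvPolynomial
open scoped ENNReal

namespace Pool.Helper490.SH

open Pool.Helper490.Eig

noncomputable section

lemma sig_univ : sig.real univ = 4 * π := by
  rw [sig, Measure.toSphere_real_apply_univ, finrank_euclideanSpace, Fintype.card_fin, Measure.real,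
    EuclideanSpace.volume_ball]
  have h1 : Gamma (5 / 2) = 3 / 4 * √π := by
    have h2 : (5:ℝ) / 2 = 3 / 2 + 1 := by norm_num
    have h3 : (3:ℝ) / 2 = 1 / 2 + 1 := by norm_num
    rw [h2, Gamma_add_one (by norm_num), h3, Gamma_add_one (by norm_num), Gamma_one_half_eq]
    ring
  have h4 : 0 < √π := Real.sqrt_pos.2 pi_pos
  have h5 : √π ^ 3 = √π * π := by
    rw [pow_succ, Real.sq_sqrt pi_pos.le, mul_comm]
  simp only [Fintype.card_fin, ENNReal.ofReal_one, one_pow, one_mul]
  rw [ENNReal.toReal_ofReal (by positivity)]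
  have h6 : ((3:ℕ):ℝ) / 2 + 1 = 5 / 2 := by norm_num
  rw [h6, h1, h5]
  field_simp
  norm_num

lemma coeff_isSobolev (u : E → ℝ) (hu : ContDiff ℝ 1 u) (hc : HasCompactSupport u)
    (Y : E → ℝ) (hY : Continuous Y) :
    IsSobolev (fun x => (cg u Y x : ℂ)) (fun x => (ch u Y x : ℂ)) := by
  obtain ⟨-, -, -, h1, h2, h3, h4, h5, -⟩ := coeff u hu hc Y hY
  refine ⟨h4.ofReal, h5.ofReal, fun a b => ?_⟩
  rw [intervalIntegral.integral_ofReal, ← Complex.ofReal_sub,
    intervalIntegral.integral_eq_sub_of_hasDerivAt (fun x _ => h3 x) (h2.intervalIntegrable _ _)]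

/-- The radial Cwikel-Lieb-Rozenblum inequality in three dimensions with the sharp constant. -/
theorem upper (W : ℝ → ℝ) (hWm : Measurable W) (hW0 : ∀ r, 0 ≤ W r)
    (hint : Integrable (fun x : E => W ‖x‖ ^ (3 / 2 : ℝ))) (n : ℕ) (u : Fin n → E → ℝ)
    (hu : ∀ i, ContDiff ℝ (⊤ : ℕ∞) (u i) ∧ HasCompactSupport (u i))
    (hneg : ∀ c : Fin n → ℝ, c ≠ 0 → ∫ x, (‖fderiv ℝ (fun y => ∑ i, c i * u i y) x‖ ^ 2 -
      W ‖x‖ * (∑ i, c i * u i x) ^ 2) < 0) :
    (n : ℝ) ≤ 4 / (3 * √3 * π ^ 2) * ∫ x : E, W ‖x‖ ^ (3 / 2 : ℝ) := by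
  classical
  obtain ⟨I, Y, horth, hgreen, hpars⟩ := exists_harmonics LF_integral Lam_mod LP_totalDegree LF_ev
    contDiff_ev mon_totalDegree exists_mon exists_poly_near
  have hYc : ∀ i, ContDiff ℝ 1 (ev (Y i)) := fun i => (contDiff_ev (Y i)).of_le (by exact_mod_cast le_top)
  have hu1 : ∀ j, ContDiff ℝ 1 (u j) := fun j => (hu j).1.of_le (by exact_mod_cast le_top)
  -- degrees
  set d : I → ℕ := fun i => Nat.sqrt i with hd
  have hsub : ∀ L, {i : I | d i ≤ L} ⊆ (Subtype.val : I → ℕ) ⁻¹' (Finset.range ((L + 1) ^ 2) : Set ℕ) := by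
    intro L i hi
    have h1 : Nat.sqrt i ≤ L := hi
    simp only [mem_preimage, Finset.coe_range, mem_Iio]
    have h2 := Nat.lt_succ_sqrt (i : ℕ)
    have h3 : (Nat.sqrt i).succ * (Nat.sqrt i).succ ≤ (L + 1) * (L + 1) :=
      Nat.mul_le_mul (Nat.succ_le_succ h1) (Nat.succ_le_succ h1)
    rw [pow_two]
    omega
  have hfinP : ∀ L : ℕ, ((Subtype.val : I → ℕ) ⁻¹' (Finset.range ((L + 1) ^ 2) : Set ℕ)).Finite :=
    fun L => (Finset.finite_toSet _).preimage Subtype.val_injective.injOn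
  have hfin : ∀ L, {i : I | d i ≤ L}.Finite := fun L => (hfinP L).subset (hsub L)
  have hcard : ∀ L, {i : I | d i ≤ L}.ncard ≤ (L + 1) ^ 2 := by
    intro L
    refine (Set.ncard_le_ncard (hsub L) (hfinP L)).trans ?_
    have h1 : ((Subtype.val : I → ℕ) ⁻¹' (Finset.range ((L + 1) ^ 2) : Set ℕ)).ncard ≤
        (Finset.range ((L + 1) ^ 2) : Set ℕ).ncard :=
      Set.ncard_le_ncard_of_injOn Subtype.val (fun a ha => ha) Subtype.val_injective.injOn
        (Finset.finite_toSet _)
    rwa [Set.ncard_coe_finset, Finset.card_range] at h1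
  -- the transformed potential
  set Wt : ℝ → ℝ := fun x => exp (2 * x) * W (exp x) with hWt
  have hWt0 : ∀ x, 0 ≤ Wt x := fun x => mul_nonneg (exp_pos _).le (hW0 _)
  have hWtm : Measurable Wt := (measurable_const.mul measurable_id).exp.mul (hWm.comp measurable_exp)
  have hWtp : ∀ x, Wt x ^ ((3:ℝ) / 2) = exp x * ((exp x) ^ 2 * W (exp x) ^ ((3:ℝ) / 2)) := by
    intro x
    rw [hWt]
    simp only
    rw [Real.mul_rpow (exp_pos _).le (hW0 _), ← Real.exp_mul, ← mul_assoc, ← exp_nat_mul, ← exp_add]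
    congr 2
    push_cast
    ring
  obtain ⟨hp1, hp2⟩ := polar_int _ hint
  have hnorm : ∀ r : ℝ, 0 < r → ∀ w : S2, ‖r • (w : E)‖ = r := by
    intro r hr w
    rw [norm_smul, mem_sphere_zero_iff_norm.1 w.2, mul_one, Real.norm_eq_abs, abs_of_pos hr]
  have hsph : ∀ r ∈ Ioi (0:ℝ), r ^ 2 * ∫ w : S2, W ‖r • (w : E)‖ ^ (3 / 2 : ℝ) ∂sig =
      4 * π * (r ^ 2 * W r ^ (3 / 2 : ℝ)) := by
    intro r hr
    simp only [hnorm r hr]
    rw [integral_const, sig_univ, smul_eq_mul]
    ring
  have hWint : (∫ x : E, W ‖x‖ ^ (3 / 2 : ℝ)) = 4 * π * ∫ x, Wt x ^ ((3:ℝ) / 2) := by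
    rw [hp2, setIntegral_congr_fun measurableSet_Ioi hsph, integral_const_mul]
    simp only [hWtp]
    rw [integral_exp_subst (fun r => r ^ 2 * W r ^ ((3:ℝ) / 2))]
  have hWtI : Integrable (fun x => Wt x ^ ((3:ℝ) / 2)) := by
    simp only [hWtp]
    rw [integrable_exp_subst (fun r => r ^ 2 * W r ^ ((3:ℝ) / 2))]
    have h1 := hp1.integral_prod_right
    have h2 : IntegrableOn (fun r => 4 * π * (r ^ 2 * W r ^ ((3:ℝ) / 2))) (Ioi (0:ℝ)) := by
      refine IntegrableOn.congr_fun
        (f := fun r => ∫ w : S2, r ^ 2 * W ‖r • (w : E)‖ ^ (3 / 2 : ℝ) ∂sig) h1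
        (fun r hr => ?_) measurableSet_Ioi
      simp only
      rw [integral_const_mul, hsph r hr]
    have h3 := h2.const_mul (4 * π)⁻¹
    refine h3.congr (Filter.Eventually.of_forall fun r => ?_)
    simp only
    rw [← mul_assoc, inv_mul_cancel₀ (by positivity), one_mul]
  have h32 : ((3:ℝ≥0∞) / 2).toReal = 3 / 2 := by
    rw [ENNReal.toReal_div]; simp
  have hWtL : MemLp Wt (3 / 2) := by
    rw [← integrable_norm_rpow_iff hWtm.aestronglyMeasurable (by norm_num)
      (ENNReal.div_ne_top (by simp) (by simp)), h32]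
    refine hWtI.congr (Filter.Eventually.of_forall fun x => ?_)
    simp only
    rw [Real.norm_eq_abs, abs_of_nonneg (hWt0 x)]
  -- integrability
  have hWu : ∀ v : E → ℝ, Continuous v → HasCompactSupport v →
      Integrable (fun x : E => W ‖x‖ * v x ^ 2) := by
    intro v hv hvc
    obtain ⟨C, hC⟩ := hv.bounded_above_of_compact_support hvc
    have h1 : Integrable (fun x : E => v x ^ 2) := by
      have h0 : HasCompactSupport (fun x : E => v x ^ 2) :=
        hvc.comp_left (g := fun t : ℝ => t ^ 2) (by norm_num)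
      exact (hv.pow 2).integrable_of_hasCompactSupport h0
    have h2 : Integrable (fun x : E => v x ^ 2 + C ^ 2 * W ‖x‖ ^ (3 / 2 : ℝ)) :=
      h1.add (hint.const_mul _)
    refine h2.mono' ((hWm.comp measurable_norm).aestronglyMeasurable.mul
      (hv.pow 2).aestronglyMeasurable) (Filter.Eventually.of_forall fun x => ?_)
    rw [Real.norm_eq_abs, abs_of_nonneg (mul_nonneg (hW0 _) (sq_nonneg _))]
    have h3 : W ‖x‖ ≤ 1 + W ‖x‖ ^ (3 / 2 : ℝ) := by
      rcases le_total (W ‖x‖) 1 with h4 | h4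
      · have := Real.rpow_nonneg (hW0 ‖x‖) (3 / 2 : ℝ)
        linarith
      · have := Real.self_le_rpow_of_one_le h4 (show (1:ℝ) ≤ 3 / 2 by norm_num)
        linarith
    have h5 : v x ^ 2 ≤ C ^ 2 := by
      have := hC x
      rw [Real.norm_eq_abs] at this
      rw [← sq_abs]
      exact pow_le_pow_left₀ (abs_nonneg _) this 2
    have h6 := Real.rpow_nonneg (hW0 ‖x‖) (3 / 2 : ℝ)
    calc W ‖x‖ * v x ^ 2 ≤ (1 + W ‖x‖ ^ (3 / 2 : ℝ)) * v x ^ 2 :=
          mul_le_mul_of_nonneg_right h3 (sq_nonneg _)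
      _ = v x ^ 2 + W ‖x‖ ^ (3 / 2 : ℝ) * v x ^ 2 := by ring
      _ ≤ v x ^ 2 + W ‖x‖ ^ (3 / 2 : ℝ) * C ^ 2 := by gcongr
      _ = _ := by ring
  have huc : ∀ c : Fin n → ℝ, ContDiff ℝ 1 (fun y => ∑ i, c i * u i y) := fun c =>
    ContDiff.sum fun i _ => contDiff_const.mul (hu1 i)
  have hucs : ∀ c : Fin n → ℝ, HasCompactSupport (fun y => ∑ i, c i * u i y) := by
    intro c
    have : (fun y => ∑ i, c i * u i y) = ∑ i, (fun y => c i * u i y) := by
      funext y; simp
    rw [this]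
    refine Finset.sum_induction _ HasCompactSupport (fun a b ha hb => ha.add hb)
      HasCompactSupport.zero fun i _ => (hu i).2.mul_left
  -- apply the abstract theorem
  have main := assembly d hfin hcard n (fun i j => cg (u j) (ev (Y i)))
    (fun i j => ch (u j) (ev (Y i)))
    (fun i j => coeff_isSobolev (u j) (hu1 j) (hu j).2 _ (hYc i).continuous)
    Wt hWtL hWt0
    (fun c => ∫ x, ‖fderiv ℝ (fun y => ∑ i, c i * u i y) x‖ ^ 2)
    (fun c => ∫ x, W ‖x‖ * (∑ i, c i * u i x) ^ 2)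
    (by
      intro c K
      have h1 := energy_bound (fun y => ∑ i, c i * u i y) (huc c) (hucs c)
        (fun i => ev (Y i)) (fun i => Nat.sqrt i) (K.map (Function.Embedding.subtype _))
        (fun i _ => hYc i)
        (fun i hi j hj => by
          obtain ⟨i', _, rfl⟩ := Finset.mem_map.1 hi
          obtain ⟨j', _, rfl⟩ := Finset.mem_map.1 hj
          exact horth _ i'.2 _ j'.2)
        (fun i hi v hv => by
          obtain ⟨i', _, rfl⟩ := Finset.mem_map.1 hi
          exact hgreen _ i'.2 v hv)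
      rw [Finset.sum_map] at h1
      refine le_trans (le_of_eq ?_) h1
      refine Finset.sum_congr rfl fun i _ => ?_
      simp only [Function.Embedding.subtype_apply,
        cg_sum u hu1 _ (hYc i).continuous c, ch_sum u hu1 _ (hYc i).continuous c]
      rfl)
    (by
      intro c
      have h1 := pot_hasSum (fun y => ∑ i, c i * u i y) (huc c) (hucs c) W hW0 hWm
        (hWu _ (huc c).continuous (hucs c)) I (fun i => ev (Y i))
        (fun i _ => (hYc i).continuous) hpars
      have h2 : ∀ i : I, (∫ x, Wt x * (∑ j, c j * cg (u j) (ev (Y i)) x) ^ 2) =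
          ∫ x, (exp (2 * x) * W (exp x)) * cg (fun y => ∑ i, c i * u i y) (ev (Y i)) x ^ 2 := by
        intro i
        simp only [cg_sum u hu1 _ (hYc i).continuous c, hWt]
      simp only [h2]
      exact h1)
    (by
      intro c hc
      have h1 := hneg c hc
      have h2 : Integrable (fun x => ‖fderiv ℝ (fun y => ∑ i, c i * u i y) x‖ ^ 2) := by
        have h3 : Continuous (fderiv ℝ (fun y => ∑ i, c i * u i y)) :=
          (huc c).continuous_fderiv (by norm_num)
        have h4 : HasCompactSupport (fun x => ‖fderiv ℝ (fun y => ∑ i, c i * u i y) x‖ ^ 2) :=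
          ((hucs c).fderiv ℝ).norm.comp_left (g := fun t : ℝ => t ^ 2) (by norm_num)
        exact (h3.norm.pow 2).integrable_of_hasCompactSupport h4
      rw [integral_sub h2 (hWu _ (huc c).continuous (hucs c))] at h1
      linarith)
  rw [hWint]
  refine main.trans (le_of_eq ?_)
  rw [L11]
  have hπ := pi_pos
  field_simp

end

end Pool.Helper490.SH
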